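import Pool.Agent.Lib.DS.Bg

/-!
# Module Ad2: admissible extensions are charts of blow-ups
-/

namespace DS

open MP1a953e DA

/-- Ad2.  Proof.  Let `y 1, …, y s` be generators of the `O k`-algebra `D`; `y j * s j = n j`, `s j * s' j = c j`
with `n j, s j ∈ A`, `s' j ∈ D`, `c j ≠ 0` (so `s j ≠ 0`). Let `f 0 = ∏ s j`, `f j = n j * ∏_{l ≠ j} s l`,
`1 ≤ j ≤ s`, and `f (s+1) = e`, a nonzero constant of `O k` of the form `e = a * ∏ c j`, `a ∈ O k` (if the
norm of `∏ c j` is `≤ 1` take `a = 1`, otherwise `a = (∏ c j)⁻¹`). Then `f j / f 0 = y j`,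
`f (s+1) / f 0 = a * ∏ s' j ∈ D`. -/
theorem exists_blowup {k K : Type*} [NormedField k] [IsUltrametricDist k] [Field K] [Algebra k K]
    {A D : Subalgebra (O k) K} (h : Adm A D) (hD : D.FG) :
    ∃ (n : ℕ) (f : Fin (n + 1) → K), (∀ i, f i ∈ A) ∧ f 0 ≠ 0 ∧
      (∃ i, ∃ c : O k, c ≠ 0 ∧ f i = algebraMap (O k) K c) ∧
      D = A ⊔ Algebra.adjoin (O k) (Set.range fun i => f i / f 0) := by
  obtain ⟨n, f, y, hf, hy, ⟨i₀, c, hc, hfc⟩, hDe⟩ := exists_blowup_gen h hD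
  have h0 : f 0 ≠ 0 := by
    intro h0
    have h1 := hy i₀
    rw [h0, zero_mul, hfc] at h1
    have h2 : algebraMap k K (c : k) = 0 := h1.symm
    exact hc (Subtype.ext ((map_eq_zero (algebraMap k K)).1 h2))
  have hyf : y = fun i => f i / f 0 := by
    funext i
    rw [← hy i, mul_div_cancel_left₀ _ h0]
  exact ⟨n, f, hf, h0, ⟨i₀, c, hc, hfc⟩, by rw [hDe, hyf]⟩

/-- Ad2b (converse).  Proof.  `Adm.adjoin` with `y = f 0`, `y' = f i / f 0` (for the constant `f i = c`) and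
`W` the set of all `f i / f 0`. -/
theorem adm_of_blowup {k K : Type*} [NormedField k] [IsUltrametricDist k] [Field K] [Algebra k K]
    {A : Subalgebra (O k) K} {n : ℕ} {f : Fin (n + 1) → K} (hf : ∀ i, f i ∈ A) (h0 : f 0 ≠ 0)
    (hc : ∃ i, ∃ c : O k, c ≠ 0 ∧ f i = algebraMap (O k) K c) :
    Adm A (A ⊔ Algebra.adjoin (O k) (Set.range fun i => f i / f 0)) := by
  obtain ⟨i₀, c, hc, hfc⟩ := hc
  have h1 := Adm.adjoin (D := A) (hf 0) (y' := f i₀ / f 0) hc (by
    rw [mul_div_cancel₀ _ h0, hfc]) (W := Set.range fun i => f i / f 0) (by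
    rintro _ ⟨i, rfl⟩
    rw [div_mul_cancel₀ _ h0]
    exact hf i)
  have h2 : Algebra.adjoin (O k) ((A : Set K) ∪ (Set.range fun i => f i / f 0) ∪ {f i₀ / f 0}) =
      A ⊔ Algebra.adjoin (O k) (Set.range fun i => f i / f 0) := by
    have h3 : (A : Set K) ∪ (Set.range fun i => f i / f 0) ∪ {f i₀ / f 0} =
        (A : Set K) ∪ (Set.range fun i => f i / f 0) := by
      apply Set.union_eq_self_of_subset_right
      rintro x hx
      rw [Set.mem_singleton_iff] at hx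
      exact Or.inr ⟨i₀, hx.symm⟩
    rw [h3, Algebra.adjoin_union, Algebra.adjoin_eq]
  rwa [h2] at h1

end DS
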