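import Pool.Agent.Lib.DS.Core
import Pool.Agent.Lib.DS.Ad2

/-!
# Valuation rings with semistable charts
-/

namespace DS

open MP1a953e DA

/-- Every finitely generated model in the valuation ring `V` of `L` has admissible charts at the
centre of `V` which are smooth over a semistable model ring with `d + 1` coordinates (with values
`< 1`) and on which given nonzero elements are monomials in the coordinates up to constants and
units. -/
def Charts (k : Type*) {L : Type*} [NormedField k] [IsUltrametricDist k] [Field L] [Algebra k L]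
    (V : ValuationSubring L) (d : ℕ) : Prop :=
  ∀ A : Subalgebra (O k) L, A.FG → (∀ a ∈ A, a ∈ V) → IsFractionRing A L →
    ∀ S : Finset L, (∀ x ∈ S, x ≠ 0) →
    ∃ B : Subalgebra (O k) L, B.FG ∧ Adm A B ∧ (∀ b ∈ B, b ∈ V) ∧
      ∃ ϖ : O k, ϖ ≠ 0 ∧ ‖(ϖ : k)‖ < 1 ∧ ∃ φ : SS d ϖ →ₐ[O k] B, φ.toRingHom.Smooth ∧
        (∀ i, V.valuation (φ (SS.x i) : L) < 1) ∧
        ∀ x ∈ S, MonU B (fun i => (φ (SS.x i) : L)) x

/-- conditions on a valuation ring `V` which correspond to a point of the analytic space: `V` is a
valuation ring over `O k`, and every element of `L` is a quotient of an element of `V` and a constant -/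
structure Pt (k : Type*) {L : Type*} [NormedField k] [Field L] [Algebra k L]
    (V : ValuationSubring L) : Prop where
  const : ∀ c : k, algebraMap k L c ∈ V ↔ ‖c‖ ≤ 1
  arch : ∀ x : L, ∃ c : k, c ≠ 0 ∧ algebraMap k L c * x ∈ V

end DS
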