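import Pool.Agent.Lib.DS.N2
import Pool.Agent.Lib.DA.S4

/-!
# Module N3: the semistable model ring is integrally closed
-/

namespace DS

open MP1a953e DA

section
variable {k F : Type*} [NontriviallyNormedField k] [IsUltrametricDist k] [Field F] [Algebra k F]

/-- N3a (exponents).  Proof.  Let `M = max (0, max_j (- z j))`. Then `a * ∏ y j ^ z j` is
`(a / ϖ ^ M) * t 0 ^ M * ∏ t (j+1) ^ (z j + M)`, where `t = tt y ϖ` and `∏ t i = ϖ`. -/
theorem mem_of_norm_le {d : ℕ} {y : Fin d → F} (hy : ∀ j, y j ≠ 0) {ϖ : O k} (hϖ : ϖ ≠ 0)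
    (hϖ1 : ‖(ϖ : k)‖ < 1) (z : Fin d → ℤ) (a : k) (h0 : ‖a‖ ≤ 1)
    (h : ∀ j, ‖a‖ * ‖(ϖ : k)‖ ^ z j ≤ 1) :
    algebraMap k F a * ∏ j, y j ^ z j ∈
      (Algebra.adjoin (O k) (Set.range (tt y (ϖ : k))) : Subalgebra (O k) F) := by
  classical
  have hϖ' : (ϖ : k) ≠ 0 := fun h => hϖ (by exact_mod_cast h)
  have hϖn : 0 < ‖(ϖ : k)‖ := norm_pos_iff.2 hϖ'
  obtain ⟨M, hM1, hM2⟩ : ∃ M : ℕ, (∀ j, 0 ≤ z j + M) ∧ ‖a‖ ≤ ‖(ϖ : k)‖ ^ M := by
    by_cases hz : ∀ j, 0 ≤ z j
    · exact ⟨0, fun j => by simpa using hz j, by simpa using h0⟩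
    · push Not at hz
      obtain ⟨j0, hj0⟩ := hz
      have hne : (Finset.univ : Finset (Fin d)).Nonempty := ⟨j0, Finset.mem_univ _⟩
      obtain ⟨j1, -, hj1⟩ := Finset.exists_min_image Finset.univ z hne
      have h1 : z j1 < 0 := (hj1 j0 (Finset.mem_univ _)).trans_lt hj0
      refine ⟨(-z j1).toNat, fun j => ?_, ?_⟩
      · have h2 := hj1 j (Finset.mem_univ _)
        omega
      · have h2 := h j1
        have h3 : ‖(ϖ : k)‖ ^ z j1 * ‖(ϖ : k)‖ ^ (-z j1).toNat = 1 := by
          rw [← zpow_natCast, ← zpow_add₀ hϖn.ne', Int.toNat_of_nonneg (by omega)]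
          simp
        calc ‖a‖ = ‖a‖ * (‖(ϖ : k)‖ ^ z j1 * ‖(ϖ : k)‖ ^ (-z j1).toNat) := by rw [h3, mul_one]
          _ = (‖a‖ * ‖(ϖ : k)‖ ^ z j1) * ‖(ϖ : k)‖ ^ (-z j1).toNat := by ring
          _ ≤ 1 * ‖(ϖ : k)‖ ^ (-z j1).toNat := by gcongr
          _ = _ := one_mul _
  have hb : ‖a / (ϖ : k) ^ M‖ ≤ 1 := by
    rw [norm_div, norm_pow, div_le_one (pow_pos hϖn M)]
    exact hM2
  set T := (Algebra.adjoin (O k) (Set.range (tt y (ϖ : k))) : Subalgebra (O k) F) with hT
  have ht : ∀ i, tt y (ϖ : k) i ∈ T := fun i => Algebra.subset_adjoin ⟨i, rfl⟩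
  have hprod : tt y (ϖ : k) 0 * ∏ j, y j = algebraMap k F (ϖ : k) :=
    div_mul_cancel₀ _ (Finset.prod_ne_zero_iff.2 fun j _ => hy j)
  have hϖF : algebraMap k F (ϖ : k) ≠ 0 := (_root_.map_ne_zero _).2 hϖ'
  have h1 : algebraMap k F a * ∏ j, y j ^ z j = algebraMap k F (a / (ϖ : k) ^ M) *
      (tt y (ϖ : k) 0 ^ M * ∏ j, y j ^ (z j + M).toNat) := by
    have h2 : ∏ j, y j ^ (z j + M).toNat = (∏ j, y j ^ z j) * (∏ j, y j) ^ M := by
      rw [← Finset.prod_pow, ← Finset.prod_mul_distrib]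
      refine Finset.prod_congr rfl fun j _ => ?_
      rw [← zpow_natCast, Int.toNat_of_nonneg (hM1 j), zpow_add₀ (hy j), zpow_natCast]
    have h3 : tt y (ϖ : k) 0 ^ M * ((∏ j, y j ^ z j) * (∏ j, y j) ^ M) =
        algebraMap k F (ϖ : k) ^ M * ∏ j, y j ^ z j := by
      rw [← hprod, mul_pow]
      ring
    rw [h2, h3, map_div₀, map_pow]
    field_simp
  rw [h1]
  refine T.mul_mem (T.algebraMap_mem (⟨a / (ϖ : k) ^ M, mem_O.2 hb⟩ : O k))
    (T.mul_mem (T.pow_mem (ht 0) M) (Subalgebra.prod_mem T fun j _ => ?_))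
  exact T.pow_mem (ht j.succ) _

/-- the change of exponents when `y j₀` is replaced by `ϖ / ∏ y j` -/
private def ww {d : ℕ} (j0 : Fin d) (z : Fin d → ℤ) : Fin d → ℤ :=
  fun j => if j = j0 then - z j0 else z j - z j0

private theorem ww_ww {d : ℕ} (j0 : Fin d) (z : Fin d → ℤ) : ww j0 (ww j0 z) = z := by
  funext j
  unfold ww
  by_cases h : j = j0
  · simp [h]
  · simp [h]

private theorem ww_inj {d : ℕ} (j0 : Fin d) : Function.Injective (ww j0) := by
  intro z z' h
  rw [← ww_ww j0 z, h, ww_ww]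

/-- the family `y` with `y j₀` replaced by `ϖ / ∏ y j` -/
private noncomputable def uu {d : ℕ} (y : Fin d → F) (ϖ : k) (j0 : Fin d) : Fin d → F :=
  Function.update y j0 (algebraMap k F ϖ / ∏ j, y j)

private theorem uu_ne {d : ℕ} {y : Fin d → F} (hy : ∀ j, y j ≠ 0) {ϖ : k} (hϖ : ϖ ≠ 0)
    (j0 j : Fin d) : uu y ϖ j0 j ≠ 0 := by
  unfold uu
  by_cases h : j = j0
  · subst h
    rw [Function.update_self]
    exact div_ne_zero ((_root_.map_ne_zero _).2 hϖ) (Finset.prod_ne_zero_iff.2 fun j _ => hy j)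
  · rw [Function.update_of_ne h]
    exact hy j

private theorem uu_zpow {d : ℕ} {y : Fin d → F} (hy : ∀ j, y j ≠ 0) {ϖ : k}
    (j0 : Fin d) (z : Fin d → ℤ) : ∏ j, uu y ϖ j0 j ^ z j =
      algebraMap k F (ϖ ^ z j0) * ∏ j, y j ^ ww j0 z j := by
  have h1 : ∏ j, uu y ϖ j0 j ^ z j = (algebraMap k F ϖ / ∏ j, y j) ^ z j0 *
      ∏ j ∈ Finset.univ.erase j0, y j ^ z j := by
    rw [← Finset.mul_prod_erase Finset.univ _ (Finset.mem_univ j0)]
    congr 1
    · unfold uu
      rw [Function.update_self]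
    · refine Finset.prod_congr rfl fun j hj => ?_
      unfold uu
      rw [Function.update_of_ne (Finset.ne_of_mem_erase hj)]
  have h2 : ∏ j, y j ^ ww j0 z j = y j0 ^ (- z j0) *
      ∏ j ∈ Finset.univ.erase j0, (y j ^ z j * y j ^ (- z j0)) := by
    rw [← Finset.mul_prod_erase Finset.univ _ (Finset.mem_univ j0)]
    congr 1
    · unfold ww
      simp only [if_true]
    · refine Finset.prod_congr rfl fun j hj => ?_
      unfold ww
      rw [if_neg (Finset.ne_of_mem_erase hj), sub_eq_add_neg, zpow_add₀ (hy j)]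
  have h3 : ∏ j, y j ^ (- z j0) = y j0 ^ (- z j0) *
      ∏ j ∈ Finset.univ.erase j0, y j ^ (- z j0) :=
    (Finset.mul_prod_erase Finset.univ _ (Finset.mem_univ j0)).symm
  rw [h1, h2, Finset.prod_mul_distrib, div_zpow, map_zpow₀, ← Finset.prod_zpow, div_eq_mul_inv,
    ← Finset.prod_inv_distrib]
  have h4 : ∏ j, (y j ^ z j0)⁻¹ = ∏ j, y j ^ (- z j0) :=
    Finset.prod_congr rfl fun j _ => (zpow_neg _ _).symm
  rw [h4, h3]
  ring

private theorem uu_prod {d : ℕ} {y : Fin d → F} (hy : ∀ j, y j ≠ 0) {ϖ : k} (hϖ : ϖ ≠ 0)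
    (j0 : Fin d) : y j0 = algebraMap k F ϖ * ∏ j, (uu y ϖ j0 j)⁻¹ := by
  have h1 := uu_zpow hy (ϖ := ϖ) j0 (fun _ => 1)
  simp only [zpow_one] at h1
  have h2 : ∏ j, y j ^ ww j0 (fun _ => 1) j = (y j0)⁻¹ := by
    rw [← Finset.mul_prod_erase Finset.univ _ (Finset.mem_univ j0)]
    have h3 : ∏ j ∈ Finset.univ.erase j0, y j ^ ww j0 (fun _ => 1) j = 1 := by
      refine Finset.prod_eq_one fun j hj => ?_
      unfold ww
      rw [if_neg (Finset.ne_of_mem_erase hj), sub_self, zpow_zero]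
    rw [h3, mul_one]
    unfold ww
    rw [if_pos rfl, zpow_neg_one]
  rw [h2] at h1
  have h3 : algebraMap k F ϖ ≠ 0 := (_root_.map_ne_zero _).2 hϖ
  rw [Finset.prod_inv_distrib, h1, mul_inv, inv_inv, ← mul_assoc, mul_inv_cancel₀ h3, one_mul]

private theorem uu_ai {d : ℕ} {y : Fin d → F} (hy : AlgebraicIndependent k y) {ϖ : k}
    (hϖ : ϖ ≠ 0) (j0 : Fin d) : AlgebraicIndependent k (uu y ϖ j0) := by
  classical
  have hne : ∀ j, y j ≠ 0 := fun j => hy.ne_zero j
  have hli := linearIndependent_laurent hy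
  rw [algebraicIndependent_iff]
  intro p hp
  set zz : (Fin d →₀ ℕ) → (Fin d → ℤ) := fun n => ww j0 (fun j => (n j : ℤ)) with hzz
  have hinj : Function.Injective zz := by
    intro n n' h
    have h1 := ww_inj j0 h
    ext j
    have h2 := congrFun h1 j
    exact_mod_cast h2
  have hli2 : LinearIndependent k (fun n : Fin d →₀ ℕ => ∏ j, y j ^ zz n j) :=
    hli.comp zz hinj
  have hsum : ∑ n ∈ p.support, (p.coeff n * ϖ ^ n j0) • ∏ j, y j ^ zz n j = 0 := by
    rw [← hp, MvPolynomial.aeval_def, MvPolynomial.eval₂_eq']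
    refine Finset.sum_congr rfl fun n _ => ?_
    have h1 := uu_zpow hne (ϖ := ϖ) j0 (fun j => (n j : ℤ))
    simp only [zpow_natCast] at h1
    rw [h1, Algebra.smul_def, map_mul, mul_assoc]
  ext n
  rw [MvPolynomial.coeff_zero]
  by_contra hne0
  have hn : n ∈ p.support := MvPolynomial.mem_support_iff.2 hne0
  rw [linearIndependent_iff'] at hli2
  have h2 := hli2 p.support (fun n => p.coeff n * ϖ ^ n j0) hsum n hn
  rcases mul_eq_zero.1 h2 with h3 | h3
  · exact hne0 h3
  · exact pow_ne_zero _ hϖ h3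

private theorem int_up {A B : Subring F} (h : A ≤ B) {x : F} (hx : IsIntegral A x) :
    IsIntegral B x := by
  have h1 := IsIntegral.map_of_comp_eq (Subring.inclusion h) (RingHom.id F) (by
    ext a
    rfl) hx
  exact h1

/-- N3b.  Proof.  Let `T = O k [t 0, …, t d]` (`t = tt y ϖ`), and `x` an element of the fraction field `k(y)`
which is integral over `T`. By `laurent_of_integral` `x = ∑ a z y ^ z`. (i) `T ≤ O k [y j, (y j)⁻¹]`, so
`‖a z‖ ≤ 1` by `norm_coeff_le`. (ii) Let `j₀ : Fin d` and `u` the family `y` with `y j₀` replaced by `t 0`; it is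
algebraically independent (`y j₀ = ϖ / (t 0 * ∏_{j ≠ j₀} y j)`, so `y ^ z = ϖ ^ (z j₀) * u ^ w` where `w j₀ = - z j₀`,
`w j = z j - z j₀` for `j ≠ j₀`, and `z ↦ w` is injective; algebraic independence of `u`: `k(u) = k(y)` and the
number of elements, or a linear substitution of the exponents), and `T ≤ O k [u j, (u j)⁻¹]`. So
`‖a z * ϖ ^ (z j₀)‖ ≤ 1` by `norm_coeff_le`. (iii) `mem_of_norm_le` for every term. -/
theorem isIntegrallyClosed_tt {d : ℕ} {y : Fin d → F} (hy : AlgebraicIndependent k y) {ϖ : O k}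
    (hϖ : ϖ ≠ 0) (hϖ1 : ‖(ϖ : k)‖ < 1) :
    IsIntegrallyClosed
      ↥(Algebra.adjoin (O k) (Set.range (tt y (ϖ : k))) : Subalgebra (O k) F) := by
  classical
  have hne : ∀ j, y j ≠ 0 := fun j => hy.ne_zero j
  have hϖ' : (ϖ : k) ≠ 0 := fun h => hϖ (by exact_mod_cast h)
  set T := (Algebra.adjoin (O k) (Set.range (tt y (ϖ : k))) : Subalgebra (O k) F) with hT
  -- subrings which contain `T`
  have hTle : ∀ B : Subring F, (∀ a : O k, algebraMap k F (a : k) ∈ B) →
      (∀ i, tt y (ϖ : k) i ∈ B) → ∀ b ∈ T, b ∈ B := by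
    intro B hB1 hB2 b hb
    rw [hT] at hb
    induction hb using Algebra.adjoin_induction with
    | mem b hb =>
      obtain ⟨i, rfl⟩ := hb
      exact hB2 i
    | algebraMap a => exact hB1 a
    | add x y _ _ hx hy => exact add_mem hx hy
    | mul x y _ _ hx hy => exact mul_mem hx hy
  have htt0 : tt y (ϖ : k) 0 = algebraMap k F (ϖ : k) * ∏ j, (y j)⁻¹ := by
    change algebraMap k F (ϖ : k) / ∏ j, y j = _
    rw [div_eq_mul_inv, Finset.prod_inv_distrib]
  set Λ := Algebra.adjoin k (Set.range y ∪ Set.range fun j => (y j)⁻¹) with hΛ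
  have hTΛ : ∀ b ∈ T, b ∈ Λ.toSubring := by
    refine hTle _ (fun a => Λ.algebraMap_mem (a : k)) (fun i => ?_)
    refine Fin.cases ?_ (fun j => ?_) i
    · rw [htt0]
      exact Λ.mul_mem (Λ.algebraMap_mem _) (Subalgebra.prod_mem Λ fun j _ =>
        Algebra.subset_adjoin (Or.inr ⟨j, rfl⟩))
    · exact Algebra.subset_adjoin (Or.inl ⟨j, rfl⟩)
  have hTK : ∀ b ∈ T, b ∈ IntermediateField.adjoin k (Set.range y) := by
    have hle : Λ ≤ (IntermediateField.adjoin k (Set.range y)).toSubalgebra := by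
      refine Algebra.adjoin_le ?_
      rintro b (⟨i, rfl⟩ | ⟨i, rfl⟩)
      · exact IntermediateField.subset_adjoin k _ ⟨i, rfl⟩
      · exact (IntermediateField.adjoin k (Set.range y)).inv_mem
          (IntermediateField.subset_adjoin k _ ⟨i, rfl⟩)
    exact fun b hb => hle (hTΛ b hb)
  rw [isIntegrallyClosed_iff (FractionRing ↥T)]
  intro x hx
  let f : FractionRing ↥T →ₐ[↥T] F :=
    IsFractionRing.liftAlgHom (K := FractionRing ↥T)
      (g := Algebra.ofId ↥T F) Subtype.val_injective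
  have hf : Function.Injective f := f.toRingHom.injective
  have h1 : IsIntegral ↥T (f x) := (isIntegral_algHom_iff f hf).2 hx
  have h2 : f x ∈ IntermediateField.adjoin k (Set.range y) := by
    obtain ⟨p, q, -, hpq⟩ := IsFractionRing.div_surjective (A := ↥T) x
    rw [← hpq, map_div₀, f.commutes, f.commutes]
    exact div_mem (hTK _ p.2) (hTK _ q.2)
  have h3 : IsIntegral ↥Λ (f x) := int_up (A := T.toSubring) (B := Λ.toSubring) hTΛ h1
  obtain ⟨Z, a, hZ⟩ := laurent_of_integral hy h2 h3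
  have h4 : f x ∈ T := by
    rw [hZ]
    refine Subalgebra.sum_mem T fun z hz => ?_
    refine mem_of_norm_le hne hϖ hϖ1 z (a z) ?_ fun j0 => ?_
    · set R := (Algebra.adjoin (O k) (Set.range y ∪ Set.range fun j => (y j)⁻¹) :
        Subalgebra (O k) F) with hR
      have h5 : IsIntegral ↥R (f x) := by
        refine int_up (A := T.toSubring) (B := R.toSubring) (hTle R.toSubring
          (fun a => R.algebraMap_mem a) (fun i => ?_)) h1
        refine Fin.cases ?_ (fun j => ?_) i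
        · rw [htt0]
          exact R.mul_mem (R.algebraMap_mem ϖ) (Subalgebra.prod_mem R fun j _ =>
            Algebra.subset_adjoin (Or.inr ⟨j, rfl⟩))
        · exact Algebra.subset_adjoin (Or.inl ⟨j, rfl⟩)
      rw [hZ] at h5
      exact norm_coeff_le hy Z a h5 hz
    · set u := uu y (ϖ : k) j0 with hu
      set R := (Algebra.adjoin (O k) (Set.range u ∪ Set.range fun j => (u j)⁻¹) :
        Subalgebra (O k) F) with hR
      have h5 : IsIntegral ↥R (f x) := by
        refine int_up (A := T.toSubring) (B := R.toSubring) (hTle R.toSubring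
          (fun a => R.algebraMap_mem a) (fun i => ?_)) h1
        refine Fin.cases ?_ (fun j => ?_) i
        · have h6 : tt y (ϖ : k) 0 = u j0 := by
            rw [hu]
            unfold uu
            rw [Function.update_self]
            rfl
          rw [h6]
          exact Algebra.subset_adjoin (Or.inl ⟨j0, rfl⟩)
        · have h6 : tt y (ϖ : k) j.succ = y j := rfl
          rw [h6]
          by_cases hj : j = j0
          · rw [hj, uu_prod hne hϖ' j0]
            exact R.mul_mem (R.algebraMap_mem ϖ) (Subalgebra.prod_mem R fun j _ =>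
              Algebra.subset_adjoin (Or.inr ⟨j, rfl⟩))
          · have h7 : y j = u j := by
              rw [hu]
              unfold uu
              rw [Function.update_of_ne hj]
            rw [h7]
            exact Algebra.subset_adjoin (Or.inl ⟨j, rfl⟩)
      have h6 : f x = ∑ w ∈ Z.image (ww j0), algebraMap k F
          (a (ww j0 w) * (ϖ : k) ^ (ww j0 w) j0) * ∏ j, u j ^ w j := by
        rw [hZ, Finset.sum_image (fun z _ z' _ h => ww_inj j0 h)]
        refine Finset.sum_congr rfl fun z _ => ?_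
        rw [ww_ww, hu, uu_zpow hne, ww_ww, map_mul, map_zpow₀, map_zpow₀]
        have h7 : ww j0 z j0 = - z j0 := by
          unfold ww
          rw [if_pos rfl]
        have h8 : algebraMap k F (ϖ : k) ≠ 0 := (_root_.map_ne_zero _).2 hϖ'
        rw [h7, mul_assoc, ← mul_assoc (algebraMap k F (ϖ : k) ^ z j0), ← zpow_add₀ h8,
          add_neg_cancel, zpow_zero, one_mul]
      rw [h6] at h5
      have h7 := norm_coeff_le (uu_ai hy hϖ' j0) (Z.image (ww j0))
        (fun w => a (ww j0 w) * (ϖ : k) ^ (ww j0 w) j0) h5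
        (Finset.mem_image_of_mem (ww j0) hz)
      simp only [ww_ww, norm_mul, norm_zpow] at h7
      exact h7
  refine ⟨⟨f x, h4⟩, hf ?_⟩
  rw [f.commutes]
  rfl

private theorem ic_ss_of {d : ℕ} {y : Fin d → F} (hy : AlgebraicIndependent k y) {ϖ : O k}
    (hϖ : ϖ ≠ 0) (hϖ1 : ‖(ϖ : k)‖ < 1) : IsIntegrallyClosed (SS d ϖ) := by
  have hne : ∀ j, y j ≠ 0 := fun j => hy.ne_zero j
  let f : SS d ϖ →ₐ[O k] F := SS.lift (tt y (ϖ : k)) (prod_tt hne (ϖ : k))
  have hf : ∀ i, f (SS.x i) = tt y (ϖ : k) i := fun i => SS.lift_x _ _ i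
  have hfs : (fun j : Fin d => f (SS.x j.succ)) = y := funext fun j => (hf j.succ).trans rfl
  have hinj : Function.Injective f := injective_ss hϖ f (by rw [hfs]; exact hy)
  have hcomp : f.comp (SS.mk d ϖ) = MvPolynomial.aeval (tt y (ϖ : k)) := by
    refine MvPolynomial.algHom_ext fun i => ?_
    rw [AlgHom.comp_apply, SS.mk_X, MvPolynomial.aeval_X]
    exact hf i
  have hrange : f.range = (Algebra.adjoin (O k) (Set.range (tt y (ϖ : k))) :
      Subalgebra (O k) F) := by
    rw [Algebra.adjoin_range_eq_range_aeval, ← hcomp]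
    apply le_antisymm
    · rintro _ ⟨x, rfl⟩
      obtain ⟨p, rfl⟩ := SS.mk_surjective d ϖ x
      exact ⟨p, rfl⟩
    · rintro _ ⟨p, rfl⟩
      exact ⟨SS.mk d ϖ p, rfl⟩
  have h1 : IsIntegrallyClosed ↥f.range := by
    rw [hrange]
    exact isIntegrallyClosed_tt hy hϖ hϖ1
  exact IsIntegrallyClosed.of_equiv (AlgEquiv.ofInjective f hinj).symm.toRingEquiv

end

/-- N3c.  `SS d ϖ` is isomorphic to the ring in N3b, for the fraction field of `MvPolynomial (Fin d) k`
(`exists_ss_hom`; the range of an injective homomorphism, generated by the images of the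
coordinates). -/
theorem isIntegrallyClosed_ss {k : Type*} [NontriviallyNormedField k] [IsUltrametricDist k]
    (d : ℕ) {ϖ : O k} (hϖ : ϖ ≠ 0) (hϖ1 : ‖(ϖ : k)‖ < 1) : IsIntegrallyClosed (SS d ϖ) := by
  have hinj : Function.Injective
      (algebraMap (MvPolynomial (Fin d) k) (FractionRing (MvPolynomial (Fin d) k))) :=
    IsFractionRing.injective _ _
  have hai : AlgebraicIndependent k fun j : Fin d => algebraMap (MvPolynomial (Fin d) k)
      (FractionRing (MvPolynomial (Fin d) k)) (MvPolynomial.X j) :=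
    AlgebraicIndependent.map' (f := IsScalarTower.toAlgHom k (MvPolynomial (Fin d) k)
      (FractionRing (MvPolynomial (Fin d) k))) (MvPolynomial.algebraicIndependent_X (Fin d) k) hinj
  exact ic_ss_of hai hϖ hϖ1

/-- N3d.  `isIntegrallyClosed_mvPolynomial` (module DA/S4) and `MvPolynomial.renameEquiv` with
`finSumFinEquiv`; a ring isomorphic to an integrally closed one is integrally closed. -/
theorem isIntegrallyClosed_pp {k : Type*} [NontriviallyNormedField k] [IsUltrametricDist k]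
    (d n c : ℕ) {ϖ : O k} (hϖ : ϖ ≠ 0) (hϖ1 : ‖(ϖ : k)‖ < 1) :
    IsIntegrallyClosed (PP d n c ϖ) := by
  haveI := isDomain_ss d hϖ
  haveI := isIntegrallyClosed_ss d hϖ hϖ1
  haveI := isIntegrallyClosed_mvPolynomial (SS d ϖ) (n + c)
  exact IsIntegrallyClosed.of_equiv
    (MvPolynomial.renameEquiv (SS d ϖ) (finSumFinEquiv (m := n) (n := c))).symm.toRingEquiv

end DS
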