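import Pool.Agent.Lib.DS.Defs

/-!
# Module Ad1: admissible extensions
-/

namespace DS

open MP1a953e DA

section
variable {k R L : Type*} [NormedField k] [IsUltrametricDist k] [CommRing R] [Algebra k R]
  [Field L] [Algebra k L]

/-- Ad1a.  Proof.  `n = x`, `s = s' = 1`, `c = 1`. -/
theorem Adm.refl (A : Subalgebra (O k) R) : Adm A A := by
  refine ⟨le_refl A, fun x hx => ⟨x, hx, 1, A.one_mem, 1, A.one_mem, 1, one_ne_zero, ?_, ?_⟩⟩
  · simp
  · simp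

/-- Ad1b.  Proof.  Let `x ∈ C`, `x * s = n`, `s * s' = c` with `n, s ∈ B`, `s' ∈ C`. There are
`n₁, s₁, n₂, s₂ ∈ A`, `s₁', s₂' ∈ B` with `n * s₁ = n₁`, `s₁ * s₁' = c₁`, `s * s₂ = n₂`, `s₂ * s₂' = c₂`. Then
`x * (n₂ * s₁) = x * s * s₂ * s₁ = n₁ * s₂` and `(n₂ * s₁) * (s' * s₂' * s₁') = c * c₂ * c₁`. -/
theorem Adm.trans {A B C : Subalgebra (O k) R} (h : Adm A B) (h' : Adm B C) : Adm A C := by
  refine ⟨h.1.trans h'.1, fun x hx => ?_⟩
  obtain ⟨n, hn, s, hs, s', hs', c, hc, hss, hxs⟩ := h'.2 x hx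
  obtain ⟨n₁, hn₁, s₁, hs₁, s₁', hs₁', c₁, hc₁, hss₁, hxs₁⟩ := h.2 n hn
  obtain ⟨n₂, hn₂, s₂, hs₂, s₂', hs₂', c₂, hc₂, hss₂, hxs₂⟩ := h.2 s hs
  refine ⟨n₁ * s₂, A.mul_mem hn₁ hs₂, n₂ * s₁, A.mul_mem hn₂ hs₁, s' * s₂' * s₁',
    C.mul_mem (C.mul_mem hs' (h'.1 hs₂')) (h'.1 hs₁'), c * c₂ * c₁,
    mul_ne_zero (mul_ne_zero hc hc₂) hc₁, ?_, ?_⟩
  · rw [map_mul, map_mul, ← hss, ← hss₁, ← hss₂, ← hxs₂]
    ring
  · rw [← hxs₁, ← hxs, ← hxs₂]
    ring

/-- Ad1c.  Apply `π` to all equations. -/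
theorem Adm.im {A D : Subalgebra (O k) R} (h : Adm A D) (π : R →ₐ[k] L) :
    Adm (im π A) (im π D) := by
  refine ⟨Subalgebra.map_mono h.1, ?_⟩
  rintro _ ⟨x, hx, rfl⟩
  obtain ⟨n, hn, s, hs, s', hs', c, hc, hss, hxs⟩ := h.2 x hx
  refine ⟨π n, ⟨n, hn, rfl⟩, π s, ⟨s, hs, rfl⟩, π s', ⟨s', hs', rfl⟩, c, hc, ?_, ?_⟩
  · rw [← map_mul, hss]
    exact π.commutes c
  · rw [← hxs, map_mul]
    rfl

private def ad1Sub (D : Subalgebra (O k) R) {y : R} (hy : y ∈ D) : Subalgebra (O k) R where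
  carrier := {x | ∃ N : ℕ, x * y ^ N ∈ D}
  mul_mem' := by
    rintro a b ⟨N, hN⟩ ⟨M, hM⟩
    refine ⟨N + M, ?_⟩
    have : a * b * y ^ (N + M) = (a * y ^ N) * (b * y ^ M) := by ring
    rw [this]
    exact D.mul_mem hN hM
  add_mem' := by
    rintro a b ⟨N, hN⟩ ⟨M, hM⟩
    refine ⟨N + M, ?_⟩
    have : (a + b) * y ^ (N + M) = (a * y ^ N) * y ^ M + (b * y ^ M) * y ^ N := by ring
    rw [this]
    exact D.add_mem (D.mul_mem hN (D.pow_mem hy M)) (D.mul_mem hM (D.pow_mem hy N))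
  algebraMap_mem' := by
    intro a
    refine ⟨0, ?_⟩
    rw [pow_zero, mul_one]
    exact D.algebraMap_mem a

/-- Ad1d.  Proof.  The set of all `x` such that `x * y ^ N ∈ D` for some `N` is an `O k`-subalgebra (common
exponents) which contains `D`, `W` and `y'` (`y' * y = c ∈ D`). So for `x` in the adjoin take
`s = y ^ N`, `s' = y' ^ N`, `s * s' = c ^ N`. -/
theorem Adm.adjoin {D : Subalgebra (O k) R} {y y' : R} (hy : y ∈ D) {c : O k} (hc : c ≠ 0)
    (hyy : y * y' = algebraMap (O k) R c) {W : Set R} (hW : ∀ w ∈ W, w * y ∈ D) :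
    Adm D (Algebra.adjoin (O k) ((D : Set R) ∪ W ∪ {y'})) := by
  have hle : Algebra.adjoin (O k) ((D : Set R) ∪ W ∪ {y'}) ≤ ad1Sub D hy := by
    rw [Algebra.adjoin_le_iff]
    rintro x ((hx | hx) | hx)
    · exact ⟨0, by rw [pow_zero, mul_one]; exact hx⟩
    · exact ⟨1, by rw [pow_one]; exact hW x hx⟩
    · refine ⟨1, ?_⟩
      rw [Set.mem_singleton_iff] at hx
      rw [pow_one, hx, mul_comm, hyy]
      exact D.algebraMap_mem c
  refine ⟨fun x hx => Algebra.subset_adjoin (Or.inl (Or.inl hx)), fun x hx => ?_⟩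
  obtain ⟨N, hN⟩ := hle hx
  have hy' : y' ∈ Algebra.adjoin (O k) ((D : Set R) ∪ W ∪ {y'}) :=
    Algebra.subset_adjoin (Or.inr rfl)
  refine ⟨x * y ^ N, hN, y ^ N, D.pow_mem hy N, y' ^ N,
    Subalgebra.pow_mem _ hy' N, (c : k) ^ N,
    pow_ne_zero N (fun h => hc (Subtype.ext h)), ?_, rfl⟩
  rw [← mul_pow, hyy, map_pow]
  rfl

/-- Ad1e.  `Adm.adjoin` with `W = ∅`, `c = 1`. -/
theorem Adm.adj1 {D : Subalgebra (O k) R} {y y' : R} (hy : y ∈ D) (hyy : y * y' = 1) :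
    Adm D (adj1 D y') := by
  have h := Adm.adjoin (D := D) hy (c := 1) one_ne_zero (y' := y') (by rw [hyy, map_one])
    (W := ∅) (fun w hw => absurd hw (Set.notMem_empty w))
  rw [Set.union_empty] at h
  exact h

/-- Ad1f.  `adj1 D t'` is finitely generated if `D` is. -/
theorem fg_adj1 {D : Subalgebra (O k) R} (hD : D.FG) (t' : R) : (DS.adj1 D t').FG := by
  obtain ⟨s, hs⟩ := hD
  classical
  refine ⟨insert t' s, ?_⟩
  unfold DS.adj1
  apply le_antisymm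
  · rw [Algebra.adjoin_le_iff]
    intro x hx
    rw [Finset.coe_insert, Set.mem_insert_iff] at hx
    rcases hx with rfl | hx
    · exact Algebra.subset_adjoin (Or.inr rfl)
    · apply Algebra.subset_adjoin
      left
      rw [← hs]
      exact Algebra.subset_adjoin hx
  · rw [Algebra.adjoin_le_iff]
    rintro x (hx | hx)
    · have h1 : Algebra.adjoin (O k) (s : Set R) ≤
          Algebra.adjoin (O k) ((insert t' s : Finset R) : Set R) := by
        apply Algebra.adjoin_mono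
        rw [Finset.coe_insert]
        exact Set.subset_insert _ _
      apply h1
      rw [hs]
      exact hx
    · rw [Set.mem_singleton_iff] at hx
      subst hx
      apply Algebra.subset_adjoin
      rw [Finset.coe_insert]
      exact Set.mem_insert _ _

/-- Ad1g.  constants: for every `c : k`, `c ≠ 0`, there is `a ∈ O k`, `a ≠ 0`, such that `a * c ∈ O k`
(`a = 1` or `a = c⁻¹`). -/
theorem exists_scale (c : k) : ∃ a b : O k, a ≠ 0 ∧ (a : k) * c = b := by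
  by_cases h : ‖c‖ ≤ 1
  · exact ⟨1, ⟨c, h⟩, one_ne_zero, by simp⟩
  · rw [not_le] at h
    have hc : c ≠ 0 := by
      rintro rfl
      rw [norm_zero] at h
      linarith
    refine ⟨⟨c⁻¹, ?_⟩, 1, ?_, ?_⟩
    · show ‖c⁻¹‖ ≤ 1
      rw [norm_inv]
      exact inv_le_one_of_one_le₀ h.le
    · intro h1
      have h2 : c⁻¹ = 0 := congrArg Subtype.val h1
      exact inv_ne_zero hc h2
    · show c⁻¹ * c = ((1 : O k) : k)
      rw [inv_mul_cancel₀ hc]
      rfl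

end

end DS
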