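import Pool.Agent.Lib.DS.Defs

/-!
# Module Al: transcendence degrees
-/

namespace DS

open MP1a953e DA

/-- Al1.  Proof.  `K` is a localization of `D` and of `D[1/r]`, so it is formally unramified over `P`;
`P → K` factors through `F₀`, so `K` is formally unramified over `F₀`; `K / F₀` is a finitely generated field
extension (`Algebra.EssFiniteType`), so it is separable algebraic
(`Algebra.FormallyUnramified.isSeparable`). -/
theorem alg_of_unramified {k K P D : Type*} [Field k] [Field K] [Algebra k K]
    (hfg : (⊤ : IntermediateField k K).FG) [CommRing P] [CommRing D] [IsDomain D] [Algebra D K]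
    [IsFractionRing D K] (f : P →+* D) {r : D} (hr : r ≠ 0)
    (hf : ((algebraMap D (Localization.Away r)).comp f).FormallyUnramified)
    (F₀ : IntermediateField k K) (h : ∀ x, algebraMap D K (f x) ∈ F₀) :
    Algebra.IsAlgebraic F₀ K := by
  have hu : IsUnit (algebraMap D K r) := by
    rw [isUnit_iff_ne_zero]
    intro h0
    exact hr ((IsFractionRing.injective D K) (by rw [h0, map_zero]))
  let g : Localization.Away r →+* K := IsLocalization.Away.lift r hu
  have hg : g.comp (algebraMap D (Localization.Away r)) = algebraMap D K :=
    IsLocalization.Away.lift_comp r hu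
  let : Algebra (Localization.Away r) K := g.toAlgebra
  have : IsScalarTower D (Localization.Away r) K := IsScalarTower.of_algebraMap_eq' hg.symm
  have : IsFractionRing (Localization.Away r) K :=
    IsFractionRing.isFractionRing_of_isDomain_of_isLocalization (Submonoid.powers r)
      (Localization.Away r) K
  have hgu : g.FormallyUnramified := by
    show (algebraMap (Localization.Away r) K).FormallyUnramified
    rw [RingHom.formallyUnramified_algebraMap]
    exact Algebra.FormallyUnramified.of_isLocalization (nonZeroDivisors (Localization.Away r))
  have h1 : (g.comp ((algebraMap D (Localization.Away r)).comp f)).FormallyUnramified :=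
    RingHom.FormallyUnramified.comp hf hgu
  let p : P →+* F₀ := ((algebraMap D K).comp f).codRestrict F₀ h
  have h2 : g.comp ((algebraMap D (Localization.Away r)).comp f) = (algebraMap F₀ K).comp p := by
    rw [← RingHom.comp_assoc, hg]
    ext x
    rfl
  rw [h2] at h1
  have h3 := RingHom.FormallyUnramified.of_comp h1
  rw [RingHom.formallyUnramified_algebraMap] at h3
  have : Algebra.EssFiniteType k K := IntermediateField.fg_top_iff.mp hfg
  have : Algebra.EssFiniteType F₀ K := Algebra.EssFiniteType.of_comp k F₀ K
  have := Algebra.FormallyUnramified.isSeparable F₀ K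
  infer_instance

open scoped IntermediateField.algebraAdjoinAdjoin in
private theorem al_aux (k : Type*) {K : Type*} [Field k] [Field K] [Algebra k K] (S : Set K)
    (halg : Algebra.IsAlgebraic (IntermediateField.adjoin k S) K) :
    Algebra.IsAlgebraic (Algebra.adjoin k S) K :=
  (IsFractionRing.comap_isAlgebraic_iff (A := Algebra.adjoin k S)
    (K := IntermediateField.adjoin k S) (C := K)).mpr halg

/-- Al2.  Proof.  There is a transcendence basis contained in the range of `y`
(`exists_isTranscendenceBasis_subset` or similar), its cardinality is the transcendence degree, so at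
least `card ι`; so it is the whole range and `y` is injective. -/
theorem indep_of_trdeg {k K ι : Type*} [Field k] [Field K] [Algebra k K] [Fintype ι]
    (y : ι → K) (hcard : (Fintype.card ι : Cardinal) ≤ Algebra.trdeg k K)
    (halg : Algebra.IsAlgebraic (IntermediateField.adjoin k (Set.range y)) K) :
    AlgebraicIndependent k y := by
  have : Algebra.IsAlgebraic (Algebra.adjoin k (Set.range y)) K := by
    exact al_aux k (Set.range y) halg
  refine (Algebra.IsAlgebraic.isTranscendenceBasis_of_lift_le_trdeg_of_finite k y ?_).1
  rw [Cardinal.mk_fintype]
  simpa using hcard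

/-- Al3.  An etale homomorphism from a domain to a nontrivial ring is injective.  Proof.  It is flat
(`RingHom.Etale.iff_flat_and_formallyUnramified`), so nonzero elements of `Q` are nonzerodivisors in
`B`. -/
theorem injective_of_etale {Q B : Type*} [CommRing Q] [IsDomain Q] [CommRing B] [Nontrivial B]
    (f : Q →+* B) (hf : f.Etale) : Function.Injective f := by
  rw [RingHom.Etale.iff_flat_and_formallyUnramified] at hf
  have h1 := hf.1
  algebraize [f]
  have : Module.Flat Q B := h1
  rw [injective_iff_map_eq_zero]
  intro q hq
  by_contra hq0
  have h2 : IsSMulRegular B q :=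
    Module.Flat.isSMulRegular_of_isRegular (IsRegular.of_ne_zero hq0)
  have h3 : q • (1 : B) = q • (0 : B) := by
    rw [smul_zero, Algebra.smul_def, mul_one]
    exact hq
  exact one_ne_zero (h2 h3)

/-- Al4.  Proof.  The cardinality of an algebraically independent family is at most the transcendence
degree. -/
theorem card_le_trdeg {k K ι : Type*} [Field k] [Field K] [Algebra k K] [Fintype ι]
    {y : ι → K} (hy : AlgebraicIndependent k y) :
    (Fintype.card ι : Cardinal) ≤ Algebra.trdeg k K := by
  have h := hy.lift_cardinalMk_le_trdeg
  rw [Cardinal.mk_fintype] at h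
  simpa using h

end DS
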