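import Pool.Agent.Lib.DS.Ad1

/-!
# Module Bg: admissible extensions are charts of blow-ups (in a ring)
-/

namespace DS

open MP1a953e DA

/-- Bg.  Proof.  As `exists_blowup` (module Ad2), with `y i` instead of `f i / f 0`. Let `d 1, …, d s` be
generators of the `O k`-algebra `D`; `d j * s j = n j`, `s j * s' j = c j` with `n j, s j ∈ A`, `s' j ∈ D`,
`c j ≠ 0`. Let `f 0 = ∏ s j`, `y 0 = 1`; `f j = n j * ∏_{l ≠ j} s l`, `y j = d j`, `1 ≤ j ≤ s`; `f (s+1) = a * ∏ c j`,
a nonzero constant of `O k`, `a ∈ O k` (`exists_scale`), `y (s+1) = a * ∏ s' j ∈ D`. -/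
theorem exists_blowup_gen {k R : Type*} [NormedField k] [IsUltrametricDist k] [CommRing R]
    [Algebra k R] {A D : Subalgebra (O k) R} (h : Adm A D) (hD : D.FG) :
    ∃ (n : ℕ) (f y : Fin (n + 1) → R), (∀ i, f i ∈ A) ∧ (∀ i, f 0 * y i = f i) ∧
      (∃ i, ∃ c : O k, c ≠ 0 ∧ f i = algebraMap (O k) R c) ∧
      D = A ⊔ Algebra.adjoin (O k) (Set.range y) := by
  classical
  obtain ⟨hAD, hx⟩ := h
  obtain ⟨t, ht⟩ := hD
  have ht2 : ∀ x ∈ t, x ∈ D := fun x hxt => ht ▸ Algebra.subset_adjoin hxt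
  choose! N hN S hS S' hS' C hC0 hC hNS using hx
  obtain ⟨a, b, ha, hab⟩ := exists_scale (∏ x ∈ t, C x)
  have hprod0 : (∏ x ∈ t, C x) ≠ 0 := Finset.prod_ne_zero_iff.2 fun x hx => hC0 x (ht2 x hx)
  have hb : b ≠ 0 := by
    rintro rfl
    have h1 : (a : k) * ∏ x ∈ t, C x ≠ 0 :=
      mul_ne_zero (fun h2 => ha (Subtype.ext h2)) hprod0
    exact h1 hab
  set d : Fin t.card → R := fun j => (t.equivFin.symm j : R) with hd
  have hdt : ∀ j, d j ∈ t := fun j => (t.equivFin.symm j).2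
  have hprod : (∏ x ∈ t, S x) * (∏ x ∈ t, S' x) = algebraMap k R (∏ x ∈ t, C x) := by
    rw [← Finset.prod_mul_distrib, map_prod]
    exact Finset.prod_congr rfl fun x hx => hC x (ht2 x hx)
  refine ⟨t.card + 1,
    Fin.cons (∏ x ∈ t, S x) (Fin.cons (algebraMap (O k) R b)
      (fun j => N (d j) * ∏ x ∈ t.erase (d j), S x)),
    Fin.cons 1 (Fin.cons (algebraMap (O k) R a * ∏ x ∈ t, S' x) d), ?_, ?_, ?_, ?_⟩
  · intro i
    refine Fin.cases ?_ (fun i => ?_) i
    · exact Subalgebra.prod_mem _ fun x hx => hS x (ht2 x hx)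
    · refine Fin.cases ?_ (fun i => ?_) i
      · exact A.algebraMap_mem b
      · exact A.mul_mem (hN _ (ht2 _ (hdt i)))
          (Subalgebra.prod_mem _ fun x hx => hS x (ht2 x (Finset.mem_of_mem_erase hx)))
  · intro i
    refine Fin.cases ?_ (fun i => ?_) i
    · simp
    · refine Fin.cases ?_ (fun i => ?_) i
      · simp only [Fin.cons_zero, Fin.cons_succ]
        rw [mul_left_comm, hprod]
        have h1 : algebraMap (O k) R a = algebraMap k R a := rfl
        have h2 : algebraMap (O k) R b = algebraMap k R b := rfl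
        rw [h1, h2, ← map_mul, hab]
      · simp only [Fin.cons_zero, Fin.cons_succ]
        rw [← Finset.mul_prod_erase t S (hdt i), mul_right_comm, mul_comm (S (d i)) (d i),
          hNS _ (ht2 _ (hdt i))]
  · refine ⟨1, b, hb, ?_⟩
    rfl
  · apply le_antisymm
    · rw [← ht, Algebra.adjoin_le_iff]
      intro x hx
      refine (le_sup_right : _ ≤ A ⊔ _) (Algebra.subset_adjoin ?_)
      refine ⟨(t.equivFin ⟨x, hx⟩).succ.succ, ?_⟩
      simp [hd]
    · refine sup_le hAD ?_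
      rw [Algebra.adjoin_le_iff]
      rintro x ⟨i, rfl⟩
      refine Fin.cases ?_ (fun i => ?_) i
      · exact D.one_mem
      · refine Fin.cases ?_ (fun i => ?_) i
        · exact D.mul_mem (D.algebraMap_mem a)
            (Subalgebra.prod_mem _ fun x hx => hS' x (ht2 x hx))
        · exact ht2 _ (hdt i)

end DS
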