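import Pool.Agent.Lib.DS.Charts
import Pool.Agent.Lib.DA.M3

/-!
# Charts at points of rank one and transcendence defect one
-/

namespace DS

open MP1a953e DA IsLocalRing

universe v

/-- integral exponents -/
theorem monU_of_zpow {k L : Type*} [NormedField k] [IsUltrametricDist k] [Field L] [Algebra k L]
    {B : Subalgebra (O k) L} {d : ℕ} {x : Fin (d + 1) → L} (hx : ∀ i, x i ≠ 0) {t : L}
    {z : Fin (d + 1) → ℤ} {c : k} {v : L} (hc : c ≠ 0) (hv : v ∈ B) (hv' : v⁻¹ ∈ B) (hv0 : v ≠ 0)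
    (h : t = algebraMap k L c * (∏ i, x i ^ z i) * v) : MonU B x t := by
  refine ⟨fun i => (-z i).toNat, fun i => (z i).toNat, c, v, v⁻¹, hc, hv, hv',
    mul_inv_cancel₀ hv0, ?_⟩
  have h1 : ∀ i, x i ^ z i * x i ^ (-z i).toNat = x i ^ (z i).toNat := by
    intro i
    rw [← zpow_natCast, ← zpow_natCast, ← zpow_add₀ (hx i)]
    congr 1
    omega
  rw [h]
  calc algebraMap k L c * (∏ i, x i ^ z i) * v * ∏ i, x i ^ (-z i).toNat
      = algebraMap k L c * ((∏ i, x i ^ z i) * ∏ i, x i ^ (-z i).toNat) * v := by ring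
    _ = _ := by
      rw [← Finset.prod_mul_distrib, Finset.prod_congr rfl fun i _ => h1 i]

/-- the coordinates are not zero -/
theorem coord_ne_zero {k L : Type*} [NormedField k] [IsUltrametricDist k] [Field L] [Algebra k L]
    {B : Subalgebra (O k) L} {d : ℕ} {ϖ : O k} (hϖ : ϖ ≠ 0) (φ : SS d ϖ →ₐ[O k] B)
    (i : Fin (d + 1)) : (φ (SS.x i) : L) ≠ 0 := by
  have h1 : ∏ i, (φ (SS.x i) : L) = algebraMap k L (ϖ : k) := by
    have h2 : ∏ i, (φ (SS.x i) : L) = ((φ (∏ i, SS.x i) : B) : L) := by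
      rw [map_prod]
      push_cast
      rfl
    rw [h2, SS.prod_x, φ.commutes]
    rfl
  have h3 : ∏ i, (φ (SS.x i) : L) ≠ 0 := by
    rw [h1]
    exact (map_ne_zero _).2 fun h => hϖ (Subtype.ext h)
  exact Finset.prod_ne_zero_iff.1 h3 i (Finset.mem_univ i)

/-- Charts at points of rank one and transcendence defect one. -/
theorem charts_one {p : ℕ} [Fact p.Prime] {k L : Type v} [NontriviallyNormedField k]
    [IsUltrametricDist k] [IsAlgClosed k] (hp : ‖(p : k)‖ < 1) [NormedField L]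
    [IsUltrametricDist L] [NormedAlgebra k L] (hfg : (⊤ : IntermediateField k L).FG) {r m : ℕ}
    (e : Fin r → L) (hne : ∀ i, e i ≠ 0)
    (hind : ∀ (z : Fin r → ℤ) (c : k), ‖c‖ = ‖∏ i, e i ^ z i‖ → z = 0)
    (htors : ∀ x : L, x ≠ 0 → ∃ n : ℕ, 0 < n ∧ ∃ (z : Fin r → ℤ) (c : k),
      ‖x‖ ^ n = ‖c‖ * ‖∏ i, e i ^ z i‖)
    (hres : Algebra.trdeg (ResidueField (O k)) (ResidueField (O L)) = m)
    (htr : Algebra.trdeg k L = r + m + 1) {V : ValuationSubring L}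
    (hV : ∀ x : L, x ∈ V ↔ ‖x‖ ≤ 1) : Charts k V r := by
  intro A hA hAV hAf S hS
  obtain ⟨n, f, hf, hf0, hfc, hB, ϖ, hϖ, hϖ1, φ, hφ, hφ1, hφS⟩ :=
    (main3 (p := p) hp hfg e hne hind htors hres htr).2 A hA (fun a ha => (hV a).1 (hAV a ha)) hAf
      S hS
  refine ⟨_, hA.sup (Subalgebra.fg_def.2 ⟨_, Set.finite_range _, rfl⟩), adm_of_blowup hf hf0 hfc, fun b hb => (hV b).2 (hB b hb), ϖ, hϖ, hϖ1,
    φ.comp (SS.equiv r ϖ).symm.toAlgHom, ?_, fun i => ?_, fun x hx => ?_⟩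
  · exact hφ
  · have h1 : ‖(φ (SSr.x i) : L)‖ < 1 := hφ1 i
    have h2 : V.valuation (φ (SSr.x i) : L) < 1 := by
      by_contra h
      rw [not_lt] at h
      have h3 : (φ (SSr.x i) : L) ≠ 0 := coord_ne_zero hϖ (φ.comp (SS.equiv r ϖ).symm.toAlgHom) i
      have h4 : V.valuation (φ (SSr.x i) : L)⁻¹ ≤ 1 := by
        rw [map_inv₀]
        exact inv_le_one_of_one_le₀ h
      have h5 := (hV _).1 ((V.valuation_le_one_iff _).1 h4)
      rw [norm_inv] at h5
      have h6 : 0 < ‖(φ (SSr.x i) : L)‖ := norm_pos_iff.2 h3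
      have h7 := (inv_le_one₀ h6).1 h5
      linarith
    exact h2
  · obtain ⟨z, c, v, hc, hv, hv', hx'⟩ := hφS x hx
    refine monU_of_zpow (B := A ⊔ Algebra.adjoin (O k) (Set.range fun i => f i / f 0))
      (fun i => coord_ne_zero hϖ _ i) hc hv hv' ?_ hx'
    rintro rfl
    rw [mul_zero] at hx'
    exact hS x hx hx'

end DS
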