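import Pool.Agent.Lib.DS.Charts
import Pool.Agent.Lib.DS.Ch1

/-!
# Charts at totally immediate points from smooth charts
-/

namespace DS

open MP1a953e DA

universe v

/-- an algebra which is smooth over `O k` is smooth over `SS 0 ϖ` -/
theorem exists_phi_zero {k L : Type*} [NormedField k] [IsUltrametricDist k] [Field L] [Algebra k L]
    (B : Subalgebra (O k) L) (hB : Algebra.Smooth (O k) ↥B) (ϖ : O k) :
    ∃ φ : SS 0 ϖ →ₐ[O k] B, φ.toRingHom.Smooth ∧ ∀ i, (φ (SS.x i) : L) = algebraMap k L (ϖ : k) := by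
  have h1 : ∀ i : Fin (0 + 1), (SS.x i : SS 0 ϖ) = algebraMap (O k) (SS 0 ϖ) ϖ := fun i => by
    have h2 := SS.prod_x (k := k) 0 ϖ
    rw [Fin.prod_univ_one] at h2
    have hi : i = 0 := Fin.fin_one_eq_zero i
    rw [hi, h2]
  let φ : SS 0 ϖ →ₐ[O k] B := SS.lift (fun _ => algebraMap (O k) B ϖ) (by
    rw [Fin.prod_univ_one])
  have hφx : ∀ i, φ (SS.x i) = algebraMap (O k) B ϖ := SS.lift_x _ _
  have hinjB : Function.Injective (algebraMap (O k) B) := fun a b hab => by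
    have h3 : algebraMap k L (a : k) = algebraMap k L (b : k) := congrArg Subtype.val hab
    exact Subtype.ext ((algebraMap k L).injective h3)
  have hinj : Function.Injective (algebraMap (O k) (SS 0 ϖ)) := fun a b hab => by
    apply hinjB
    rw [← φ.commutes, ← φ.commutes, hab]
  have hsurj : Function.Surjective (algebraMap (O k) (SS 0 ϖ)) := fun x => by
    obtain ⟨y, rfl⟩ := SS.mk_surjective 0 ϖ x
    have h4 : SS.mk 0 ϖ = (Algebra.ofId (O k) (SS 0 ϖ)).comp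
        (MvPolynomial.aeval fun _ => ϖ) := by
      apply MvPolynomial.algHom_ext
      intro i
      rw [SS.mk_X, h1, AlgHom.comp_apply, MvPolynomial.aeval_X]
      rfl
    exact ⟨MvPolynomial.aeval (fun _ => ϖ) y, (DFunLike.congr_fun h4 y).symm⟩
  let e : O k ≃+* SS 0 ϖ := RingEquiv.ofBijective (algebraMap (O k) (SS 0 ϖ)) ⟨hinj, hsurj⟩
  refine ⟨φ, ?_, fun i => by rw [hφx]; rfl⟩
  have h5 : φ.toRingHom = (algebraMap (O k) B).comp (e.symm : SS 0 ϖ →+* O k) := by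
    ext x
    obtain ⟨y, rfl⟩ := hsurj x
    have h6 : e.symm (algebraMap (O k) (SS 0 ϖ) y) = y := e.symm_apply_apply y
    have h7 : (algebraMap (O k) B).comp (e.symm : SS 0 ϖ →+* O k)
        (algebraMap (O k) (SS 0 ϖ) y) = algebraMap (O k) B y := congrArg (algebraMap (O k) B) h6
    rw [h7]
    exact congrArg _ (φ.commutes y)
  rw [h5]
  exact (RingHom.Smooth.of_bijective e.symm.bijective).comp (RingHom.smooth_algebraMap.2 hB)

/-- elements of the unit ball can be adjoined -/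
theorem exists_adm_ball {k L : Type*} [NontriviallyNormedField k] [IsUltrametricDist k]
    [NormedField L] [IsUltrametricDist L] [NormedAlgebra k L]
    (himm : ∀ x : L, x ≠ 0 → ∃ c : k, ‖x - algebraMap k L c‖ < ‖x‖)
    {A : Subalgebra (O k) L} (hA : A.FG) (hA1 : ∀ a ∈ A, ‖a‖ ≤ 1) (hAf : IsFractionRing A L)
    (W : Finset L) (hW : ∀ w ∈ W, ‖w‖ ≤ 1) :
    ∃ A' : Subalgebra (O k) L, A'.FG ∧ Adm A A' ∧ (∀ a ∈ A', ‖a‖ ≤ 1) ∧ ∀ w ∈ W, w ∈ A' := by
  classical
  have hfr : ∀ w : L, ∃ a ∈ A, ∃ b ∈ A, b ≠ 0 ∧ w * b = a := fun w => by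
    obtain ⟨⟨a, b⟩, hab⟩ := IsLocalization.surj (M := nonZeroDivisors A) w
    refine ⟨a, a.2, (b : A), (b : A).2, fun h0 => ?_, hab⟩
    exact nonZeroDivisors.ne_zero b.2 (Subtype.ext h0)
  choose a ha b hb hb0 hab using hfr
  set y : L := ∏ w ∈ W, b w with hy
  have hyA : y ∈ A := Subalgebra.prod_mem _ fun w _ => hb w
  have hy0 : y ≠ 0 := Finset.prod_ne_zero_iff.2 fun w _ => hb0 w
  obtain ⟨c, hc⟩ := himm y hy0
  have hcy : ‖algebraMap k L c‖ = ‖y‖ := by
    have h1 : algebraMap k L c = y + -(y - algebraMap k L c) := by ring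
    rw [h1]
    rw [IsUltrametricDist.norm_add_eq_max_of_norm_ne_norm (by rw [norm_neg]; exact hc.ne'),
      norm_neg, max_eq_left hc.le]
  have hc1 : ‖c‖ ≤ 1 := by
    rw [norm_algebraMap'] at hcy
    rw [hcy]
    exact hA1 y hyA
  have hc0 : c ≠ 0 := by
    rintro rfl
    rw [map_zero, norm_zero] at hcy
    exact hy0 (norm_eq_zero.1 hcy.symm)
  set c' : O k := ⟨c, mem_O.2 hc1⟩ with hc'
  have hc'0 : c' ≠ 0 := fun h => hc0 (congrArg Subtype.val h)
  set y' : L := algebraMap k L c / y with hy'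
  have hyy : y * y' = algebraMap (O k) L c' := by
    rw [hy', mul_div_cancel₀ _ hy0]
    rfl
  have hy'1 : ‖y'‖ ≤ 1 := by
    rw [hy', norm_div, hcy, div_self (norm_ne_zero_iff.2 hy0)]
  have hWy : ∀ w ∈ (W : Set L), w * y ∈ A := fun w hw => by
    rw [hy, ← Finset.mul_prod_erase _ _ (Finset.mem_coe.1 hw), ← mul_assoc, hab]
    exact A.mul_mem (ha w) (Subalgebra.prod_mem _ fun w _ => hb w)
  refine ⟨Algebra.adjoin (O k) ((A : Set L) ∪ (W : Set L) ∪ {y'}), ?_,
    Adm.adjoin hyA hc'0 hyy hWy, fun x hx => ?_, fun w hw =>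
    Algebra.subset_adjoin (Or.inl (Or.inr (Finset.mem_coe.2 hw)))⟩
  · have h1 : Algebra.adjoin (O k) ((A : Set L) ∪ (W : Set L) ∪ {y'}) =
        A ⊔ Algebra.adjoin (O k) ((W : Set L) ∪ {y'}) := by
      rw [Set.union_assoc, Algebra.adjoin_union, Algebra.adjoin_eq]
    rw [h1]
    exact hA.sup (Subalgebra.fg_def.2 ⟨_, (W.finite_toSet.union (Set.finite_singleton _)), rfl⟩)
  · induction hx using Algebra.adjoin_induction with
    | mem x hx =>
      rcases hx with (hx | hx) | hx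
      · exact hA1 x hx
      · exact hW x hx
      · rw [hx]
        exact hy'1
    | algebraMap r =>
      have h1 : algebraMap (O k) L r = algebraMap k L (r : k) := rfl
      rw [h1, norm_algebraMap']
      exact mem_O.1 r.2
    | add x y _ _ hx hy => exact (IsUltrametricDist.norm_add_le_max x y).trans (max_le hx hy)
    | mul x y _ _ hx hy =>
      rw [norm_mul]
      exact mul_le_one₀ hx (norm_nonneg _) hy

/-- Charts at totally immediate points from smooth charts. -/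
theorem charts_zero_of_smooth {k L : Type*} [NontriviallyNormedField k] [IsUltrametricDist k]
    [NormedField L] [IsUltrametricDist L] [NormedAlgebra k L]
    (himm : ∀ x : L, x ≠ 0 → ∃ c : k, ‖x - algebraMap k L c‖ < ‖x‖)
    (h : ∀ A : Subalgebra (O k) L, A.FG → (∀ a ∈ A, ‖a‖ ≤ 1) → IsFractionRing A L →
      ∃ (n : ℕ) (f : Fin (n + 1) → L), (∀ i, f i ∈ A) ∧ f 0 ≠ 0 ∧
        (∃ i, ∃ c : O k, c ≠ 0 ∧ f i = algebraMap (O k) L c) ∧
        (∀ b ∈ A ⊔ Algebra.adjoin (O k) (Set.range fun i => f i / f 0), ‖b‖ ≤ 1) ∧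
        Algebra.Smooth (O k) ↥(A ⊔ Algebra.adjoin (O k) (Set.range fun i => f i / f 0)))
    {V : ValuationSubring L} (hV : ∀ x : L, x ∈ V ↔ ‖x‖ ≤ 1) : Charts k V 0 := by
  classical
  intro A hA hAV hAf S hS
  -- units
  have hu : ∀ x : L, ∃ (c : k) (u : L), x ∈ S → c ≠ 0 ∧ ‖u‖ = 1 ∧ x = algebraMap k L c * u := by
    intro x
    by_cases hx : x ∈ S
    · obtain ⟨c, hc⟩ := himm x (hS x hx)
      have hx0 : 0 < ‖x‖ := norm_pos_iff.2 (hS x hx)
      have hcx : ‖algebraMap k L c‖ = ‖x‖ := by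
        have h1 : algebraMap k L c = x + -(x - algebraMap k L c) := by ring
        rw [h1]
        rw [IsUltrametricDist.norm_add_eq_max_of_norm_ne_norm (by rw [norm_neg]; exact hc.ne'),
          norm_neg, max_eq_left hc.le]
      have hc0 : algebraMap k L c ≠ 0 := norm_pos_iff.1 (hcx ▸ hx0)
      refine ⟨c, x / algebraMap k L c, fun _ => ⟨fun h0 => hc0 (by rw [h0, map_zero]), ?_, ?_⟩⟩
      · rw [norm_div, hcx, div_self hx0.ne']
      · rw [mul_div_cancel₀ _ hc0]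
    · exact ⟨0, 0, fun h => absurd h hx⟩
  choose c u hcu using hu
  set W : Finset L := S.image u ∪ S.image fun x => (u x)⁻¹ with hWdef
  obtain ⟨A', hA', hAA', hA'1, hWA'⟩ := exists_adm_ball himm hA
    (fun a ha => (hV a).1 (hAV a ha)) hAf W (by
      intro w hw
      rw [hWdef, Finset.mem_union, Finset.mem_image, Finset.mem_image] at hw
      rcases hw with ⟨x, hx, rfl⟩ | ⟨x, hx, rfl⟩
      · exact (hcu x hx).2.1.le
      · rw [norm_inv, (hcu x hx).2.1, inv_one])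
  have hA'f : IsFractionRing A' L := by
    refine isFractionRing_of_le (R := L) (K := L) hAA'.1 fun w => ?_
    obtain ⟨⟨a, b⟩, hab⟩ := IsLocalization.surj (M := nonZeroDivisors A) w
    exact ⟨a, a.2, (b : A), (b : A).2, fun h0 => nonZeroDivisors.ne_zero b.2 (Subtype.ext h0), hab⟩
  obtain ⟨n, f, hf, hf0, hfc, hB1, hBs⟩ := h A' hA' hA'1 hA'f
  obtain ⟨ϖ₀, hϖ₀, hϖ₀1⟩ := NormedField.exists_norm_lt_one k
  set ϖ : O k := ⟨ϖ₀, mem_O.2 hϖ₀1.le⟩ with hϖ
  have hϖ0 : ϖ ≠ 0 := fun h0 => (norm_pos_iff.1 hϖ₀) (congrArg Subtype.val h0)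
  obtain ⟨φ, hφ, hφx⟩ := exists_phi_zero _ hBs ϖ
  refine ⟨_, hA'.sup (Subalgebra.fg_def.2 ⟨_, Set.finite_range _, rfl⟩),
    hAA'.trans (adm_of_blowup hf hf0 hfc), fun b hb => (hV b).2 (hB1 b hb), ϖ, hϖ0, hϖ₀1, φ, hφ,
    fun i => ?_, fun x hx => ?_⟩
  · rw [hφx]
    by_contra h
    rw [not_lt] at h
    have h3 : algebraMap k L (ϖ : k) ≠ 0 := (map_ne_zero _).2 (norm_pos_iff.1 hϖ₀)
    have h4 : V.valuation (algebraMap k L (ϖ : k))⁻¹ ≤ 1 := by
      rw [map_inv₀]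
      exact inv_le_one_of_one_le₀ h
    have h5 := (hV _).1 ((V.valuation_le_one_iff _).1 h4)
    rw [norm_inv, norm_algebraMap'] at h5
    have h7 := (inv_le_one₀ hϖ₀).1 h5
    linarith
  · obtain ⟨hc0, hu1, hxu⟩ := hcu x hx
    have hu0 : u x ≠ 0 := norm_pos_iff.1 (by rw [hu1]; exact one_pos)
    have hle : A' ≤ A' ⊔ Algebra.adjoin (O k) (Set.range fun i => f i / f 0) := le_sup_left
    refine ⟨fun _ => 0, fun _ => 0, c x, u x, (u x)⁻¹, hc0, hle (hWA' _ ?_), hle (hWA' _ ?_),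
      mul_inv_cancel₀ hu0, ?_⟩
    · exact Finset.mem_union_left _ (Finset.mem_image_of_mem _ hx)
    · exact Finset.mem_union_right _ (Finset.mem_image_of_mem (fun x => (u x)⁻¹) hx)
    · simp only [pow_zero, Finset.prod_const_one, mul_one]
      exact hxu

end DS
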