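import Pool.Agent.Lib.DS.Lo

/-!
# Module Co: etale coordinates of a smooth chart
-/

namespace DS

open MP1a953e DA

/-- Co.  Proof.  `B` is an algebra over `S = SS d ϖ` by `φ`, smooth, so it is finitely presented and smooth at
`q`: `Algebra.IsSmoothAt.exists_isStandardEtale_mvPolynomial` (Mathlib) gives `b ∉ q`, `n` and an algebra
structure of `B[1/b]` over `MvPolynomial (Fin n) S`, compatible with the one over `S`, which is (standard)
etale. Transport it by the isomorphism of `Localization.Away b` with `adj1 B b⁻¹` (`loc_adj1`;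
`b ≠ 0`). The homomorphism is `O k`-linear, because `S → B` is. -/
theorem exists_coord {k L : Type*} [NormedField k] [IsUltrametricDist k] [Field L] [Algebra k L]
    {B : Subalgebra (O k) L} {d : ℕ} {ϖ : O k} (φ : SS d ϖ →ₐ[O k] B)
    (hsm : φ.toRingHom.Smooth) (q : Ideal B) [q.IsPrime] :
    ∃ b : B, b ∉ q ∧ ∃ (n : ℕ) (ψ : QQ d n ϖ →ₐ[O k] ↥(adj1 B (b : L)⁻¹)),
      ψ.toRingHom.Etale ∧ ∀ x, (ψ (MvPolynomial.C x) : L) = φ x := by
  let _ : Algebra (SS d ϖ) B := φ.toRingHom.toAlgebra
  have hsm' : Algebra.Smooth (SS d ϖ) B := hsm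
  have : Algebra.FinitePresentation (SS d ϖ) B := hsm'.finitePresentation
  have : Algebra.FormallySmooth (SS d ϖ) B := hsm'.formallySmooth
  have : Algebra.IsSmoothAt (SS d ϖ) q := by
    infer_instance
  obtain ⟨b, hb, n, alg, tow, hE⟩ :=
    Algebra.IsSmoothAt.exists_isStandardEtale_mvPolynomial (R := SS d ϖ) (S := B) (p := q)
  have hb0 : (b : L) ≠ 0 := by
    intro h
    apply hb
    have : b = 0 := Subtype.ext h
    rw [this]
    exact q.zero_mem
  have hmul : (b : L) * (b : L)⁻¹ = 1 := mul_inv_cancel₀ hb0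
  let algB : Algebra B ↥(adj1 B (b : L)⁻¹) :=
    (Subalgebra.inclusion (le_adj1 B (b : L)⁻¹)).toRingHom.toAlgebra
  have hloc : IsLocalization.Away b ↥(adj1 B (b : L)⁻¹) := loc_adj1 B b hmul
  let e : Localization.Away b ≃ₐ[B] ↥(adj1 B (b : L)⁻¹) :=
    IsLocalization.algEquiv (Submonoid.powers b) _ _
  have hC : ∀ x : SS d ϖ, e (algebraMap (QQ d n ϖ) (Localization.Away b) (MvPolynomial.C x)) =
      algebraMap B ↥(adj1 B (b : L)⁻¹) (φ x) := by
    intro x
    have h1 : algebraMap (QQ d n ϖ) (Localization.Away b) (MvPolynomial.C x) =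
        algebraMap B (Localization.Away b) (φ x) := by
      have h2 : algebraMap (SS d ϖ) (Localization.Away b) x =
          algebraMap (QQ d n ϖ) (Localization.Away b) (algebraMap (SS d ϖ) (QQ d n ϖ) x) :=
        IsScalarTower.algebraMap_apply _ _ _ x
      have h3 : algebraMap (SS d ϖ) (Localization.Away b) x =
          algebraMap B (Localization.Away b) (algebraMap (SS d ϖ) B x) :=
        IsScalarTower.algebraMap_apply _ _ _ x
      exact h2.symm.trans h3
    rw [h1]
    exact e.commutes (φ x)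
  let ψ0 : QQ d n ϖ →+* ↥(adj1 B (b : L)⁻¹) :=
    e.toRingEquiv.toRingHom.comp (algebraMap (QQ d n ϖ) (Localization.Away b))
  let ψ : QQ d n ϖ →ₐ[O k] ↥(adj1 B (b : L)⁻¹) :=
    { ψ0 with
      commutes' := fun a => by
        have h1 : algebraMap (O k) (QQ d n ϖ) a =
          MvPolynomial.C (algebraMap (O k) (SS d ϖ) a) := rfl
        have h2 : ψ0 (algebraMap (O k) (QQ d n ϖ) a) =
            algebraMap B ↥(adj1 B (b : L)⁻¹) (φ (algebraMap (O k) (SS d ϖ) a)) := by
          rw [h1]
          exact hC _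
        have h3 : φ (algebraMap (O k) (SS d ϖ) a) = algebraMap (O k) B a := φ.commutes a
        rw [h3] at h2
        exact h2 }
  refine ⟨b, hb, n, ψ, ?_, ?_⟩
  · have h1 : Algebra.Etale (QQ d n ϖ) (Localization.Away b) := by
      infer_instance
    let _ : Algebra (QQ d n ϖ) ↥(adj1 B (b : L)⁻¹) := ψ0.toAlgebra
    let e' : Localization.Away b ≃ₐ[QQ d n ϖ] ↥(adj1 B (b : L)⁻¹) :=
      { e.toRingEquiv with commutes' := fun r => rfl }
    exact Algebra.Etale.of_equiv e'
  · intro x
    have := hC x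
    have h4 : ψ (MvPolynomial.C x) = algebraMap B ↥(adj1 B (b : L)⁻¹) (φ x) := this
    rw [h4]
    rfl

end DS
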