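import Pool.Agent.Lib.DS.Lo

/-!
# Module Et: unramified extensions of normal domains are etale
-/

namespace DS

open MP1a953e DA

private theorem et_unram {P D : Type*} [CommRing P] [CommRing D] [Algebra P D]
    (q : Ideal D) [q.IsPrime] {r : D} (hr : r ∉ q)
    (hun : Algebra.FormallyUnramified P (Localization.Away r)) :
    Algebra.IsUnramifiedAt P q := by
  have hunit : IsUnit (algebraMap D (Localization.AtPrime q) r) :=
    IsLocalization.map_units (Localization.AtPrime q) (⟨r, hr⟩ : q.primeCompl)
  letI : Algebra (Localization.Away r) (Localization.AtPrime q) :=
    (IsLocalization.Away.lift (S := Localization.Away r) r hunit).toAlgebra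
  haveI : IsScalarTower D (Localization.Away r) (Localization.AtPrime q) :=
    IsScalarTower.of_algebraMap_eq (fun x => (IsLocalization.Away.lift_eq r hunit x).symm)
  haveI : IsScalarTower P (Localization.Away r) (Localization.AtPrime q) := by
    apply IsScalarTower.of_algebraMap_eq
    intro x
    rw [IsScalarTower.algebraMap_apply P D (Localization.AtPrime q),
      IsScalarTower.algebraMap_apply P D (Localization.Away r),
      IsScalarTower.algebraMap_apply D (Localization.Away r) (Localization.AtPrime q)]
  haveI h1 : Algebra.FormallyUnramified D (Localization.AtPrime q) :=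
    Algebra.FormallyUnramified.of_isLocalization q.primeCompl
  haveI h2 : Algebra.FormallyUnramified (Localization.Away r) (Localization.AtPrime q) :=
    Algebra.FormallyUnramified.of_restrictScalars D _ _
  exact Algebra.FormallyUnramified.comp P (Localization.Away r) (Localization.AtPrime q)

private theorem et_mul {P D : Type*} [CommRing P] [CommRing D] [Algebra P D]
    (b β : D) (h : Algebra.Etale P (Localization.Away b)) :
    Algebra.Etale P (Localization.Away (b * β)) := by
  have hunit : IsUnit (algebraMap D (Localization.Away (b * β)) b) := by
    have h1 : IsUnit (algebraMap D (Localization.Away (b * β)) (b * β)) :=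
      IsLocalization.Away.algebraMap_isUnit (b * β)
    rw [map_mul] at h1
    exact isUnit_of_mul_isUnit_left h1
  letI : Algebra (Localization.Away b) (Localization.Away (b * β)) :=
    (IsLocalization.Away.lift (S := Localization.Away b) b hunit).toAlgebra
  haveI : IsScalarTower D (Localization.Away b) (Localization.Away (b * β)) :=
    IsScalarTower.of_algebraMap_eq (fun x => (IsLocalization.Away.lift_eq b hunit x).symm)
  haveI : IsScalarTower P (Localization.Away b) (Localization.Away (b * β)) := by
    apply IsScalarTower.of_algebraMap_eq
    intro x
    rw [IsScalarTower.algebraMap_apply P D (Localization.Away (b * β)),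
      IsScalarTower.algebraMap_apply P D (Localization.Away b),
      IsScalarTower.algebraMap_apply D (Localization.Away b) (Localization.Away (b * β))]
  haveI h1 : Algebra.Etale D (Localization.Away b) :=
    Algebra.Etale.of_isLocalizationAway b
  haveI h3 : Algebra.Etale D (Localization.Away (b * β)) :=
    Algebra.Etale.of_isLocalizationAway (b * β)
  haveI h2 : Algebra.Etale (Localization.Away b) (Localization.Away (b * β)) :=
    Algebra.Etale.of_restrictScalars D _ _
  exact Algebra.Etale.comp P (Localization.Away b) (Localization.Away (b * β))

/-- Et.  Proof.  `D` is an algebra over `P` by `f`. `Localization.AtPrime q` is a localization of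
`Localization.Away r` (`r ∉ q`), so `D` is unramified over `P` at `q`; `exists_etale` (module DA/E1)
gives `b ∉ q` with `Localization.Away b` etale over `P`. `Localization.Away (b * β)` is a localization of
`Localization.Away b`, so it is etale over `P`. -/
theorem exists_etale2 {P D : Type*} [CommRing P] [IsDomain P] [IsIntegrallyClosed P]
    [CommRing D] [IsDomain D] (f : P →+* D) (hinj : Function.Injective f) (hft : f.FiniteType)
    (halg : ∀ x : D, ∃ p : Polynomial P, p ≠ 0 ∧ p.eval₂ f x = 0) (q : Ideal D) [q.IsPrime]
    {r : D} (hr : r ∉ q)
    (hun : ((algebraMap D (Localization.Away r)).comp f).FormallyUnramified) :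
    ∃ b ∉ q, ∀ β : D, ((algebraMap D (Localization.Away (b * β))).comp f).Etale := by
  letI : Algebra P D := f.toAlgebra
  haveI : FaithfulSMul P D := (faithfulSMul_iff_algebraMap_injective P D).2 hinj
  haveI : Algebra.FiniteType P D := hft
  haveI : Algebra.IsAlgebraic P D := ⟨fun x => by
    obtain ⟨p, hp, hx⟩ := halg x
    exact ⟨p, hp, hx⟩⟩
  have e1 : ∀ c : D, (algebraMap D (Localization.Away c)).comp f =
      algebraMap P (Localization.Away c) := fun c =>
    (IsScalarTower.algebraMap_eq P D (Localization.Away c)).symm
  have hun' : Algebra.FormallyUnramified P (Localization.Away r) := by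
    rw [e1, RingHom.formallyUnramified_algebraMap] at hun
    exact hun
  obtain ⟨b, hb, hE⟩ := exists_etale q (et_unram q hr hun')
  refine ⟨b, hb, fun β => ?_⟩
  rw [e1, RingHom.etale_algebraMap]
  exact et_mul b β hE

end DS
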