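import Pool.Agent.Lib.DS.Defs

/-!
# Module Fg: fraction fields of the models
-/

namespace DS

open MP1a953e DA

section
variable {k R K : Type*} [NormedField k] [IsUltrametricDist k] [CommRing R] [IsDomain R]
  [Algebra k R] [Field K] [Algebra k K] [Algebra R K] [IsScalarTower k R K] [IsFractionRing R K]

/-- Fg1.  The images in `K` of generators of the `O k`-algebra `A` generate `K` over `k`. -/
theorem fg_of_frac {A : Subalgebra (O k) R} (hA : A.FG)
    (hfrac : ∀ x : R, ∃ n ∈ A, ∃ s ∈ A, s ≠ 0 ∧ x * s = n) :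
    (⊤ : IntermediateField k K).FG := by
  classical
  obtain ⟨t, ht⟩ := hA
  have hinj : Function.Injective (algebraMap R K) := IsFractionRing.injective R K
  refine ⟨t.image (algebraMap R K), ?_⟩
  rw [eq_top_iff]
  set F : IntermediateField k K :=
    IntermediateField.adjoin k ((t.image (algebraMap R K) : Finset K) : Set K) with hF
  have hAF : ∀ a ∈ A, algebraMap R K a ∈ F := by
    intro a ha
    rw [← ht] at ha
    induction ha using Algebra.adjoin_induction with
    | mem x hx =>
      apply IntermediateField.subset_adjoin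
      rw [Finset.coe_image]
      exact Set.mem_image_of_mem _ hx
    | algebraMap r =>
      have h1 : algebraMap R K (algebraMap (O k) R r) = algebraMap k K (r : k) := by
        rw [IsScalarTower.algebraMap_apply k R K]
        rfl
      rw [h1]
      exact F.algebraMap_mem _
    | add x y _ _ hx hy =>
      rw [map_add]
      exact F.add_mem hx hy
    | mul x y _ _ hx hy =>
      rw [map_mul]
      exact F.mul_mem hx hy
  have hRF : ∀ x : R, algebraMap R K x ∈ F := by
    intro x
    obtain ⟨n, hn, s, hs, hs0, hxs⟩ := hfrac x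
    have h1 : algebraMap R K s ≠ 0 := by
      rw [Ne, map_eq_zero_iff _ hinj]
      exact hs0
    have h2 : algebraMap R K x = algebraMap R K n / algebraMap R K s := by
      rw [eq_div_iff h1, ← map_mul, hxs]
    rw [h2]
    exact F.div_mem (hAF n hn) (hAF s hs)
  intro z _
  obtain ⟨a, b, _, rfl⟩ := IsFractionRing.div_surjective (A := R) z
  exact F.div_mem (hRF a) (hRF b)

/-- Fg2.  `K` is the fraction field of every subalgebra `D ≥ A` of `R`. -/
theorem isFractionRing_of_le {A D : Subalgebra (O k) R} (hAD : A ≤ D)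
    (hfrac : ∀ x : R, ∃ n ∈ A, ∃ s ∈ A, s ≠ 0 ∧ x * s = n) : IsFractionRing D K := by
  have hinj : Function.Injective (algebraMap R K) := IsFractionRing.injective R K
  have hinjD : Function.Injective (algebraMap D K) := by
    intro x y hxy
    exact Subtype.ext (hinj hxy)
  haveI : FaithfulSMul D K := (faithfulSMul_iff_algebraMap_injective D K).2 hinjD
  apply IsFractionRing.of_field
  intro z
  obtain ⟨a, b, hb, rfl⟩ := IsFractionRing.div_surjective (A := R) z
  obtain ⟨n₁, hn₁, s₁, hs₁, hs₁0, h₁⟩ := hfrac a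
  obtain ⟨n₂, hn₂, s₂, hs₂, hs₂0, h₂⟩ := hfrac b
  refine ⟨⟨n₁ * s₂, D.mul_mem (hAD hn₁) (hAD hs₂)⟩, ⟨n₂ * s₁, D.mul_mem (hAD hn₂) (hAD hs₁)⟩, ?_⟩
  have e1 : algebraMap D K ⟨n₁ * s₂, D.mul_mem (hAD hn₁) (hAD hs₂)⟩ =
      algebraMap R K (n₁ * s₂) := rfl
  have e2 : algebraMap D K ⟨n₂ * s₁, D.mul_mem (hAD hn₂) (hAD hs₁)⟩ =
      algebraMap R K (n₂ * s₁) := rfl
  have hb0 : b ≠ 0 := nonZeroDivisors.ne_zero hb
  have hb1 : algebraMap R K b ≠ 0 := by
    rw [Ne, map_eq_zero_iff _ hinj]
    exact hb0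
  have hden : algebraMap R K (n₂ * s₁) ≠ 0 := by
    rw [Ne, map_eq_zero_iff _ hinj, ← h₂]
    exact mul_ne_zero (mul_ne_zero hb0 hs₂0) hs₁0
  rw [e1, e2, div_eq_div_iff hb1 hden, ← map_mul, ← map_mul, ← h₁, ← h₂]
  congr 1
  ring

end

end DS
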