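import Pool.Agent.Lib.DS.N4

/-!
# Module Fr: the fraction field of the polynomial ring over the semistable model
-/

namespace DS

open MP1a953e DA

section
variable {k F : Type*} [NormedField k] [IsUltrametricDist k] [Field F] [Algebra k F]

private theorem map_const {d : ℕ} {σ : Type*} {ϖ : O k} (f : MvPolynomial σ (SS d ϖ) →ₐ[O k] F)
    (c : O k) : f (algebraMap (O k) _ c) = algebraMap k F (c : k) :=
  f.commutes c

/-- Fr1.  Proof.  The set of all fractions `f a / f b`, `f b ≠ 0`, is a subfield of `F`; it contains `k` (every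
constant is a quotient of constants of `O k`, `exists_scale`-like) and the family `fam f`. (Compare
`e3_frac` in an earlier version of module DA/E3; use `IntermediateField.adjoin_toSubfield` and
`Subfield.closure_le` or an explicit subfield.) -/
theorem exists_frac {d : ℕ} {σ : Type*} {ϖ : O k} (f : MvPolynomial σ (SS d ϖ) →ₐ[O k] F) {x : F}
    (hx : x ∈ IntermediateField.adjoin k (Set.range (fam f))) :
    ∃ a b, f b ≠ 0 ∧ x * f b = f a := by
  induction hx using IntermediateField.adjoin_induction with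
  | mem x hx =>
    obtain ⟨j, rfl⟩ := hx
    cases j with
    | inl j => exact ⟨MvPolynomial.C (SS.x j.succ), 1, by simp, by simp [fam]⟩
    | inr s => exact ⟨MvPolynomial.X s, 1, by simp, by simp [fam]⟩
  | algebraMap c =>
    by_cases hc : ‖c‖ ≤ 1
    · refine ⟨algebraMap (O k) _ (⟨c, mem_O.2 hc⟩ : O k), 1, by simp, ?_⟩
      rw [map_one, mul_one, map_const]
    · have hc0 : c ≠ 0 := by
        rintro rfl
        exact hc (by simp)
      have hc1 : ‖c⁻¹‖ ≤ 1 := by
        rw [norm_inv]
        exact inv_le_one_of_one_le₀ (le_of_lt (not_le.1 hc))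
      refine ⟨1, algebraMap (O k) _ (⟨c⁻¹, mem_O.2 hc1⟩ : O k), ?_, ?_⟩
      · rw [map_const]
        exact (map_ne_zero_iff _ (algebraMap k F).injective).2 (inv_ne_zero hc0)
      · rw [map_const, map_one, ← map_mul]
        change algebraMap k F (c * c⁻¹) = 1
        rw [mul_inv_cancel₀ hc0, map_one]
  | add x y _ _ hx hy =>
    obtain ⟨a, b, hb, h1⟩ := hx
    obtain ⟨a', b', hb', h2⟩ := hy
    refine ⟨a * b' + a' * b, b * b', ?_, ?_⟩
    · rw [map_mul]
      exact mul_ne_zero hb hb'
    · rw [map_mul, map_add, map_mul, map_mul, ← h1, ← h2]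
      ring
  | inv x _ hx =>
    obtain ⟨a, b, hb, h1⟩ := hx
    by_cases hx0 : x = 0
    · exact ⟨0, 1, by simp, by simp [hx0]⟩
    · refine ⟨b, a, ?_, ?_⟩
      · rw [← h1]
        exact mul_ne_zero hx0 hb
      · rw [← h1, ← mul_assoc, inv_mul_cancel₀ hx0, one_mul]
  | mul x y _ _ hx hy =>
    obtain ⟨a, b, hb, h1⟩ := hx
    obtain ⟨a', b', hb', h2⟩ := hy
    refine ⟨a * a', b * b', ?_, ?_⟩
    · rw [map_mul]
      exact mul_ne_zero hb hb'
    · rw [map_mul, map_mul, ← h1, ← h2]
      ring

/-- Fr2.  `f` has values in the field generated by `fam f` (`x 0 = ϖ / ∏ x (j+1)`, where the `x (j+1)` are not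
mapped to `0`, because their product with `x 0` is `ϖ ≠ 0`). -/
theorem mem_adjoin_fam {d : ℕ} {σ : Type*} {ϖ : O k} (hϖ : ϖ ≠ 0)
    (f : MvPolynomial σ (SS d ϖ) →ₐ[O k] F) (x : MvPolynomial σ (SS d ϖ)) :
    f x ∈ IntermediateField.adjoin k (Set.range (fam f)) := by
  have hs : ∀ j, fam f j ∈ IntermediateField.adjoin k (Set.range (fam f)) := fun j =>
    IntermediateField.subset_adjoin _ _ ⟨j, rfl⟩
  have hsucc : ∀ j : Fin d, f (MvPolynomial.C (SS.x j.succ)) ∈
      IntermediateField.adjoin k (Set.range (fam f)) := fun j => hs (Sum.inl j)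
  have hprod : f (MvPolynomial.C (SS.x 0)) * ∏ j : Fin d, f (MvPolynomial.C (SS.x j.succ)) =
      algebraMap k F (ϖ : k) := by
    rw [← map_const f ϖ, ← map_prod, ← map_prod, ← map_mul, ← map_mul, ← Fin.prod_univ_succ,
      SS.prod_x]
    rfl
  have h0 : f (MvPolynomial.C (SS.x 0)) ∈ IntermediateField.adjoin k (Set.range (fam f)) := by
    have hne : algebraMap k F (ϖ : k) ≠ 0 :=
      (map_ne_zero_iff _ (algebraMap k F).injective).2 (fun h => hϖ (Subtype.ext h))
    have hP : ∏ j : Fin d, f (MvPolynomial.C (SS.x j.succ)) ≠ 0 := by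
      intro h
      rw [h, mul_zero] at hprod
      exact hne hprod.symm
    rw [← eq_div_iff hP] at hprod
    rw [hprod]
    exact div_mem (IntermediateField.algebraMap_mem _ _) (prod_mem fun j _ => hsucc j)
  have hC : ∀ a : SS d ϖ, f (MvPolynomial.C a) ∈
      IntermediateField.adjoin k (Set.range (fam f)) := by
    intro a
    obtain ⟨y, rfl⟩ := SS.mk_surjective d ϖ a
    induction y using MvPolynomial.induction_on with
    | C c =>
      have h1 : SS.mk d ϖ (MvPolynomial.C c) = algebraMap (O k) (SS d ϖ) c :=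
        (SS.mk d ϖ).commutes c
      have h2 : (MvPolynomial.C (SS.mk d ϖ (MvPolynomial.C c)) : MvPolynomial σ (SS d ϖ)) =
          algebraMap (O k) _ c := by
        rw [h1]
        rfl
      rw [h2, map_const]
      exact IntermediateField.algebraMap_mem _ _
    | add p q hp hq =>
      rw [map_add, map_add, map_add]
      exact add_mem hp hq
    | mul_X p i hp =>
      rw [map_mul, map_mul, map_mul, SS.mk_X]
      refine mul_mem hp ?_
      refine Fin.cases h0 (fun j => hsucc j) i
  induction x using MvPolynomial.induction_on with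
  | C a => exact hC a
  | add p q hp hq =>
    rw [map_add]
    exact add_mem hp hq
  | mul_X p i hp =>
    rw [map_mul]
    exact mul_mem hp (hs (Sum.inr i))

private theorem common_denom {d : ℕ} {σ : Type*} {ϖ : O k}
    (f : MvPolynomial σ (SS d ϖ) →ₐ[O k] F) (c : ℕ → F)
    (hc : ∀ i, c i ∈ IntermediateField.adjoin k (Set.range (fam f))) (S : Finset ℕ) :
    ∃ b, f b ≠ 0 ∧ ∀ i ∈ S, ∃ a, c i * f b = f a := by
  classical
  induction S using Finset.induction_on with
  | empty => exact ⟨1, by simp, by simp⟩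
  | insert i S _ ih =>
    obtain ⟨b, hb, h⟩ := ih
    obtain ⟨a', b', hb', h'⟩ := exists_frac f (hc i)
    refine ⟨b * b', ?_, ?_⟩
    · rw [map_mul]
      exact mul_ne_zero hb hb'
    · intro j hj
      rcases Finset.mem_insert.1 hj with rfl | hj
      · refine ⟨a' * b, ?_⟩
        rw [map_mul, map_mul, ← h']
        ring
      · obtain ⟨a, ha⟩ := h j hj
        refine ⟨a * b', ?_⟩
        rw [map_mul, map_mul, ← ha]
        ring

/-- Fr3.  Proof.  Let `P ≠ 0` be a polynomial over `k(fam f)` with `P(x) = 0`; multiply its coefficients with a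
common denominator `f b` (`exists_frac`): then they are `f (a i)`. -/
theorem exists_poly {d : ℕ} {σ : Type*} {ϖ : O k} (f : MvPolynomial σ (SS d ϖ) →ₐ[O k] F) {x : F}
    (hx : IsAlgebraic (IntermediateField.adjoin k (Set.range (fam f))) x) :
    ∃ p : Polynomial (MvPolynomial σ (SS d ϖ)), p ≠ 0 ∧ p.eval₂ f.toRingHom x = 0 := by
  classical
  obtain ⟨P, hP, hPx⟩ := hx
  obtain ⟨b, hb, h⟩ := common_denom f (fun i => (P.coeff i : F)) (fun i => (P.coeff i).2)
    P.support
  choose! a ha using h
  refine ⟨∑ i ∈ P.support, Polynomial.monomial i (a i), ?_, ?_⟩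
  · intro h0
    obtain ⟨i, hi⟩ := Polynomial.nonempty_support_iff.2 hP
    have h1 := congrArg (fun q => Polynomial.coeff q i) h0
    simp only [Polynomial.finsetSum_coeff, Polynomial.coeff_monomial, Polynomial.coeff_zero] at h1
    rw [Finset.sum_ite_eq' P.support i, if_pos hi] at h1
    have h2 := ha i hi
    rw [h1, map_zero, mul_eq_zero] at h2
    rcases h2 with h2 | h2
    · exact Polynomial.mem_support_iff.1 hi (Subtype.ext h2)
    · exact hb h2
  · rw [Polynomial.eval₂_finsetSum]
    have h3 : ∀ i ∈ P.support, (Polynomial.monomial i (a i)).eval₂ f.toRingHom x =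
        f b * ((P.coeff i : F) * x ^ i) := by
      intro i hi
      rw [Polynomial.eval₂_monomial]
      change f (a i) * x ^ i = _
      rw [← ha i hi]
      ring
    rw [Finset.sum_congr rfl h3, ← Finset.mul_sum]
    have h4 : ∑ i ∈ P.support, ((P.coeff i : F) * x ^ i) = 0 := by
      rw [← hPx, Polynomial.aeval_def, Polynomial.eval₂_eq_sum]
      rfl
    rw [h4, mul_zero]

end

end DS
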