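import Pool.Agent.Lib.DS.Ad1

/-!
# Module Li1: lifting a chart
-/

namespace DS

open MP1a953e DA

private theorem li1_fg {k R : Type*} [NormedField k] [IsUltrametricDist k] [CommRing R]
    [Algebra k R] {D : Subalgebra (O k) R} (hD : D.FG) (W : Set R) (hW : W.Finite) (y : R) :
    (Algebra.adjoin (O k) ((D : Set R) ∪ W ∪ {y})).FG := by
  obtain ⟨G, hG⟩ := hD
  have h1 : Algebra.adjoin (O k) ((D : Set R) ∪ W ∪ {y}) =
      Algebra.adjoin (O k) ((G : Set R) ∪ W ∪ {y}) := by
    rw [← hG]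
    apply le_antisymm
    · apply Algebra.adjoin_le
      rintro x ((hx | hx) | hx)
      · exact Algebra.adjoin_mono (fun a ha => Or.inl (Or.inl ha)) hx
      · exact Algebra.subset_adjoin (Or.inl (Or.inr hx))
      · exact Algebra.subset_adjoin (Or.inr hx)
    · apply Algebra.adjoin_mono
      rintro x ((hx | hx) | hx)
      · exact Or.inl (Or.inl (Algebra.subset_adjoin hx))
      · exact Or.inl (Or.inr hx)
      · exact Or.inr hx
  rw [h1]
  have hfin : ((G : Set R) ∪ W ∪ {y}).Finite :=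
    ((G.finite_toSet.union hW).union (Set.finite_singleton y))
  exact Subalgebra.fg_def.2 ⟨_, hfin, rfl⟩

private theorem li1_algebraMap {k R : Type*} [NormedField k] [IsUltrametricDist k] [CommRing R]
    [Algebra k R] (a : O k) : algebraMap (O k) R a = algebraMap k R (a : k) := rfl

private theorem li1_step {k R L : Type*} [NormedField k] [IsUltrametricDist k] [CommRing R]
    [Algebra k R] [Field L] [Algebra k L] {π : R →ₐ[k] L}
    {A D : Subalgebra (O k) R} (hD : D.FG) (hAD : Adm A D) {B : Subalgebra (O k) L}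
    (him : im π D ≤ B) {s S : R} (hs : s ∈ D) {b : O k} (hb : b ≠ 0)
    (hsS : s * S = algebraMap (O k) R b) (hS : π S ∈ B) {W : Set R} (hWf : W.Finite)
    (hW : ∀ w ∈ W, w * s ∈ D) (hWB : ∀ w ∈ W, π w ∈ B) :
    ∃ D' : Subalgebra (O k) R, D'.FG ∧ Adm A D' ∧ im π D' ≤ B ∧ D ≤ D' ∧ W ⊆ D' ∧ S ∈ D' := by
  refine ⟨Algebra.adjoin (O k) ((D : Set R) ∪ W ∪ {S}), li1_fg hD W hWf S,
    hAD.trans (Adm.adjoin hs hb hsS hW), ?_, ?_, ?_, ?_⟩
  · rintro _ ⟨x, hx, rfl⟩
    have h1 : Algebra.adjoin (O k) ((D : Set R) ∪ W ∪ {S}) ≤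
        B.comap (π.restrictScalars (O k)) := by
      apply Algebra.adjoin_le
      rintro x ((hx | hx) | hx)
      · exact him ⟨x, hx, rfl⟩
      · exact hWB x hx
      · rw [Set.mem_singleton_iff] at hx
        subst hx
        exact hS
    exact h1 hx
  · exact fun x hx => Algebra.subset_adjoin (Or.inl (Or.inl hx))
  · exact fun x hx => Algebra.subset_adjoin (Or.inl (Or.inr hx))
  · exact Algebra.subset_adjoin (Or.inr rfl)

/-- inverse of a lift of a nonzero element, scaled by a constant of `O k` -/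
private theorem li1_inv {k R L : Type*} [NormedField k] [IsUltrametricDist k] [CommRing R]
    [Algebra k R] [Field L] [Algebra k L] {π : R →ₐ[k] L} (hπ : Res π) {s : R} {t : L} {c : k}
    (hc : c ≠ 0) (hst : π s * t = algebraMap k L c) :
    ∃ S : R, ∃ a b : O k, a ≠ 0 ∧ b ≠ 0 ∧ s * S = algebraMap (O k) R b ∧ π S = (a : k) • t ∧
      ∃ u : R, u * s = 1 := by
  have h0 : π s ≠ 0 := by
    intro h
    rw [h, zero_mul] at hst
    exact hc ((algebraMap k L).injective (by rw [map_zero]; exact hst.symm))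
  obtain ⟨u, hu⟩ := (hπ.unit s h0).exists_left_inv
  obtain ⟨a, b, ha, hab⟩ := exists_scale c
  have hb : b ≠ 0 := by
    intro h
    rw [h] at hab
    rcases mul_eq_zero.1 (hab.trans (by simp)) with h1 | h1
    · exact ha (by exact_mod_cast h1)
    · exact hc h1
  refine ⟨u * algebraMap (O k) R b, a, b, ha, hb, ?_, ?_, u, hu⟩
  · rw [← mul_assoc, mul_comm s u, hu, one_mul]
  · have h1 : π s * π u = 1 := by rw [← map_mul, mul_comm, hu, map_one]
    have h2 : π (algebraMap (O k) R b) = algebraMap k L b := by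
      rw [li1_algebraMap]
      exact π.commutes _
    rw [map_mul, h2, ← hab, map_mul, ← hst, Algebra.smul_def]
    linear_combination (algebraMap k L a) * t * h1

private theorem li1_gens {k R L : Type*} [NormedField k] [IsUltrametricDist k] [CommRing R]
    [Algebra k R] [Field L] [Algebra k L] {π : R →ₐ[k] L} (hπ : Res π)
    {A : Subalgebra (O k) R} (hA : A.FG) {B : Subalgebra (O k) L} (hB : Adm (im π A) B)
    (J : Finset L) (hJ : (J : Set L) ⊆ B) :
    ∃ D : Subalgebra (O k) R, D.FG ∧ Adm A D ∧ im π D ≤ B ∧ (J : Set L) ⊆ im π D := by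
  classical
  induction J using Finset.induction_on with
  | empty =>
    refine ⟨A, hA, Adm.refl A, hB.1, ?_⟩
    simp
  | insert y J _ ih =>
    obtain ⟨D, h1, h2, h3, h4⟩ := ih (fun x hx => hJ (Finset.mem_insert_of_mem hx))
    obtain ⟨_, ⟨n, hn, rfl⟩, _, ⟨s, hs, rfl⟩, t, ht, c, hc, hst, hys⟩ :=
      hB.2 y (hJ (Finset.mem_insert_self y J))
    change π s * t = algebraMap k L c at hst
    change y * π s = π n at hys
    obtain ⟨S, a, b, ha, hb, hsS, hS, u, hu⟩ := li1_inv hπ hc hst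
    have hY : π (n * u) = y := by
      have h5 : π u * π s = 1 := by rw [← map_mul, hu, map_one]
      rw [map_mul, ← hys]
      linear_combination y * h5
    obtain ⟨D', g1, g2, g3, g4, g5, g6⟩ := li1_step h1 h2 h3 (h2.1 hs) hb hsS
      (by
        rw [hS]
        exact B.smul_mem ht a) (W := {n * u}) (Set.finite_singleton _)
      (by
        intro w hw
        rw [Set.mem_singleton_iff] at hw
        subst hw
        rw [mul_assoc, hu, mul_one]
        exact h2.1 hn)
      (by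
        intro w hw
        rw [Set.mem_singleton_iff] at hw
        subst hw
        rw [hY]
        exact hJ (Finset.mem_insert_self y J))
    refine ⟨D', g1, g2, g3, ?_⟩
    intro x hx
    rcases Finset.mem_insert.1 hx with rfl | hx
    · exact ⟨n * u, g5 rfl, hY⟩
    · obtain ⟨z, hz, rfl⟩ := h4 hx
      exact ⟨z, g4 hz, rfl⟩

/-- Li1.  Proof.  `π` is surjective and elements with `π x ≠ 0` are units. Let `y j` (`j ∈ J`, finite) generate the
`O k`-algebra `B`; `y j * π (s j) = π (n j)`, `π (s j) * t j = c j ≠ 0`, `n j, s j ∈ A`, `t j ∈ B`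
(`hB`). So `s j` is a unit of `R`; let `Y j = n j / s j`, `S j = c j / s j`; `π (Y j) = y j`,
`π (S j) = t j`. Similarly `H = c / h` with `π H = s`. After multiplying the `c`s with constants of `O k` we may
assume that they are in `O k` (`exists_scale`). `D₀ = A[Y j, S j, H]`: `im π D₀ = B`, and `Adm A D₀` by
`Adm.adjoin` with `y = h * ∏ s j`, `y' = H * ∏ S j` and `W` the generators.
Let `x̄ i = ψ (C (SS.x i))`, `∏ x̄ i = ϖ ≠ 0`, and `x i ∈ D₀` lifts of `x̄ i` for `i ≥ 1`; they are units of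
`R`; `y = ∏_{i ≥ 1} x i`, `x 0 = ϖ / y`, so `π (x 0) = x̄ 0 ∈ B`. Let `D` be the algebra generated by `D₀` and
`x 0`: `Adm D₀ D` (`Adm.adjoin` with `y`, `y' = x 0`, `W = ∅`, `c = ϖ`), `im π D = B`. `ψ₁` maps
`SS.x i` to `x i` (`SS.lift`) and the variables to lifts of their images in `D₀`
(`MvPolynomial.eval₂Hom` or `aeval`). -/
theorem exists_lift {k R L : Type*} [NormedField k] [IsUltrametricDist k] [CommRing R]
    [IsDomain R] [Algebra k R] [Field L] [Algebra k L] {π : R →ₐ[k] L} (hπ : Res π)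
    {A : Subalgebra (O k) R} (hA : A.FG) {B : Subalgebra (O k) L} (hB : Adm (im π A) B)
    (hBfg : B.FG) {h : R} (hh : h ∈ A)
    (hhB : ∃ s ∈ B, ∃ c : k, c ≠ 0 ∧ π h * s = algebraMap k L c) {d n : ℕ} {ϖ : O k}
    (hϖ : ϖ ≠ 0) (ψ : QQ d n ϖ →ₐ[O k] B) :
    ∃ D : Subalgebra (O k) R, D.FG ∧ Adm A D ∧ im π D = B ∧
      (∃ h' ∈ D, ∃ c : k, c ≠ 0 ∧ h * h' = algebraMap k R c) ∧
      ∃ ψ₁ : QQ d n ϖ →ₐ[O k] D, ∀ x, π (ψ₁ x) = ψ x := by
  obtain ⟨J, hJ⟩ := hBfg
  -- generators
  obtain ⟨D₁, f1, f2, f3, f4⟩ := li1_gens hπ hA hB J (by rw [← hJ]; exact Algebra.subset_adjoin)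
  have f5 : B ≤ im π D₁ := by
    rw [← hJ]
    exact Algebra.adjoin_le f4
  -- the inverse of `h`
  obtain ⟨s, hsB, c, hc, hhs⟩ := hhB
  obtain ⟨H, a, b, ha, hb, hhH, hH, -⟩ := li1_inv hπ hc hhs
  obtain ⟨D₂, g1, g2, g3, g4, -, g6⟩ := li1_step f1 f2 f3 (f2.1 hh) hb hhH
    (by
      rw [hH]
      exact B.smul_mem hsB a) (W := ∅) Set.finite_empty
    (fun w hw => absurd hw (Set.notMem_empty w)) (fun w hw => absurd hw (Set.notMem_empty w))
  have g5 : B ≤ im π D₂ := fun x hx => by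
    obtain ⟨z, hz, rfl⟩ := f5 hx
    exact ⟨z, g4 hz, rfl⟩
  -- the coordinates
  have hx : ∀ j : Fin d, ∃ x ∈ D₂, π x = ψ (MvPolynomial.C (SS.x j.succ)) := fun j =>
    g5 (ψ (MvPolynomial.C (SS.x j.succ))).2
  choose x hxD hxπ using hx
  have hprod : ((ψ (MvPolynomial.C (SS.x 0)) : B) : L) *
      ∏ j : Fin d, ((ψ (MvPolynomial.C (SS.x j.succ)) : B) : L) = algebraMap k L (ϖ : k) := by
    have e1 : ψ (MvPolynomial.C (∏ i, (SS.x i : SS d ϖ))) = algebraMap (O k) B ϖ := by
      rw [SS.prod_x]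
      exact ψ.commutes ϖ
    rw [map_prod, map_prod, Fin.prod_univ_succ] at e1
    have e2 := congrArg (Subtype.val : B → L) e1
    rw [Subalgebra.coe_mul] at e2
    have e3 : ((∏ j : Fin d, ψ (MvPolynomial.C (SS.x j.succ)) : B) : L) =
        ∏ j : Fin d, ((ψ (MvPolynomial.C (SS.x j.succ)) : B) : L) :=
      map_prod B.val _ _
    rw [e3] at e2
    exact e2
  have hϖ' : (ϖ : k) ≠ 0 := fun h0 => hϖ (by exact_mod_cast h0)
  have hπprod : π (∏ j, x j) * ((ψ (MvPolynomial.C (SS.x 0)) : B) : L) =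
      algebraMap k L (ϖ : k) := by
    rw [← hprod, map_prod, mul_comm]
    simp only [hxπ]
  have hne : π (∏ j, x j) ≠ 0 := by
    intro h0
    rw [h0, zero_mul] at hπprod
    exact hϖ' ((algebraMap k L).injective (by rw [map_zero]; exact hπprod.symm))
  obtain ⟨u, hu⟩ := (hπ.unit _ hne).exists_left_inv
  have hx0π : π (u * algebraMap (O k) R ϖ) = ψ (MvPolynomial.C (SS.x 0)) := by
    have e1 : π u * π (∏ j, x j) = 1 := by rw [← map_mul, hu, map_one]
    have e2 : π (algebraMap (O k) R ϖ) = algebraMap k L ϖ := by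
      rw [li1_algebraMap]
      exact π.commutes _
    rw [map_mul, e2, ← hπprod]
    linear_combination ((ψ (MvPolynomial.C (SS.x 0)) : B) : L) * e1
  obtain ⟨D₃, k1, k2, k3, k4, -, k6⟩ := li1_step g1 g2 g3 (s := ∏ j, x j)
    (S := u * algebraMap (O k) R ϖ) (D₂.prod_mem fun j _ => hxD j) hϖ
    (by rw [← mul_assoc, mul_comm (∏ j, x j) u, hu, one_mul])
    (by
      rw [hx0π]
      exact Subtype.mem _) (W := ∅) Set.finite_empty
    (fun w hw => absurd hw (Set.notMem_empty w)) (fun w hw => absurd hw (Set.notMem_empty w))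
  have k5 : B ≤ im π D₃ := fun x hx => by
    obtain ⟨z, hz, rfl⟩ := g5 hx
    exact ⟨z, k4 hz, rfl⟩
  -- the homomorphism
  have hz : ∀ i : Fin n, ∃ z : D₃, π z = ψ (MvPolynomial.X i) := fun i => by
    obtain ⟨z, hz, hz'⟩ := k5 (ψ (MvPolynomial.X i)).2
    exact ⟨⟨z, hz⟩, hz'⟩
  choose z hz using hz
  have hX : ∏ i, (Fin.cons (⟨u * algebraMap (O k) R ϖ, k6⟩ : D₃)
      (fun j => (⟨x j, k4 (hxD j)⟩ : D₃)) : Fin (d + 1) → D₃) i = algebraMap (O k) D₃ ϖ := by
    rw [Fin.prod_univ_succ]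
    simp only [Fin.cons_zero, Fin.cons_succ]
    apply Subtype.ext
    rw [Subalgebra.coe_mul, Subalgebra.coe_algebraMap]
    have e3 : ((∏ j : Fin d, (⟨x j, k4 (hxD j)⟩ : D₃) : D₃) : R) = ∏ j : Fin d, x j :=
      map_prod D₃.val _ _
    rw [e3]
    change u * algebraMap (O k) R ϖ * ∏ j, x j = algebraMap (O k) R ϖ
    linear_combination (algebraMap (O k) R ϖ) * hu
  let φ : SS d ϖ →ₐ[O k] D₃ := SS.lift _ hX
  have hφ : ∀ y : SS d ϖ, π (φ y) = ψ (MvPolynomial.C y) := by
    have e : ((π.restrictScalars (O k)).comp D₃.val).comp φ =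
        (B.val.comp ψ).comp (Algebra.algHom (O k) (SS d ϖ) (QQ d n ϖ)) := by
      apply SS.hom_ext
      intro i
      change π (SS.lift _ hX (SS.x i)) = ψ (MvPolynomial.C (SS.x i))
      rw [SS.lift_x]
      refine Fin.cases ?_ (fun j => ?_) i
      · rw [Fin.cons_zero]
        exact hx0π
      · rw [Fin.cons_succ]
        exact hxπ j
    intro y
    exact DFunLike.congr_fun e y
  let ψ₁ : QQ d n ϖ →ₐ[O k] D₃ :=
    { MvPolynomial.eval₂Hom (φ : SS d ϖ →+* D₃) z with
      commutes' := fun a => by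
        simp only [RingHom.toMonoidHom_eq_coe, OneHom.toFun_eq_coe, MonoidHom.toOneHom_coe,
          MonoidHom.coe_coe]
        have h1 : algebraMap (O k) (QQ d n ϖ) a =
            MvPolynomial.C (algebraMap (O k) (SS d ϖ) a) := rfl
        rw [h1, MvPolynomial.coe_eval₂Hom, MvPolynomial.eval₂_C]
        exact φ.commutes a }
  refine ⟨D₃, k1, k2, le_antisymm k3 k5, ⟨H, k4 g6, (b : k), ?_, ?_⟩, ψ₁, ?_⟩
  · exact fun h0 => hb (by exact_mod_cast h0)
  · rw [hhH, li1_algebraMap]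
  · intro y
    induction y using MvPolynomial.induction_on with
    | C a =>
      have e : ψ₁ (MvPolynomial.C a) = φ a := MvPolynomial.eval₂_C _ _ _
      rw [e]
      exact hφ a
    | add p q hp hq =>
      rw [map_add, map_add, Subalgebra.coe_add, Subalgebra.coe_add, map_add, hp, hq]
    | mul_X p i hp =>
      have e : ψ₁ (MvPolynomial.X i) = z i := MvPolynomial.eval₂_X _ _ _
      rw [map_mul, map_mul, Subalgebra.coe_mul, Subalgebra.coe_mul, map_mul, hp, e, hz]

end DS
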