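import Pool.Agent.Lib.DS.Li2

/-!
# Module Li3: dividing the equations of the support by a constant
-/

namespace DS

open MP1a953e DA

private theorem common_const {k R : Type*} [NormedField k] [IsUltrametricDist k] [CommRing R]
    [Algebra k R] {D : Subalgebra (O k) R} {c : ℕ} {g : Fin c → R} (T : Finset R)
    (hT : ∀ x ∈ T, ∃ e : k, e ≠ 0 ∧ ∃ b : Fin c → R, (∀ l, b l ∈ D) ∧
      algebraMap k R e * x = ∑ l, b l * g l) :
    ∃ e : O k, e ≠ 0 ∧ ∀ x ∈ T, ∃ b : Fin c → R, (∀ l, b l ∈ D) ∧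
      algebraMap (O k) R e * x = ∑ l, b l * g l := by
  classical
  induction T using Finset.induction_on with
  | empty => exact ⟨1, one_ne_zero, fun x hx => absurd hx (Finset.notMem_empty x)⟩
  | insert a T ha ih =>
    obtain ⟨e1, he1, h1⟩ := ih (fun x hx => hT x (Finset.mem_insert_of_mem hx))
    obtain ⟨e2, he2, b, hb, hb'⟩ := hT a (Finset.mem_insert_self a T)
    obtain ⟨a1, b1, ha1, hab⟩ := exists_scale e2
    have hb1 : b1 ≠ 0 := by
      intro h0
      rw [h0] at hab
      have : (a1 : k) * e2 ≠ 0 := mul_ne_zero (fun h => ha1 (Subtype.ext h)) he2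
      exact this hab
    have hmap : algebraMap (O k) R b1 = algebraMap (O k) R a1 * algebraMap k R e2 := by
      change algebraMap k R (b1 : k) = algebraMap k R (a1 : k) * algebraMap k R e2
      rw [← map_mul, hab]
    refine ⟨e1 * b1, mul_ne_zero he1 hb1, fun x hx => ?_⟩
    rcases Finset.mem_insert.1 hx with rfl | hx
    · refine ⟨fun l => algebraMap (O k) R (e1 * a1) * b l,
        fun l => D.mul_mem (D.algebraMap_mem _) (hb l), ?_⟩
      simp only [mul_assoc]
      rw [← Finset.mul_sum, ← hb', map_mul, map_mul, hmap]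
      ring
    · obtain ⟨b', hb1', hb2'⟩ := h1 x hx
      refine ⟨fun l => algebraMap (O k) R b1 * b' l,
        fun l => D.mul_mem (D.algebraMap_mem _) (hb1' l), ?_⟩
      simp only [mul_assoc]
      rw [← Finset.mul_sum, ← hb2', map_mul]
      ring

private theorem fg_adjoin {F R : Type*} [CommRing F] [CommRing R] [Algebra F R]
    {D : Subalgebra F R} (hD : D.FG) {W : Set R} (hW : W.Finite) (y : R) :
    (Algebra.adjoin F ((D : Set R) ∪ W ∪ {y})).FG := by
  obtain ⟨S, hS⟩ := hD
  refine Subalgebra.fg_def.2 ⟨(S : Set R) ∪ W ∪ {y}, ?_, ?_⟩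
  · exact (S.finite_toSet.union hW).union (Set.finite_singleton y)
  · refine le_antisymm (Algebra.adjoin_mono ?_) (Algebra.adjoin_le ?_)
    · refine Set.union_subset_union_left _ (Set.union_subset_union_left _ ?_)
      rw [← hS]
      exact Algebra.subset_adjoin
    · rintro x ((hx | hx) | hx)
      · have h1 : D ≤ Algebra.adjoin F ((S : Set R) ∪ W ∪ {y}) := by
          rw [← hS]
          exact Algebra.adjoin_mono (Set.subset_union_left.trans Set.subset_union_left)
        exact h1 hx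
      · exact Algebra.subset_adjoin (Or.inl (Or.inr hx))
      · exact Algebra.subset_adjoin (Or.inr hx)

private theorem adjoin_decomp {F R : Type*} [CommRing F] [CommRing R] [Algebra F R]
    {D D' : Subalgebra F R} {W : Set R} (hD' : D' = Algebra.adjoin F ((D : Set R) ∪ W ∪ {1}))
    (hDD : D ≤ D') {I : Ideal D'} (hI : ∀ w : D', (w : R) ∈ W → w ∈ I) (x : D') :
    ∃ d : D, x - Subalgebra.inclusion hDD d ∈ I := by
  subst hD'
  obtain ⟨x, hx⟩ := x
  induction hx using Algebra.adjoin_induction with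
  | mem x h =>
    rcases h with (h | h) | h
    · refine ⟨⟨x, h⟩, ?_⟩
      have : (⟨x, Algebra.subset_adjoin (Or.inl (Or.inl h))⟩ :
          Algebra.adjoin F ((D : Set R) ∪ W ∪ {1})) - Subalgebra.inclusion hDD ⟨x, h⟩ = 0 :=
        sub_eq_zero.2 rfl
      rw [this]
      exact I.zero_mem
    · refine ⟨0, ?_⟩
      rw [map_zero, sub_zero]
      exact hI _ h
    · refine ⟨1, ?_⟩
      rw [map_one]
      have : (⟨x, Algebra.subset_adjoin (Or.inr h)⟩ :
          Algebra.adjoin F ((D : Set R) ∪ W ∪ {1})) - 1 = 0 :=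
        sub_eq_zero.2 (Subtype.ext h)
      rw [this]
      exact I.zero_mem
  | algebraMap r =>
    refine ⟨algebraMap F D r, ?_⟩
    have : (⟨algebraMap F R r, Subalgebra.algebraMap_mem _ r⟩ :
        Algebra.adjoin F ((D : Set R) ∪ W ∪ {1})) - Subalgebra.inclusion hDD (algebraMap F D r) = 0 :=
      sub_eq_zero.2 rfl
    rw [this]
    exact I.zero_mem
  | add x y hx hy h1 h2 =>
    obtain ⟨d1, h1⟩ := h1
    obtain ⟨d2, h2⟩ := h2
    refine ⟨d1 + d2, ?_⟩
    have := I.add_mem h1 h2
    rw [map_add]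
    convert this using 1
    refine Subtype.ext ?_
    change x + y - (_ + _) = x - _ + (y - _)
    ring
  | mul x y hx hy h1 h2 =>
    obtain ⟨d1, h1⟩ := h1
    obtain ⟨d2, h2⟩ := h2
    refine ⟨d1 * d2, ?_⟩
    have := I.add_mem (I.mul_mem_right ⟨y, hy⟩ h1) (I.mul_mem_left (Subalgebra.inclusion hDD d1) h2)
    rw [map_mul]
    convert this using 1
    refine Subtype.ext ?_
    change x * y - (_ * _) = (x - _) * y + _ * (y - _)
    ring

/-- Li3.  Proof.  The kernel of `toIm π D` is finitely generated (`ker_fg`, `im π D` is finitely presented by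
hypothesis), say by `x 1, …, x s`; `e j * x j ∈ ∑ D g l` by `hk`. For `ρ ∈ E` there is `e ≠ 0` with `e ρ ∈ D`,
in the kernel. So there is one constant `e₀ ≠ 0` (a product; also scaled so that `e₀ ∈ O k` and divisions
cause no problem) such that `e₀ * x j ∈ ∑ D g l` for all `j` and `e₀ * ρ ∈ ∑ D g l` for all `ρ ∈ E`. Let
`z l = g l / e₀` (i.e. `algebraMap k R e₀⁻¹ * g l`), `D' = D[z]`: then the `x j` and all `ρ ∈ E` are in
`∑ D z l`. `Adm D D'` by `Adm.adjoin` with `y = y' = e₀`-like constants: take `y = algebraMap e₀`,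
`y' = 1`, `W = range z` (`z l * e₀ = g l ∈ D`). An element of `D'` is a polynomial in the `z l` over `D`, so it
is `d₀ + ∑ b l * z l` with `d₀ ∈ D`, `b l ∈ D'`; if it is in the kernel of `π` then `π d₀ = 0` (`π (z l) = 0`), so
`d₀ ∈ ∑ D z l` by the choice of `e₀`. -/
theorem exists_z {k R L : Type*} [NormedField k] [IsUltrametricDist k] [CommRing R]
    [Algebra k R] [Field L] [Algebra k L] {π : R →ₐ[k] L} {D : Subalgebra (O k) R} (hD : D.FG)
    (hfp : Algebra.FinitePresentation (O k) ↥(im π D)) {c : ℕ} {g : Fin c → R}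
    (hg : ∀ l, g l ∈ D) (hg0 : ∀ l, π (g l) = 0)
    (hk : ∀ x ∈ D, π x = 0 → ∃ e : k, e ≠ 0 ∧ ∃ b : Fin c → R, (∀ l, b l ∈ D) ∧
      algebraMap k R e * x = ∑ l, b l * g l) (E : Finset R)
    (hE : ∀ ρ ∈ E, π ρ = 0 ∧ ∃ e : k, e ≠ 0 ∧ algebraMap k R e * ρ ∈ D) :
    ∃ (D' : Subalgebra (O k) R) (z : Fin c → D'), D'.FG ∧ Adm D D' ∧ im π D' = im π D ∧
      (∀ l, π (z l) = 0) ∧
      (∀ x : D', π x = 0 → x ∈ Ideal.span (Set.range z)) ∧ ∀ ρ ∈ E, ρ ∈ D' := by
  classical
  have : Algebra.FiniteType (O k) D := D.fg_iff_finiteType.1 hD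
  obtain ⟨S, hS⟩ := ker_fg (toIm π D) (toIm_surjective π D)
  -- one constant
  have hT : ∀ x ∈ S.image (Subtype.val : D → R) ∪ E, ∃ e : k, e ≠ 0 ∧ ∃ b : Fin c → R,
      (∀ l, b l ∈ D) ∧ algebraMap k R e * x = ∑ l, b l * g l := by
    intro x hx
    rcases Finset.mem_union.1 hx with hx | hx
    · obtain ⟨y, hy, rfl⟩ := Finset.mem_image.1 hx
      refine hk y y.2 ?_
      have h1 : y ∈ RingHom.ker (toIm π D).toRingHom := by
        rw [← hS]
        exact Ideal.subset_span hy
      have h2 : toIm π D y = 0 := h1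
      rw [← coe_toIm, h2]
      rfl
    · obtain ⟨h0, e, he, heD⟩ := hE x hx
      obtain ⟨e', he', b, hb, hb'⟩ := hk _ heD (by rw [map_mul, h0, mul_zero])
      refine ⟨e' * e, mul_ne_zero he' he, b, hb, ?_⟩
      rw [map_mul, mul_assoc, hb']
  obtain ⟨e, he, hTe⟩ := common_const _ hT
  have he' : (e : k) ≠ 0 := fun h => he (Subtype.ext h)
  obtain ⟨u, hu⟩ : ∃ u : R, u * algebraMap (O k) R e = 1 := by
    refine ⟨algebraMap k R (e : k)⁻¹, ?_⟩
    change algebraMap k R (e : k)⁻¹ * algebraMap k R (e : k) = 1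
    rw [← map_mul, inv_mul_cancel₀ he', map_one]
  obtain ⟨D', hD'⟩ : ∃ D' : Subalgebra (O k) R, D' = Algebra.adjoin (O k)
      ((D : Set R) ∪ Set.range (fun l => u * g l) ∪ {1}) := ⟨_, rfl⟩
  have hzD : ∀ l, u * g l ∈ D' := by
    intro l
    rw [hD']
    exact Algebra.subset_adjoin (Or.inl (Or.inr ⟨l, rfl⟩))
  have hDD : D ≤ D' := by
    intro x hx
    rw [hD']
    exact Algebra.subset_adjoin (Or.inl (Or.inl hx))
  have hadm : Adm D D' := by
    rw [hD']
    refine Adm.adjoin (D.algebraMap_mem e) he (mul_one _) ?_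
    rintro _ ⟨l, rfl⟩
    have : u * g l * algebraMap (O k) R e = g l := by
      rw [mul_right_comm, hu, one_mul]
    rw [this]
    exact hg l
  have hπz : ∀ l, π (u * g l) = 0 := fun l => by rw [map_mul, hg0, mul_zero]
  -- elements of `T` are combinations of the `z l`
  have hcomb : ∀ x ∈ S.image (Subtype.val : D → R) ∪ E, ∃ b : Fin c → R, (∀ l, b l ∈ D) ∧
      x = ∑ l, b l * (u * g l) := by
    intro x hx
    obtain ⟨b, hb, hb'⟩ := hTe x hx
    refine ⟨b, hb, ?_⟩
    calc x = u * (algebraMap (O k) R e * x) := by rw [← mul_assoc, hu, one_mul]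
      _ = u * ∑ l, b l * g l := by rw [hb']
      _ = ∑ l, b l * (u * g l) := by
        rw [Finset.mul_sum]
        exact Finset.sum_congr rfl fun l _ => by ring
  have hspan : ∀ (x : D') (b : Fin c → R), (∀ l, b l ∈ D) → (x : R) = ∑ l, b l * (u * g l) →
      x ∈ Ideal.span (Set.range fun l => (⟨u * g l, hzD l⟩ : D')) := by
    intro x b hb hx
    have h1 : x = ∑ l, (⟨b l, hDD (hb l)⟩ : D') * ⟨u * g l, hzD l⟩ := by
      refine Subtype.ext ?_
      rw [hx, AddSubmonoidClass.coe_finsetSum]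
      rfl
    rw [h1]
    exact Ideal.sum_mem _ fun l _ => Ideal.mul_mem_left _ _ (Ideal.subset_span ⟨l, rfl⟩)
  refine ⟨D', fun l => ⟨u * g l, hzD l⟩, ?_, hadm, ?_, fun l => hπz l, ?_, ?_⟩
  · rw [hD']
    exact fg_adjoin hD (Set.finite_range _) 1
  · refine le_antisymm ?_ ?_
    · rintro _ ⟨x, hx, rfl⟩
      have h1 : D' ≤ (im π D).comap (π.restrictScalars (O k)) := by
        rw [hD']
        refine Algebra.adjoin_le ?_
        rintro y ((hy | ⟨l, rfl⟩) | hy)
        · exact ⟨y, hy, rfl⟩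
        · have : (π.restrictScalars (O k)) (u * g l) = 0 := hπz l
          change (π.restrictScalars (O k)) (u * g l) ∈ im π D
          rw [this]
          exact (im π D).zero_mem
        · rw [Set.mem_singleton_iff] at hy
          subst hy
          exact Subalgebra.one_mem _
      exact h1 hx
    · rintro _ ⟨x, hx, rfl⟩
      exact ⟨x, hDD hx, rfl⟩
  · intro x hx
    obtain ⟨d, hd⟩ := adjoin_decomp hD' hDD
      (I := Ideal.span (Set.range fun l => (⟨u * g l, hzD l⟩ : D')))
      (by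
        rintro w ⟨l, hl⟩
        have : w = ⟨u * g l, hzD l⟩ := Subtype.ext hl.symm
        rw [this]
        exact Ideal.subset_span ⟨l, rfl⟩) x
    -- the ideal is in the kernel
    have hker : Ideal.span (Set.range fun l => (⟨u * g l, hzD l⟩ : D')) ≤
        RingHom.ker ((π : R →+* L).comp D'.val.toRingHom) := by
      rw [Ideal.span_le]
      rintro _ ⟨l, rfl⟩
      exact hπz l
    have h1 : π ((x : R) - (d : R)) = 0 := hker hd
    have h2 : π (d : R) = 0 := by
      rw [map_sub, hx, zero_sub, neg_eq_zero] at h1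
      exact h1
    have h3 : d ∈ Ideal.span (S : Set D) := by
      rw [show Ideal.span (S : Set D) = RingHom.ker (toIm π D).toRingHom from hS]
      exact Subtype.ext h2
    have h4 : Ideal.span (S : Set D) ≤ (Ideal.span (Set.range fun l =>
        (⟨u * g l, hzD l⟩ : D'))).comap (Subalgebra.inclusion hDD).toRingHom := by
      rw [Ideal.span_le]
      intro s hs
      obtain ⟨b, hb, hb'⟩ := hcomb (s : R)
        (Finset.mem_union_left _ (Finset.mem_image_of_mem _ hs))
      exact hspan _ b hb hb'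
    have h5 := Ideal.add_mem _ hd (h4 h3)
    have h6 : x - Subalgebra.inclusion hDD d + (Subalgebra.inclusion hDD).toRingHom d = x := by
      change x - Subalgebra.inclusion hDD d + Subalgebra.inclusion hDD d = x
      rw [sub_add_cancel]
    rwa [h6] at h5
  · intro ρ hρ
    obtain ⟨b, hb, hb'⟩ := hcomb ρ (Finset.mem_union_right _ hρ)
    rw [hb']
    exact D'.sum_mem fun l _ => D'.mul_mem (hDD (hb l)) (hzD l)

end DS
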