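import Pool.Agent.Lib.DS.Lo

/-!
# Module Pr: the prime ideal of a localization
-/

namespace DS

open MP1a953e DA

/-- Pr.  Proof.  `adj1 B b⁻¹` is the localization of `B` at `b` (`loc_adj1`); take `q₁ = q.map`. Alternatively define
`q₁` as the set of all `y` with `b ^ N * y ∈ q` for some `N`. -/
theorem exists_prime {k L : Type*} [NormedField k] [IsUltrametricDist k] [Field L] [Algebra k L]
    {B : Subalgebra (O k) L} (q : Ideal B) [q.IsPrime] {b : B} (hb : b ∉ q) :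
    ∃ q₁ : Ideal ↥(adj1 B (b : L)⁻¹), q₁.IsPrime ∧
      (∀ y : ↥(adj1 B (b : L)⁻¹), ∃ (s : B) (a : B), s ∉ q ∧ (s : L) * y = a ∧
        (y ∉ q₁ → a ∉ q)) := by
  have hb0 : (b : L) ≠ 0 := by
    intro h
    apply hb
    have h1 : b = 0 := Subtype.ext h
    rw [h1]
    exact q.zero_mem
  letI := (Subalgebra.inclusion (le_adj1 B (b : L)⁻¹)).toRingHom.toAlgebra
  have hloc : IsLocalization.Away b ↥(adj1 B (b : L)⁻¹) := loc_adj1 B b (mul_inv_cancel₀ hb0)
  have hal : ∀ x : B, ((algebraMap B ↥(adj1 B (b : L)⁻¹) x : ↥(adj1 B (b : L)⁻¹)) : L) = x :=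
    fun _ => rfl
  have hdis : Disjoint (Submonoid.powers b : Set B) (q : Set B) := by
    rw [Set.disjoint_left]
    rintro x ⟨n, rfl⟩ hx
    exact hb (Ideal.IsPrime.mem_of_pow_mem inferInstance n hx)
  have hpr : (q.map (algebraMap B ↥(adj1 B (b : L)⁻¹))).IsPrime :=
    IsLocalization.isPrime_of_isPrime_disjoint (Submonoid.powers b) ↥(adj1 B (b : L)⁻¹) q
      inferInstance hdis
  refine ⟨q.map (algebraMap B ↥(adj1 B (b : L)⁻¹)), hpr, fun y => ?_⟩
  obtain ⟨⟨a, s⟩, h⟩ := IsLocalization.surj (Submonoid.powers b) y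
  have hs : (s : B) ∉ q := fun hx => Set.disjoint_left.1 hdis s.2 hx
  refine ⟨s, a, hs, ?_, fun hy ha => ?_⟩
  · have h1 := congrArg (Subtype.val) h
    exact (mul_comm _ _).trans h1
  · have h1 : y * algebraMap B ↥(adj1 B (b : L)⁻¹) s ∈ q.map (algebraMap B ↥(adj1 B (b : L)⁻¹)) := by
      have h2 : y * algebraMap B ↥(adj1 B (b : L)⁻¹) s = algebraMap B ↥(adj1 B (b : L)⁻¹) a := h
      rw [h2]
      exact Ideal.mem_map_of_mem _ ha
    rcases hpr.mem_or_mem h1 with h2 | h2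
    · exact hy h2
    · exact hpr.ne_top (Ideal.eq_top_of_isUnit_mem _ h2
        (IsLocalization.map_units ↥(adj1 B (b : L)⁻¹) s))

end DS
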