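import Pool.Agent.Lib.DS.Ad1

/-!
# Module Li2: the kernel of a lifted chart
-/

namespace DS

open MP1a953e DA

/-- Li2a.  Proof.  `A'` is a quotient of a polynomial ring in finitely many variables; the kernel of the
composition to `B'` is finitely generated (`Algebra.FinitePresentation.ker_fG_of_surjective`), so its
image, the kernel of `f`, is finitely generated. -/
theorem ker_fg {F A' B' : Type*} [CommRing F] [CommRing A'] [CommRing B'] [Algebra F A']
    [Algebra F B'] (f : A' →ₐ[F] B') (hf : Function.Surjective f) [Algebra.FiniteType F A']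
    [Algebra.FinitePresentation F B'] : (RingHom.ker f.toRingHom).FG := by
  obtain ⟨n, g, hg⟩ := Algebra.FiniteType.iff_quotient_mvPolynomial''.1
    (inferInstance : Algebra.FiniteType F A')
  have h1 : (RingHom.ker (f.comp g).toRingHom).FG :=
    Algebra.FinitePresentation.ker_fG_of_surjective (f.comp g) (hf.comp hg)
  have h2 : RingHom.ker f.toRingHom = (RingHom.ker (f.comp g).toRingHom).map g.toRingHom := by
    apply le_antisymm
    · intro x hx
      obtain ⟨y, rfl⟩ := hg x
      apply Ideal.mem_map_of_mem g.toRingHom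
      exact hx
    · rw [Ideal.map_le_iff_le_comap]
      intro y hy
      exact hy
  rw [h2]
  exact h1.map g.toRingHom

/-- Li2b.  `SS d ϖ` and polynomial rings over it are finitely presented over `O k`. -/
theorem finitePresentation_qq {k : Type*} [NormedField k] [IsUltrametricDist k] (d n : ℕ)
    (ϖ : O k) : Algebra.FinitePresentation (O k) (QQ d n ϖ) := by
  have h1 : Algebra.FinitePresentation (O k) (SS d ϖ) := by
    refine Algebra.FinitePresentation.of_surjective (f := SS.mk d ϖ) (SS.mk_surjective d ϖ) ?_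
    have h2 : RingHom.ker (SS.mk d ϖ).toRingHom = RingHom.ker (SS.mk d ϖ) := rfl
    rw [h2, SS.ker_mk]
    exact ⟨{(∏ i, MvPolynomial.X i - MvPolynomial.C ϖ : MvPolynomial (Fin (d + 1)) (O k))}, by
      rw [Finset.coe_singleton]⟩
  exact Algebra.FinitePresentation.mvPolynomial (O k) (SS d ϖ) (Fin n)

/-- Li2c.  Proof.  `x * s = a`, `s * s' = c₁` with `a, s ∈ A`, `s' ∈ D` (`hAD`); `π a = π x * π s = 0`. By
`hh` there are `e`, `b l ∈ A` with `e * (h * a) = ∑ b l * g l`. Multiply with `s' * h'`: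
`e * c₀ * c₁ * x = ∑ (b l * s' * h') * g l`. -/
theorem exists_const {k R L : Type*} [NormedField k] [IsUltrametricDist k] [CommRing R]
    [Algebra k R] [Field L] [Algebra k L] {π : R →ₐ[k] L} {A D : Subalgebra (O k) R}
    (hAD : Adm A D) {c : ℕ} {g : Fin c → R} {h h' : R} (hh' : h' ∈ D)
    (hhh : ∃ c₀ : k, c₀ ≠ 0 ∧ h * h' = algebraMap k R c₀)
    (hh : ∀ a ∈ A, π a = 0 → ∃ e : k, e ≠ 0 ∧ ∃ b : Fin c → R, (∀ l, b l ∈ A) ∧
      algebraMap k R e * (h * a) = ∑ l, b l * g l) {x : R} (hx : x ∈ D) (hx0 : π x = 0) :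
    ∃ e : k, e ≠ 0 ∧ ∃ b : Fin c → R, (∀ l, b l ∈ D) ∧
      algebraMap k R e * x = ∑ l, b l * g l := by
  obtain ⟨a, ha, s, hs, s', hs', c₁, hc₁, hss, hxs⟩ := hAD.2 x hx
  obtain ⟨c₀, hc₀, hhc⟩ := hhh
  have ha0 : π a = 0 := by rw [← hxs, map_mul, hx0, zero_mul]
  obtain ⟨e, he, b, hb, hbe⟩ := hh a ha ha0
  refine ⟨e * c₀ * c₁, mul_ne_zero (mul_ne_zero he hc₀) hc₁, fun l => b l * s' * h', ?_, ?_⟩
  · intro l
    exact D.mul_mem (D.mul_mem (hAD.1 (hb l)) hs') hh'
  · have h1 : ∑ l, b l * s' * h' * g l = (∑ l, b l * g l) * (s' * h') := by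
      rw [Finset.sum_mul]
      apply Finset.sum_congr rfl
      intro l _
      ring
    rw [h1, ← hbe, map_mul, map_mul, ← hhc, ← hss, ← hxs]
    ring

end DS
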