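import Pool.Agent.Lib.DS.Un
import Pool.Agent.Lib.DS.Li2

/-!
# Module Un2: the lifted chart is unramified near the support
-/

namespace DS

open MP1a953e DA

private theorem un2_general {P Q D B : Type*} [CommRing P] [CommRing Q] [CommRing D] [CommRing B]
    (φ : P →+* D) (hft : φ.FiniteType) (τ : P →+* Q) (hτ : Function.Surjective τ) (χ : Q →+* B)
    (hχ : χ.FormallyUnramified) (q : D →+* B) (hq : Function.Surjective q)
    (hcomm : q.comp φ = χ.comp τ) (I : Ideal P) (hI : I.map φ = RingHom.ker q) :
    ∃ r : D, q r = 1 ∧ ((algebraMap D (Localization.Away r)).comp φ).FormallyUnramified := by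
  let _ : Algebra P D := φ.toAlgebra
  have : Algebra.FiniteType P D := hft
  let _ : Algebra P B := (q.comp φ).toAlgebra
  have hB : Algebra.FormallyUnramified P B := by
    have h1 : (q.comp φ).FormallyUnramified := by
      rw [hcomm]
      exact RingHom.FormallyUnramified.comp (RingHom.FormallyUnramified.of_surjective hτ) hχ
    exact h1
  have hI' : I.map (algebraMap P D) = RingHom.ker q := hI
  have hun : Algebra.FormallyUnramified P (D ⧸ I.map (algebraMap P D)) := by
    let q' : D →ₐ[P] B := { q with commutes' := fun _ => rfl }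
    have hq' : Function.Surjective q' := hq
    have hker : I.map (algebraMap P D) = RingHom.ker q' := hI
    let e := (Ideal.quotientEquivAlgOfEq P hker).trans
      (Ideal.quotientKerAlgEquivOfSurjective hq')
    exact Algebra.FormallyUnramified.of_equiv e.symm
  obtain ⟨r, hr1, hr2⟩ := exists_unramified (P := P) (D := D) I
  refine ⟨r, ?_, ?_⟩
  · rw [hI', RingHom.mem_ker, map_sub, map_one, sub_eq_zero] at hr1
    exact hr1
  · have h2 : (algebraMap P (Localization.Away r)).FormallyUnramified :=
      RingHom.formallyUnramified_algebraMap.2 hr2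
    rw [IsScalarTower.algebraMap_eq P D (Localization.Away r)] at h2
    exact h2

/-- Un2.  Proof.  Let `D` be an algebra over `P = PP d n c ϖ` by `ext ψ z`. `D` is finitely generated over `O k`, so
over `P`. Let `I` be the ideal of `P` generated by the `X (inr l)`; `I D = Ideal.span (range z)` is the kernel
of `toIm π D`, so `D / I D ≅ im π D`. The composition `P → D → im π D` is `P → QQ d n ϖ` (`X (inr l) ↦ 0`,
surjective) followed by the etale homomorphism `(toIm π D) ∘ ψ`. So `im π D` is formally unramified over
`P`, and `exists_unramified` applies. `r - 1 ∈ I D` means `π r = 1`. -/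
theorem exists_r {k R L : Type*} [NormedField k] [IsUltrametricDist k] [CommRing R]
    [Algebra k R] [Field L] [Algebra k L] {π : R →ₐ[k] L} {D : Subalgebra (O k) R} (hD : D.FG)
    {d n c : ℕ} {ϖ : O k} (ψ : QQ d n ϖ →ₐ[O k] D) (z : Fin c → D)
    (hz : ∀ l, π (z l) = 0) (hker : ∀ x : D, π x = 0 → x ∈ Ideal.span (Set.range z))
    (het : ((toIm π D).comp ψ).toRingHom.Etale) :
    ∃ r : D, π r = 1 ∧ ((algebraMap D (Localization.Away r)).comp
      (ext ψ z).toRingHom).FormallyUnramified := by
  have hft : (ext ψ z).toRingHom.FiniteType := by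
    have h1 : (algebraMap (O k) D).FiniteType := by
      rw [RingHom.finiteType_algebraMap]
      exact D.fg_iff_finiteType.1 hD
    have h2 : algebraMap (O k) D = (ext ψ z).toRingHom.comp (algebraMap (O k) (PP d n c ϖ)) :=
      (ext ψ z).comp_algebraMap.symm
    rw [h2] at h1
    exact RingHom.FiniteType.of_comp_finiteType h1
  let τ : PP d n c ϖ →+* QQ d n ϖ :=
    MvPolynomial.eval₂Hom MvPolynomial.C (Sum.elim MvPolynomial.X (fun _ => 0))
  have hτC : ∀ a, τ (MvPolynomial.C a) = MvPolynomial.C a := fun a => MvPolynomial.eval₂_C _ _ _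
  have hτl : ∀ i, τ (MvPolynomial.X (Sum.inl i)) = MvPolynomial.X i :=
    fun i => MvPolynomial.eval₂_X _ _ _
  have hτr : ∀ i, τ (MvPolynomial.X (Sum.inr i)) = 0 := fun i => MvPolynomial.eval₂_X _ _ _
  have hτ : Function.Surjective τ := by
    intro p
    induction p using MvPolynomial.induction_on with
    | C a => exact ⟨MvPolynomial.C a, hτC a⟩
    | add p q hp hq =>
      obtain ⟨p', rfl⟩ := hp
      obtain ⟨q', rfl⟩ := hq
      exact ⟨p' + q', map_add τ _ _⟩
    | mul_X p i hp =>
      obtain ⟨p', rfl⟩ := hp
      exact ⟨p' * MvPolynomial.X (Sum.inl i), by rw [map_mul, hτl]⟩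
  have hcomm : (toIm π D).toRingHom.comp (ext ψ z).toRingHom =
      ((toIm π D).comp ψ).toRingHom.comp τ := by
    apply MvPolynomial.ringHom_ext
    · intro a
      show toIm π D (ext ψ z (MvPolynomial.C a)) = toIm π D (ψ (τ (MvPolynomial.C a)))
      rw [ext_C, hτC]
    · rintro (i | i)
      · show toIm π D (ext ψ z (MvPolynomial.X (Sum.inl i))) =
          toIm π D (ψ (τ (MvPolynomial.X (Sum.inl i))))
        rw [ext_inl, hτl]
      · show toIm π D (ext ψ z (MvPolynomial.X (Sum.inr i))) =
          toIm π D (ψ (τ (MvPolynomial.X (Sum.inr i))))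
        rw [ext_inr, hτr, map_zero, map_zero]
        exact Subtype.ext (hz i)
  have hI : (Ideal.span (Set.range fun l : Fin c =>
      (MvPolynomial.X (Sum.inr l) : PP d n c ϖ))).map (ext ψ z).toRingHom =
      RingHom.ker (toIm π D).toRingHom := by
    rw [Ideal.map_span, ← Set.range_comp]
    have h1 : ((ext ψ z).toRingHom ∘ fun l : Fin c =>
        (MvPolynomial.X (Sum.inr l) : PP d n c ϖ)) = z := by
      funext l
      exact ext_inr ψ z l
    rw [h1]
    apply le_antisymm
    · rw [Ideal.span_le]
      rintro _ ⟨l, rfl⟩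
      show toIm π D (z l) = 0
      exact Subtype.ext (hz l)
    · intro x hx
      apply hker
      have h2 : toIm π D x = 0 := hx
      have h3 := congrArg (Subtype.val) h2
      exact h3
  obtain ⟨r, hr1, hr2⟩ := un2_general (ext ψ z).toRingHom hft τ hτ
    ((toIm π D).comp ψ).toRingHom het.formallyUnramified (toIm π D).toRingHom
    (toIm_surjective π D) hcomm _ hI
  refine ⟨r, ?_, hr2⟩
  have h3 : toIm π D r = 1 := hr1
  exact congrArg (Subtype.val) h3

end DS
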