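import Pool.Agent.Lib.DS.Co
import Pool.Agent.Lib.DS.N3
import Pool.Agent.Lib.DS.Li1
import Pool.Agent.Lib.DS.Li3
import Pool.Agent.Lib.DS.Un2
import Pool.Agent.Lib.DS.Al
import Pool.Agent.Lib.DS.Et
import Pool.Agent.Lib.DS.Fr
import Pool.Agent.Lib.DS.Pr
import Pool.Agent.Lib.DS.Fg

/-!
# Module Core: lifting charts from the support
-/

namespace DS

open MP1a953e DA

universe v

/-- `t` is a constant times a monomial in the `x i` times a unit of `D` -/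
def MonU {k R : Type*} [NormedField k] [IsUltrametricDist k] [CommRing R] [Algebra k R]
    (D : Subalgebra (O k) R) {d : ℕ} (x : Fin (d + 1) → R) (t : R) : Prop :=
  ∃ (n m : Fin (d + 1) → ℕ) (e : k) (v v' : R), e ≠ 0 ∧ v ∈ D ∧ v' ∈ D ∧ v * v' = 1 ∧
    t * ∏ i, x i ^ n i = algebraMap k R e * (∏ i, x i ^ m i) * v

/-- the complementary monomial -/
private theorem exists_compl {k R : Type*} [NormedField k] [IsUltrametricDist k] [CommRing R]
    [Algebra k R] {d : ℕ} {ϖ : O k} {x : Fin (d + 1) → R}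
    (hx : ∏ i, x i = algebraMap (O k) R ϖ) (m : Fin (d + 1) → ℕ) :
    ∃ (m' : Fin (d + 1) → ℕ) (N : ℕ), (∏ i, x i ^ m i) * (∏ i, x i ^ m' i) =
      algebraMap (O k) R (ϖ ^ N) := by
  set N := ∑ i, m i with hN
  have hle : ∀ i, m i ≤ N := fun i => Finset.single_le_sum (fun _ _ => Nat.zero_le _)
    (Finset.mem_univ i)
  refine ⟨fun i => N - m i, N, ?_⟩
  rw [← Finset.prod_mul_distrib]
  have h1 : ∀ i, x i ^ m i * x i ^ (N - m i) = x i ^ N := fun i => by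
    rw [← pow_add, Nat.add_sub_cancel' (hle i)]
  rw [Finset.prod_congr rfl fun i _ => h1 i, Finset.prod_pow, hx, map_pow]

/-- finite presentation of an etale algebra over `QQ` -/
private theorem fp_of_etale {k L : Type*} [NormedField k] [IsUltrametricDist k] [Field L]
    [Algebra k L] {B : Subalgebra (O k) L} {d n : ℕ} {ϖ : O k} (ψ : QQ d n ϖ →ₐ[O k] B)
    (h : ψ.toRingHom.Etale) : Algebra.FinitePresentation (O k) ↥B := by
  have h1 : ψ.toRingHom.FinitePresentation :=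
    ((RingHom.etale_iff_formallyUnramified_and_smooth _).1 h).2.finitePresentation
  let _ : Algebra (QQ d n ϖ) ↥B := ψ.toRingHom.toAlgebra
  have : IsScalarTower (O k) (QQ d n ϖ) ↥B :=
    IsScalarTower.of_algebraMap_eq fun a => (ψ.commutes a).symm
  have := finitePresentation_qq (k := k) d n ϖ
  have : Algebra.FinitePresentation (QQ d n ϖ) ↥B := h1
  exact Algebra.FinitePresentation.trans (O k) (QQ d n ϖ) ↥B

/-- transport of etale homomorphisms along an equality of subalgebras -/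
private theorem etale_transport {k L P : Type*} [NormedField k] [IsUltrametricDist k] [Field L]
    [Algebra k L] [CommRing P] [Algebra (O k) P] {B B' : Subalgebra (O k) L} (h : B = B')
    (ψ : P →ₐ[O k] B) (ψ' : P →ₐ[O k] B') (hψ : ∀ x, (ψ x : L) = ψ' x)
    (he : ψ'.toRingHom.Etale) : ψ.toRingHom.Etale := by
  subst h
  have h1 : ψ = ψ' := by
    ext x
    exact hψ x
  rw [h1]
  exact he

/-- the elements of `T` -/
private theorem exists_rel {k R L : Type*} [NormedField k] [IsUltrametricDist k] [CommRing R]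
    [Algebra k R] [Field L] [Algebra k L] {π : R →ₐ[k] L} {D : Subalgebra (O k) R} {d : ℕ}
    {ϖ : O k} (hϖ : ϖ ≠ 0) {y : Fin (d + 1) → R} (hyD : ∀ i, y i ∈ D)
    (hyprod : ∏ i, y i = algebraMap (O k) R ϖ) {t : R} (htD : t ∈ D)
    (ht : MonU (im π D) (fun i => π (y i)) (π t)) :
    ∃ (κ ρ V V' : R) (n m : Fin (d + 1) → ℕ) (e : k),
      V ∈ D ∧ V' ∈ D ∧ e ≠ 0 ∧ V * V' = 1 + κ ∧ π κ = 0 ∧ κ ∈ D ∧ π ρ = 0 ∧
      (∃ e' : k, e' ≠ 0 ∧ algebraMap k R e' * ρ ∈ D) ∧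
      t * (∏ i, y i ^ n i) * V' = algebraMap k R e * (∏ i, y i ^ m i) * (1 + ρ) := by
  obtain ⟨n, m, e, v, v', he, ⟨V, hV, hVv⟩, ⟨V', hV', hVv'⟩, hvv, hrel⟩ := ht
  simp only [AlgHom.coe_toRingHom, AlgHom.coe_restrictScalars'] at hVv hVv'
  obtain ⟨m', N, hN⟩ := exists_compl hyprod m
  have hϖk : ((ϖ ^ N : O k) : k) ≠ 0 := by
    have h1 : (ϖ ^ N : O k) ≠ 0 := pow_ne_zero _ hϖ
    exact fun h0 => h1 (Subtype.ext h0)
  have hNk : (∏ i, y i ^ m i) * (∏ i, y i ^ m' i) = algebraMap k R ((ϖ ^ N : O k) : k) := hN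
  set w : k := ((ϖ ^ N : O k) : k) with hw
  have hprod : ∀ n : Fin (d + 1) → ℕ, ∏ i, y i ^ n i ∈ D := fun n =>
    Subalgebra.prod_mem _ fun i _ => Subalgebra.pow_mem _ (hyD i) _
  set X : R := (∏ i, y i ^ m' i) * (t * (∏ i, y i ^ n i) * V') with hX
  have hXD : X ∈ D := D.mul_mem (hprod _) (D.mul_mem (D.mul_mem htD (hprod _)) hV')
  set ρ : R := algebraMap k R (e⁻¹ * w⁻¹) * X - 1 with hρ
  have h3 : π X = algebraMap k L (w * e) := by
    have h4 : (∏ i, π (y i) ^ m i) * (∏ i, π (y i) ^ m' i) = algebraMap k L w := by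
      have := congrArg π hNk
      rw [map_mul, map_prod, map_prod, AlgHom.commutes] at this
      simpa only [map_pow] using this
    have h5 : π X = (∏ i, π (y i) ^ m' i) * (π t * (∏ i, π (y i) ^ n i) * v') := by
      rw [hX, map_mul, map_mul, map_mul, map_prod, map_prod]
      simp only [map_pow]
      rw [← hVv']
    rw [h5, hrel, map_mul, ← h4]
    calc (∏ i, π (y i) ^ m' i) * (algebraMap k L e * (∏ i, π (y i) ^ m i) * v * v')
        = (∏ i, π (y i) ^ m i) * (∏ i, π (y i) ^ m' i) * algebraMap k L e * (v * v') := by ring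
      _ = _ := by rw [hvv, mul_one]
  refine ⟨V * V' - 1, ρ, V, V', n, m, e, hV, hV', he, by ring, ?_, ?_, ?_, ?_, ?_⟩
  · rw [map_sub, map_mul, map_one]
    have h6 : π V = v := hVv
    have h7 : π V' = v' := hVv'
    rw [h6, h7, hvv, sub_self]
  · exact D.sub_mem (D.mul_mem hV hV') D.one_mem
  · rw [hρ, map_sub, map_mul, map_one, AlgHom.commutes, h3, ← map_mul]
    have h8 : e⁻¹ * w⁻¹ * (w * e) = 1 := by field_simp
    rw [h8, map_one, sub_self]
  · obtain ⟨a, b, ha, hab⟩ := exists_scale e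
    have ha' : (a : k) ≠ 0 := fun h0 => ha (Subtype.ext h0)
    refine ⟨a * (e * w), mul_ne_zero ha' (mul_ne_zero he hϖk), ?_⟩
    have h9 : algebraMap k R (a * (e * w)) * ρ =
        algebraMap (O k) R a * X - algebraMap (O k) R (b * ϖ ^ N) := by
      have h10 : algebraMap (O k) R a = algebraMap k R (a : k) := rfl
      have h11 : algebraMap (O k) R (b * ϖ ^ N) = algebraMap k R (a * e * w) := by
        rw [hab, hw]
        rfl
      rw [h10, h11, hρ, mul_sub, mul_one, ← mul_assoc, ← map_mul, ← mul_assoc (a : k) e w]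
      congr 3
      field_simp
    rw [h9]
    exact D.sub_mem (D.mul_mem (D.algebraMap_mem _) hXD) (D.algebraMap_mem _)
  · rw [hρ, add_sub_cancel]
    calc t * (∏ i, y i ^ n i) * V'
        = algebraMap k R (e * (e⁻¹ * w⁻¹) * w) * (t * (∏ i, y i ^ n i) * V') := by
          have h12 : e * (e⁻¹ * w⁻¹) * w = 1 := by field_simp
          rw [h12, map_one, one_mul]
      _ = algebraMap k R e * algebraMap k R (e⁻¹ * w⁻¹) * algebraMap k R w *
          (t * (∏ i, y i ^ n i) * V') := by rw [map_mul, map_mul]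
      _ = _ := by rw [← hNk, hX]; ring

section
variable {k R K L : Type v} [NontriviallyNormedField k] [IsUltrametricDist k] [CommRing R]
  [IsDomain R] [Algebra k R] [Field K] [Algebra k K] [Algebra R K] [IsScalarTower k R K]
  [IsFractionRing R K] [Field L] [Algebra k L] {π : R →ₐ[k] L}

/-- injectivity of the coordinates -/
private theorem core_inj {A D : Subalgebra (O k) R} (hA : A.FG) (hAD : A ≤ D)
    (hfrac : ∀ x : R, ∃ n ∈ A, ∃ s ∈ A, s ≠ 0 ∧ x * s = n) {c d n : ℕ} {ϖ : O k} (hϖ : ϖ ≠ 0)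
    (htr : ((d + n + c : ℕ) : Cardinal.{v}) ≤ Algebra.trdeg k K)
    (f : PP d n c ϖ →ₐ[O k] D) {r : D} (hr : r ≠ 0)
    (hun : ((algebraMap D (Localization.Away r)).comp f.toRingHom).FormallyUnramified) :
    Function.Injective f ∧ ∀ x : D, ∃ p : Polynomial (PP d n c ϖ), p ≠ 0 ∧
      p.eval₂ f.toRingHom x = 0 := by
  have _ : IsFractionRing D K := isFractionRing_of_le hAD hfrac
  have _ : IsScalarTower (O k) D K :=
    IsScalarTower.of_algebraMap_eq fun a => IsScalarTower.algebraMap_apply k R K (a : k)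
  let F : PP d n c ϖ →ₐ[O k] K := (IsScalarTower.toAlgHom (O k) D K).comp f
  have hF : ∀ x, F x = algebraMap D K (f x) := fun x => rfl
  have hKfg : (⊤ : IntermediateField k K).FG := fg_of_frac (R := R) hA hfrac
  have halg : Algebra.IsAlgebraic (IntermediateField.adjoin k (Set.range (fam F))) K :=
    alg_of_unramified hKfg f.toRingHom hr hun _ (fun x => mem_adjoin_fam hϖ F x)
  have hind : AlgebraicIndependent k (fam F) := by
    refine indep_of_trdeg _ ?_ halg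
    refine le_trans (le_of_eq ?_) htr
    simp only [Fintype.card_sum, Fintype.card_fin]
    rw [add_assoc]
  have hinj : Function.Injective F := injective_of_fam hϖ F hind
  have hDK : Function.Injective (algebraMap D K) := IsFractionRing.injective D K
  refine ⟨fun x y hxy => hinj (by rw [hF, hF, hxy]), fun x => ?_⟩
  obtain ⟨p, hp0, hp⟩ := exists_poly F (x := algebraMap D K x)
    (halg.isAlgebraic _)
  refine ⟨p, hp0, hDK ?_⟩
  rw [map_zero, ← hp, Polynomial.hom_eval₂]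
  rfl

/-- Core (lifting charts from the support). -/
theorem lift_core (hπ : Res π) {A : Subalgebra (O k) R} (hA : A.FG)
    (hfrac : ∀ x : R, ∃ n ∈ A, ∃ s ∈ A, π s ≠ 0 ∧ x * s = n) {c : ℕ}
    (htr : Algebra.trdeg k K = Algebra.trdeg k L + c) {g : Fin c → R} (hg : ∀ l, g l ∈ A)
    (hg0 : ∀ l, π (g l) = 0) {h : R} (hh : h ∈ A)
    (hgh : ∀ a ∈ A, π a = 0 → ∃ e : k, e ≠ 0 ∧ ∃ b : Fin c → R, (∀ l, b l ∈ A) ∧
      algebraMap k R e * (h * a) = ∑ l, b l * g l)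
    {B : Subalgebra (O k) L} (hB : Adm (im π A) B) (hBfg : B.FG)
    (hhB : ∃ s ∈ B, ∃ c₀ : k, c₀ ≠ 0 ∧ π h * s = algebraMap k L c₀) {d : ℕ} {ϖ : O k}
    (hϖ : ϖ ≠ 0) (hϖ1 : ‖(ϖ : k)‖ < 1) (φ : SS d ϖ →ₐ[O k] B) (hsm : φ.toRingHom.Smooth)
    (q : Ideal B) [q.IsPrime] (T : Finset R) (hTA : ∀ t ∈ T, t ∈ A)
    (hTB : ∀ t ∈ T, MonU B (fun i => (φ (SS.x i) : L)) (π t)) :
    ∃ D : Subalgebra (O k) R, D.FG ∧ Adm A D ∧
      (∀ x ∈ D, ∃ b : B, b ∉ q ∧ (b : L) * π x ∈ B) ∧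
      ∃ φ' : SS d ϖ →ₐ[O k] D, φ'.toRingHom.Smooth ∧ (∀ x, π (φ' x) = φ x) ∧
        ∀ t ∈ T, MonU D (fun i => (φ' (SS.x i) : R)) t := by
  classical
  have hfrac' : ∀ x : R, ∃ n ∈ A, ∃ s ∈ A, s ≠ 0 ∧ x * s = n := by
    intro x
    obtain ⟨n, hn, s, hs, hs0, hx⟩ := hfrac x
    exact ⟨n, hn, s, hs, fun h0 => hs0 (by rw [h0, map_zero]), hx⟩
  -- etale coordinates
  obtain ⟨b₁, hb₁, n, ψ, hψet, hψC⟩ := exists_coord φ hsm q
  have hb₁0 : (b₁ : L) ≠ 0 := fun h0 => hb₁ (by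
    have : b₁ = 0 := Subtype.ext h0
    rw [this]
    exact q.zero_mem)
  have hBB₁ : Adm B (adj1 B (b₁ : L)⁻¹) := Adm.adj1 b₁.2 (mul_inv_cancel₀ hb₁0)
  have hle₁ : B ≤ adj1 B (b₁ : L)⁻¹ := le_adj1 _ _
  obtain ⟨s₀, hs₀, c₀, hc₀, hsc₀⟩ := hhB
  -- the lift
  obtain ⟨D₁, hD₁, hAD₁, himD₁, ⟨h', hh', hhh⟩, ψ₁, hψ₁⟩ := exists_lift hπ hA (hB.trans hBB₁)
    (fg_adj1 hBfg _) hh ⟨s₀, hle₁ hs₀, c₀, hc₀, hsc₀⟩ hϖ ψ
  have hfp : Algebra.FinitePresentation (O k) ↥(im π D₁) := by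
    rw [himD₁]
    exact fp_of_etale ψ hψet
  -- the coordinates in `D₁`
  set y : Fin (d + 1) → R := fun i => (ψ₁ (MvPolynomial.C (SS.x i)) : R) with hy
  have hyD : ∀ i, y i ∈ D₁ := fun i => (ψ₁ _).2
  have hyπ : ∀ i, π (y i) = φ (SS.x i) := fun i => by rw [hy, hψ₁, hψC]
  have hyprod : ∏ i, y i = algebraMap (O k) R ϖ := by
    have h1 : ∏ i, y i = ((ψ₁ (MvPolynomial.C (∏ i, SS.x i)) : D₁) : R) := by
      rw [map_prod, map_prod]
      push_cast
      rfl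
    rw [h1, SS.prod_x]
    have h2 : (MvPolynomial.C (algebraMap (O k) (SS d ϖ) ϖ) : QQ d n ϖ) =
      algebraMap (O k) (QQ d n ϖ) ϖ := rfl
    rw [h2, ψ₁.commutes]
    rfl
  -- the elements of `T`
  have hT : ∀ t : R, ∃ (κ ρ V V' : R) (n m : Fin (d + 1) → ℕ) (e : k), t ∈ T →
      V ∈ D₁ ∧ V' ∈ D₁ ∧ e ≠ 0 ∧ V * V' = 1 + κ ∧ π κ = 0 ∧ κ ∈ D₁ ∧ π ρ = 0 ∧
      (∃ e' : k, e' ≠ 0 ∧ algebraMap k R e' * ρ ∈ D₁) ∧
      t * (∏ i, y i ^ n i) * V' = algebraMap k R e * (∏ i, y i ^ m i) * (1 + ρ) := by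
    intro t
    by_cases ht : t ∈ T
    · have h1 : MonU (im π D₁) (fun i => π (y i)) (π t) := by
        obtain ⟨n, m, e, v, v', he, hv, hv', hvv, hrel⟩ := hTB t ht
        rw [himD₁]
        refine ⟨n, m, e, v, v', he, hle₁ hv, hle₁ hv', hvv, ?_⟩
        simp only [hyπ]
        exact hrel
      obtain ⟨κ, ρ, V, V', n, m, e, h2⟩ := exists_rel hϖ hyD hyprod (hAD₁.1 (hTA t ht)) h1
      exact ⟨κ, ρ, V, V', n, m, e, fun _ => h2⟩
    · exact ⟨0, 0, 0, 0, 0, 0, 0, fun h => absurd h ht⟩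
  choose! κ ρ V V' n' m' e hT using hT
  set E : Finset R := T.image ρ ∪ T.image κ with hE
  obtain ⟨D₂, z, hD₂, hD₁₂, himD₂, hz, hker, hED₂⟩ := exists_z hD₁ hfp
    (fun l => hAD₁.1 (hg l)) hg0
    (fun x hx hx0 => exists_const hAD₁ hh' hhh hgh hx hx0) E (by
      intro x hx
      rw [hE, Finset.mem_union, Finset.mem_image, Finset.mem_image] at hx
      rcases hx with ⟨t, ht, rfl⟩ | ⟨t, ht, rfl⟩
      · obtain ⟨-, -, -, -, -, -, h1, h2, -⟩ := hT t ht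
        exact ⟨h1, h2⟩
      · obtain ⟨-, -, -, -, h1, h2, -, -, -⟩ := hT t ht
        exact ⟨h1, 1, one_ne_zero, by rwa [map_one, one_mul]⟩)
  have hAD₂ : Adm A D₂ := hAD₁.trans hD₁₂
  have himB : im π D₂ = adj1 B (b₁ : L)⁻¹ := himD₂.trans himD₁
  let ψ₂ : QQ d n ϖ →ₐ[O k] D₂ := (Subalgebra.inclusion hD₁₂.1).comp ψ₁
  have hψ₂ : ∀ x, (ψ₂ x : R) = ψ₁ x := fun _ => rfl
  have het : ((toIm π D₂).comp ψ₂).toRingHom.Etale :=
    etale_transport himB _ ψ (fun x => hψ₁ x) hψet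
  obtain ⟨r, hr, hun⟩ := exists_r hD₂ ψ₂ z hz hker het
  have _ := isDomain_ss (k := k) d hϖ
  have _ := isIntegrallyClosed_pp (k := k) d n c hϖ hϖ1
  have hr0 : r ≠ 0 := fun h0 => by
    rw [h0] at hr
    have h1 : π ((0 : D₂) : R) = 0 := map_zero π
    rw [h1] at hr
    exact zero_ne_one hr
  -- the transcendence degree
  have htr' : ((d + n + c : ℕ) : Cardinal.{v}) ≤ Algebra.trdeg k K := by
    let F₀ : QQ d n ϖ →ₐ[O k] L := (adj1 B (b₁ : L)⁻¹).val.comp ψ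
    have hF₀ : Function.Injective F₀ := fun x x' hxx =>
      injective_of_etale ψ.toRingHom hψet (Subtype.ext hxx)
    have h1 := card_le_trdeg (algebraicIndependent_fam hϖ F₀ hF₀)
    rw [Fintype.card_sum, Fintype.card_fin, Fintype.card_fin] at h1
    rw [htr, Nat.cast_add]
    exact add_le_add_left h1 _
  obtain ⟨hinj, halg⟩ := core_inj hA hAD₂.1 hfrac' hϖ htr' (ext ψ₂ z) hr0 hun
  have hft : (ext ψ₂ z).toRingHom.FiniteType := by
    have h1 : Algebra.FiniteType (O k) ↥D₂ := Subalgebra.fg_iff_finiteType _ |>.1 hD₂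
    have h2 : ((ext ψ₂ z).toRingHom.comp (algebraMap (O k) (PP d n c ϖ))).FiniteType := by
      have h3 : (ext ψ₂ z).toRingHom.comp (algebraMap (O k) (PP d n c ϖ)) =
          algebraMap (O k) ↥D₂ := (ext ψ₂ z).comp_algebraMap
      rw [h3]
      exact RingHom.finiteType_algebraMap.2 h1
    exact h2.of_comp_finiteType
  -- the prime ideal
  obtain ⟨q₁, hq₁, hq₁s⟩ := exists_prime q hb₁
  have hθ : ∀ x : D₂, π x ∈ adj1 B (b₁ : L)⁻¹ := fun x => by
    rw [← himB]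
    exact ⟨x, x.2, rfl⟩
  let θ : D₂ →ₐ[O k] ↥(adj1 B (b₁ : L)⁻¹) :=
    ((π.restrictScalars (O k)).comp D₂.val).codRestrict _ hθ
  have hθc : ∀ x : D₂, (θ x : L) = π x := fun _ => rfl
  have hθ1 : ∀ x : D₂, π x = 1 → θ x = 1 := fun x hx => Subtype.ext hx
  have hrq : r ∉ q₁.comap θ.toRingHom := fun h0 => by
    rw [Ideal.mem_comap] at h0
    have h1 : θ.toRingHom r = 1 := hθ1 r hr
    rw [h1] at h0
    exact hq₁.ne_top ((Ideal.eq_top_iff_one _).2 h0)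
  obtain ⟨b₂, hb₂, hβ⟩ := exists_etale2 (ext ψ₂ z).toRingHom hinj hft halg
    (q₁.comap θ.toRingHom) hrq hun
  have hb₂' : θ b₂ ∉ q₁ := hb₂
  have hπb₂ : π b₂ ≠ 0 := fun h0 => hb₂' (by
    have h1 : θ b₂ = 0 := Subtype.ext h0
    rw [h1]
    exact q₁.zero_mem)
  -- the units
  have hκρ : ∀ t ∈ T, κ t ∈ D₂ ∧ ρ t ∈ D₂ := fun t ht =>
    ⟨hED₂ _ (Finset.mem_union_right _ (Finset.mem_image_of_mem _ ht)),
      hED₂ _ (Finset.mem_union_left _ (Finset.mem_image_of_mem _ ht))⟩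
  let κρ : R → D₂ := fun t => if ht : t ∈ T then
    (1 + ⟨κ t, (hκρ t ht).1⟩) * (1 + ⟨ρ t, (hκρ t ht).2⟩) else 1
  have hκρ1 : ∀ t, π (κρ t) = 1 := fun t => by
    by_cases ht : t ∈ T
    · obtain ⟨-, -, -, -, h1, -, h2, -, -⟩ := hT t ht
      have h3 : (κρ t : R) = (1 + κ t) * (1 + ρ t) := by
        simp only [κρ, dif_pos ht]
        rfl
      rw [h3, map_mul, map_add, map_add, map_one, h1, h2, add_zero, mul_one]
    · have h3 : (κρ t : R) = 1 := by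
        simp only [κρ, dif_neg ht]
        rfl
      rw [h3, map_one]
  let β : D₂ := ∏ t ∈ T, κρ t
  have hβ1 : π β = 1 := by
    have h1 : (β : R) = ∏ t ∈ T, (κρ t : R) := by
      simp only [β]
      push_cast
      rfl
    rw [h1, map_prod]
    exact Finset.prod_eq_one fun t _ => hκρ1 t
  have hun' : IsUnit ((b₂ * β : D₂) : R) := hπ.unit _ (by
    have h1 : π ((b₂ * β : D₂) : R) = π b₂ * π β := map_mul π _ _
    rw [h1, hβ1, mul_one]
    exact hπb₂)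
  obtain ⟨t', ht'⟩ := hun'.exists_right_inv
  have hDet := etale_adj1 D₂ (ext ψ₂ z).toRingHom (b₂ * β) ht' (hβ β)
  have hle₂ : D₂ ≤ adj1 D₂ t' := le_adj1 _ _
  -- inverses
  have hinv : ∀ w w' : D₂, w * w' = β → ∃ w'' ∈ adj1 D₂ t', (w : R) * w'' = 1 := by
    intro w w' hww
    refine ⟨w' * b₂ * t', Subalgebra.mul_mem _ (Subalgebra.mul_mem _ (hle₂ w'.2) (hle₂ b₂.2))
      (mem_adj1 _ _), ?_⟩
    have h1 : (w : R) * w' = β := congrArg Subtype.val hww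
    have h2 : ((b₂ * β : D₂) : R) = b₂ * β := rfl
    rw [h2, ← h1] at ht'
    rw [← ht']
    ring
  refine ⟨adj1 D₂ t', fg_adj1 hD₂ _, hAD₂.trans (Adm.adj1 (b₂ * β).2 ht'), ?_, ?_⟩
  · intro x hx
    let _ := (Subalgebra.inclusion (le_adj1 D₂ t')).toRingHom.toAlgebra
    have hloc : IsLocalization.Away (b₂ * β) ↥(adj1 D₂ t') := loc_adj1 D₂ (b₂ * β) ht'
    obtain ⟨N, a, ha⟩ := IsLocalization.Away.surj (b₂ * β) (⟨x, hx⟩ : ↥(adj1 D₂ t'))
    have ha' : x * ((b₂ * β : D₂) : R) ^ N = a := congrArg Subtype.val ha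
    have ha'' : π x * π b₂ ^ N = π a := by
      rw [← ha', map_mul, map_pow]
      have h1 : π ((b₂ * β : D₂) : R) = π b₂ * π β := map_mul π _ _
      rw [h1, hβ1, mul_one]
    obtain ⟨s₁, a₁, hs₁, hsa₁, ha₁⟩ := hq₁s (θ b₂ ^ N)
    obtain ⟨s₂, a₂, hs₂, hsa₂, -⟩ := hq₁s (θ a)
    have ha₁' : a₁ ∉ q := ha₁ fun h0 => hb₂' (hq₁.mem_of_pow_mem _ h0)
    refine ⟨a₁ * s₂, fun h0 => ?_, ?_⟩
    · rcases (inferInstance : q.IsPrime).mem_or_mem h0 with h0 | h0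
      · exact ha₁' h0
      · exact hs₂ h0
    · have h2 : ((a₁ * s₂ : B) : L) * π x = ((s₁ * a₂ : B) : L) := by
        have h3 : ((θ b₂ ^ N : ↥(adj1 B (b₁ : L)⁻¹)) : L) = π b₂ ^ N := rfl
        rw [h3] at hsa₁
        rw [hθc] at hsa₂
        push_cast
        rw [← hsa₁, ← hsa₂, ← ha'']
        ring
      rw [h2]
      exact (s₁ * a₂).2
  · -- the chart
    let φ' : SS d ϖ →ₐ[O k] ↥(adj1 D₂ t') := (Subalgebra.inclusion hle₂).comp
      ((ext ψ₂ z).comp (IsScalarTower.toAlgHom (O k) (SS d ϖ) (PP d n c ϖ)))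
    have hφ' : ∀ x, (φ' x : R) = ψ₁ (MvPolynomial.C x) := fun x => by
      have h1 : (φ' x : R) = (ext ψ₂ z (MvPolynomial.C x) : R) := rfl
      rw [h1, ext_C]
      rfl
    have hφ'y : ∀ i, (φ' (SS.x i) : R) = y i := fun i => hφ' _
    refine ⟨φ', ?_, fun x => ?_, fun t ht => ?_⟩
    · have h1 : (MvPolynomial.C : SS d ϖ →+* PP d n c ϖ).Smooth :=
        RingHom.smooth_algebraMap.2 ⟨inferInstance, inferInstance⟩
      have h2 := ((RingHom.etale_iff_formallyUnramified_and_smooth _).1 hDet).2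
      exact h1.comp h2
    · rw [hφ', hψ₁, hψC]
    · obtain ⟨hV, hV', he, hVV, hκ0, hκD, hρ0, -, hrel⟩ := hT t ht
      have hβt : κρ t ∣ β := Finset.dvd_prod_of_mem _ ht
      obtain ⟨w, hw⟩ := hβt
      have hκρt : κρ t = (1 + ⟨κ t, (hκρ t ht).1⟩) * (1 + ⟨ρ t, (hκρ t ht).2⟩) := by
        simp only [κρ, dif_pos ht]
      obtain ⟨κ', hκ'D, hκ'⟩ := hinv (1 + ⟨κ t, (hκρ t ht).1⟩)
        ((1 + ⟨ρ t, (hκρ t ht).2⟩) * w) (by rw [hw, hκρt, mul_assoc])
      obtain ⟨ρ', hρ'D, hρ'⟩ := hinv (1 + ⟨ρ t, (hκρ t ht).2⟩)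
        ((1 + ⟨κ t, (hκρ t ht).1⟩) * w) (by rw [hw, hκρt]; ring)
      have hκ'' : (1 + κ t) * κ' = 1 := hκ'
      have hρ'' : (1 + ρ t) * ρ' = 1 := hρ'
      have hρD : 1 + ρ t ∈ adj1 D₂ t' :=
        hle₂ (D₂.add_mem D₂.one_mem (hκρ t ht).2)
      refine ⟨n' t, m' t, e t, (1 + ρ t) * V t * κ', V' t * ρ', he,
        Subalgebra.mul_mem _ (Subalgebra.mul_mem _ hρD (hle₂ (hD₁₂.1 hV))) hκ'D,
        Subalgebra.mul_mem _ (hle₂ (hD₁₂.1 hV')) hρ'D, ?_, ?_⟩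
      · calc (1 + ρ t) * V t * κ' * (V' t * ρ')
            = ((1 + ρ t) * ρ') * ((V t * V' t) * κ') := by ring
          _ = 1 := by rw [hρ'', hVV, hκ'', one_mul]
      · simp only [hφ'y]
        calc t * ∏ i, y i ^ n' t i
            = t * (∏ i, y i ^ n' t i) * ((1 + κ t) * κ') := by rw [hκ'', mul_one]
          _ = t * (∏ i, y i ^ n' t i) * V' t * V t * κ' := by rw [← hVV]; ring
          _ = _ := by rw [hrel]; ring

end

end DS
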