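import Pool.Agent.Lib.DA.M3

/-!
# Charts at points with support of positive codimension: definitions

`k` is a nonarchimedean normed field, `O k` its valuation ring, `R` a `k`-algebra (a local domain with
residue field `L`), `π : R → L` the residue map. All models are finitely generated `O k`-subalgebras of
`R` or of `L`.
-/

namespace DS

open MP1a953e DA

section
variable {k R L : Type*} [NormedField k] [IsUltrametricDist k] [CommRing R] [Algebra k R]
  [Field L] [Algebra k L]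

/-- `D` is a ring of fractions of `A` whose denominators divide nonzero constants in `D` -/
def Adm (A D : Subalgebra (O k) R) : Prop :=
  A ≤ D ∧ ∀ x ∈ D, ∃ n ∈ A, ∃ s ∈ A, ∃ s' ∈ D, ∃ c : k, c ≠ 0 ∧ s * s' = algebraMap k R c ∧
    x * s = n

/-- `R` is a local ring with residue map `π : R → L` -/
structure Res (π : R →ₐ[k] L) : Prop where
  surj : Function.Surjective π
  unit : ∀ x, π x ≠ 0 → IsUnit x

/-- the image of the `O k`-algebra `D` in `L` -/
noncomputable def im (π : R →ₐ[k] L) (D : Subalgebra (O k) R) : Subalgebra (O k) L :=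
  D.map (π.restrictScalars (O k))

theorem mem_im {π : R →ₐ[k] L} {D : Subalgebra (O k) R} {y : L} :
    y ∈ im π D ↔ ∃ x ∈ D, π x = y := Iff.rfl

/-- the residue map on `D` -/
noncomputable def toIm (π : R →ₐ[k] L) (D : Subalgebra (O k) R) : D →ₐ[O k] im π D :=
  ((π.restrictScalars (O k)).comp D.val).codRestrict (im π D) (fun x => ⟨x, x.2, rfl⟩)

theorem coe_toIm (π : R →ₐ[k] L) (D : Subalgebra (O k) R) (x : D) :
    (toIm π D x : L) = π x := rfl

theorem toIm_surjective (π : R →ₐ[k] L) (D : Subalgebra (O k) R) :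
    Function.Surjective (toIm π D) := by
  rintro ⟨_, x, hx, rfl⟩
  exact ⟨⟨x, hx⟩, rfl⟩

/-- the `O k`-algebra generated by `D` and `t'` -/
noncomputable def adj1 (D : Subalgebra (O k) R) (t' : R) : Subalgebra (O k) R :=
  Algebra.adjoin (O k) ((D : Set R) ∪ {t'})

theorem le_adj1 (D : Subalgebra (O k) R) (t' : R) : D ≤ adj1 D t' :=
  fun _ hx => Algebra.subset_adjoin (Or.inl hx)

theorem mem_adj1 (D : Subalgebra (O k) R) (t' : R) : t' ∈ adj1 D t' :=
  Algebra.subset_adjoin (Or.inr rfl)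

/-- the semistable model ring (a copy of `DA.SSr`, which is irreducible for the search of instances) -/
def SS (d : ℕ) (ϖ : O k) : Type _ := SSr d ϖ

noncomputable instance (d : ℕ) (ϖ : O k) : CommRing (SS d ϖ) :=
  inferInstanceAs (CommRing (SSr d ϖ))

noncomputable instance (d : ℕ) (ϖ : O k) : Algebra (O k) (SS d ϖ) :=
  inferInstanceAs (Algebra (O k) (SSr d ϖ))

/-- the coordinates -/
noncomputable def SS.x {d : ℕ} {ϖ : O k} (i : Fin (d + 1)) : SS d ϖ :=
  (SSr.x i : SSr d ϖ)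

/-- the identification with `DA.SSr` -/
noncomputable def SS.equiv (d : ℕ) (ϖ : O k) : SSr d ϖ ≃ₐ[O k] SS d ϖ :=
  { toFun := fun x => x
    invFun := fun x => x
    left_inv := fun _ => rfl
    right_inv := fun _ => rfl
    map_mul' := fun _ _ => rfl
    map_add' := fun _ _ => rfl
    commutes' := fun _ => rfl }

theorem SS.equiv_x {d : ℕ} {ϖ : O k} (i : Fin (d + 1)) :
    SS.equiv d ϖ (SSr.x i) = SS.x i := rfl

/-- the quotient map -/
noncomputable def SS.mk (d : ℕ) (ϖ : O k) : MvPolynomial (Fin (d + 1)) (O k) →ₐ[O k] SS d ϖ :=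
  (SS.equiv d ϖ).toAlgHom.comp (Ideal.Quotient.mkₐ (O k) _)

theorem SS.mk_X {d : ℕ} {ϖ : O k} (i : Fin (d + 1)) :
    SS.mk d ϖ (MvPolynomial.X i) = SS.x i := rfl

theorem SS.mk_surjective (d : ℕ) (ϖ : O k) : Function.Surjective (SS.mk d ϖ) :=
  (SS.equiv d ϖ).surjective.comp (Ideal.Quotient.mkₐ_surjective (O k) _)

theorem SS.ker_mk (d : ℕ) (ϖ : O k) : RingHom.ker (SS.mk d ϖ) = Ideal.span
    {(∏ i, MvPolynomial.X i - MvPolynomial.C ϖ : MvPolynomial (Fin (d + 1)) (O k))} := by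
  ext x
  rw [RingHom.mem_ker, ← Ideal.Quotient.eq_zero_iff_mem]
  exact Iff.rfl

theorem SS.prod_x (d : ℕ) (ϖ : O k) : ∏ i, (SS.x i : SS d ϖ) = algebraMap (O k) (SS d ϖ) ϖ := by
  have h : SS.mk d ϖ (∏ i, MvPolynomial.X i - MvPolynomial.C ϖ) = 0 := by
    rw [← RingHom.mem_ker, SS.ker_mk]
    exact Ideal.subset_span rfl
  rw [map_sub, map_prod, sub_eq_zero] at h
  simp only [SS.mk_X] at h
  rw [h]
  exact (SS.mk d ϖ).commutes ϖ

/-- homomorphisms from the semistable model are given by elements with product `ϖ` -/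
noncomputable def SS.lift {D : Type*} [CommRing D] [Algebra (O k) D] {d : ℕ} {ϖ : O k}
    (x : Fin (d + 1) → D) (hx : ∏ i, x i = algebraMap (O k) D ϖ) : SS d ϖ →ₐ[O k] D :=
  (Ideal.Quotient.liftₐ _ (MvPolynomial.aeval x) (fun a ha => by
    have h1 : Ideal.span
        {(∏ i, MvPolynomial.X i - MvPolynomial.C ϖ : MvPolynomial (Fin (d + 1)) (O k))} ≤
        RingHom.ker (MvPolynomial.aeval x : MvPolynomial (Fin (d + 1)) (O k) →ₐ[O k] D) := by
      rw [Ideal.span_le, Set.singleton_subset_iff, SetLike.mem_coe, RingHom.mem_ker]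
      rw [map_sub, map_prod, sub_eq_zero]
      simp only [MvPolynomial.aeval_X]
      rw [hx]
      exact (MvPolynomial.algHom_C _ _).symm
    exact h1 ha)).comp (SS.equiv d ϖ).symm.toAlgHom

theorem SS.lift_x {D : Type*} [CommRing D] [Algebra (O k) D] {d : ℕ} {ϖ : O k}
    (x : Fin (d + 1) → D) (hx : ∏ i, x i = algebraMap (O k) D ϖ) (i : Fin (d + 1)) :
    SS.lift x hx (SS.x i) = x i :=
  MvPolynomial.aeval_X x i

theorem SS.hom_ext {D : Type*} [CommRing D] [Algebra (O k) D] {d : ℕ} {ϖ : O k}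
    {f g : SS d ϖ →ₐ[O k] D} (h : ∀ i, f (SS.x i) = g (SS.x i)) : f = g := by
  have h1 : f.comp (SS.mk d ϖ) = g.comp (SS.mk d ϖ) := by
    apply MvPolynomial.algHom_ext
    intro i
    exact h i
  ext x
  obtain ⟨y, rfl⟩ := SS.mk_surjective d ϖ x
  exact DFunLike.congr_fun h1 y

/-- the polynomial ring in `n` variables over the semistable model -/
abbrev QQ (d n : ℕ) (ϖ : O k) : Type _ := MvPolynomial (Fin n) (SS d ϖ)

/-- the polynomial ring in `n + c` variables over the semistable model -/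
abbrev PP (d n c : ℕ) (ϖ : O k) : Type _ := MvPolynomial (Fin n ⊕ Fin c) (SS d ϖ)

/-- the homomorphism on `PP` which extends `ψ` on `QQ` and maps the last variables to `z` -/
noncomputable def ext {d n c : ℕ} {ϖ : O k} {D : Type*} [CommRing D] [Algebra (O k) D]
    (ψ : QQ d n ϖ →ₐ[O k] D) (z : Fin c → D) : PP d n c ϖ →ₐ[O k] D :=
  { MvPolynomial.eval₂Hom (ψ.toRingHom.comp (MvPolynomial.C : SS d ϖ →+* QQ d n ϖ))
      (Sum.elim (fun i => ψ (MvPolynomial.X i)) z) with
    commutes' := fun a => by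
      simp only [RingHom.toMonoidHom_eq_coe, OneHom.toFun_eq_coe, MonoidHom.toOneHom_coe,
        MonoidHom.coe_coe]
      have h1 : algebraMap (O k) (PP d n c ϖ) a =
          MvPolynomial.C (algebraMap (O k) (SS d ϖ) a) := rfl
      rw [h1, MvPolynomial.coe_eval₂Hom, MvPolynomial.eval₂_C]
      exact ψ.commutes a }

theorem ext_C {d n c : ℕ} {ϖ : O k} {D : Type*} [CommRing D] [Algebra (O k) D]
    (ψ : QQ d n ϖ →ₐ[O k] D) (z : Fin c → D) (a : SS d ϖ) :
    ext ψ z (MvPolynomial.C a) = ψ (MvPolynomial.C a) :=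
  MvPolynomial.eval₂_C _ _ _

theorem ext_inl {d n c : ℕ} {ϖ : O k} {D : Type*} [CommRing D] [Algebra (O k) D]
    (ψ : QQ d n ϖ →ₐ[O k] D) (z : Fin c → D) (i : Fin n) :
    ext ψ z (MvPolynomial.X (Sum.inl i)) = ψ (MvPolynomial.X i) :=
  MvPolynomial.eval₂_X _ _ _

theorem ext_inr {d n c : ℕ} {ϖ : O k} {D : Type*} [CommRing D] [Algebra (O k) D]
    (ψ : QQ d n ϖ →ₐ[O k] D) (z : Fin c → D) (i : Fin c) :
    ext ψ z (MvPolynomial.X (Sum.inr i)) = z i :=
  MvPolynomial.eval₂_X _ _ _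

end

end DS
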