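import Pool.Agent.Lib.DS.Gen2
import Pool.Agent.Lib.DS.Ch1

/-!
# The final form of the charts at the points of the analytic space of a smooth variety
-/

namespace DS

open MP1a953e DA IsLocalRing

universe v

/-- the ring generated by a model over `k` is finitely generated -/
theorem finiteType_of_model {k S : Type*} [NormedField k] [IsUltrametricDist k] [CommRing S]
    [Algebra k S] {A : Subalgebra (O k) S} (hA : A.FG)
    (hAS : ∀ x : S, ∃ c : k, c ≠ 0 ∧ algebraMap k S c * x ∈ A) : Algebra.FiniteType k S := by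
  obtain ⟨s, hs⟩ := hA
  refine ⟨⟨s, ?_⟩⟩
  rw [eq_top_iff]
  intro x _
  obtain ⟨c, hc, hx⟩ := hAS x
  have h1 : A ≤ (Algebra.adjoin k (s : Set S)).restrictScalars (O k) := by
    rw [← hs]
    exact Algebra.adjoin_le Algebra.subset_adjoin
  have h2 : x = algebraMap k S c⁻¹ * (algebraMap k S c * x) := by
    rw [← mul_assoc, ← map_mul, inv_mul_cancel₀ hc, map_one, one_mul]
  rw [h2]
  exact Subalgebra.mul_mem _ (Subalgebra.algebraMap_mem _ _) (h1 hx)

/-- the residue field of a point is a finitely generated field extension -/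
theorem fg_residue {k S T L : Type v} [Field k] [CommRing S] [Algebra k S]
    [Algebra.FiniteType k S] (P : Ideal S) [P.IsPrime] [CommRing T] [Algebra k T] [Algebra S T]
    [IsScalarTower k S T] [IsLocalization.AtPrime T P] [Field L] [Algebra k L] [Algebra T L]
    [IsScalarTower k T L] (hL : Function.Surjective (algebraMap T L)) :
    (⊤ : IntermediateField k L).FG := by
  have h1 : Algebra.EssFiniteType k T :=
    (Algebra.EssFiniteType.comp_iff k S T).2 (Algebra.EssFiniteType.of_isLocalization T P.primeCompl)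
  have h2 : Algebra.FiniteType T L := Algebra.FiniteType.of_surjective (Algebra.ofId T L) hL
  have h3 : Algebra.EssFiniteType k L := Algebra.EssFiniteType.comp k T L
  have h4 : Algebra.EssFiniteType k ↥(⊤ : IntermediateField k L) :=
    Algebra.EssFiniteType.of_surjective (IntermediateField.topEquiv (F := k) (E := L)).symm.toAlgHom
      (IntermediateField.topEquiv (F := k) (E := L)).symm.surjective
  exact IntermediateField.essFiniteType_iff.1 h4

/-- a monomial up to units remains one after division by a constant -/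
theorem MonU.of_const {k R : Type*} [NormedField k] [IsUltrametricDist k] [CommRing R]
    [Algebra k R] {D : Subalgebra (O k) R} {d : ℕ} {x : Fin (d + 1) → R} {t : R} {c : k}
    (hc : c ≠ 0) (h : MonU D x (algebraMap k R c * t)) : MonU D x t := by
  obtain ⟨n, m, e, v, v', he, hv, hv', hvv, hrel⟩ := h
  refine ⟨n, m, c⁻¹ * e, v, v', mul_ne_zero (inv_ne_zero hc) he, hv, hv', hvv, ?_⟩
  calc t * ∏ i, x i ^ n i = algebraMap k R c⁻¹ * (algebraMap k R c * t * ∏ i, x i ^ n i) := by
        rw [← mul_assoc, ← mul_assoc, ← map_mul, inv_mul_cancel₀ hc, map_one, one_mul]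
    _ = _ := by rw [hrel, map_mul]; ring

/-- Charts at the point `(P, V)` of the analytic space of `S`, in the model `A`, with
monomialization of a finite subset of `S ∖ P`. -/
theorem charts_at' {k S T L : Type v} [NontriviallyNormedField k] [IsUltrametricDist k]
    [IsAlgClosed k] [CommRing S] [IsDomain S] [Algebra k S] (P : Ideal S)
    [P.IsPrime] [CommRing T] [Algebra k T] [Algebra S T] [IsScalarTower k S T]
    [IsLocalization.AtPrime T P] [Algebra.FormallySmooth k T] [Field L] [Algebra k L]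
    [Algebra T L] [IsScalarTower k T L] (hL : Function.Surjective (algebraMap T L))
    (A : Subalgebra (O k) S) (hA : A.FG) (hAS : ∀ x : S, ∃ c : k, c ≠ 0 ∧ c • x ∈ A)
    {V : ValuationSubring L} {d : ℕ} (hV : Charts k V d) (hpt : Pt k V)
    (hAV : ∀ a ∈ A, algebraMap T L (algebraMap S T a) ∈ V) (E : Finset S)
    (hEP : ∀ t ∈ E, t ∉ P) :
    ∃ (n : ℕ) (f : Fin (n + 1) → S), (∀ i, f i ∈ A) ∧ f 0 ∉ P ∧
      (∃ i, ∃ c : O k, c ≠ 0 ∧ f i = algebraMap (O k) S c) ∧
      (∀ x ∈ chart T A f, algebraMap T L x ∈ V) ∧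
      ∃ ϖ : O k, ϖ ≠ 0 ∧ ‖(ϖ : k)‖ < 1 ∧
        ∃ φ : SS d ϖ →ₐ[O k] ↥(chart T A f), φ.toRingHom.Smooth ∧
        (∀ i, V.valuation (algebraMap T L (φ (SS.x i))) < 1) ∧
        ∀ t ∈ E, MonU (chart T A f) (fun i => (φ (SS.x i) : T)) (algebraMap S T t) := by
  classical
  have hAS' : ∀ x : S, ∃ c : k, c ≠ 0 ∧ algebraMap k S c * x ∈ A := fun x => by
    obtain ⟨c, hc, h⟩ := hAS x
    exact ⟨c, hc, by rwa [← Algebra.smul_def]⟩
  have hft := finiteType_of_model hA hAS'
  choose c hc hcA using hAS'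
  obtain ⟨n, f, hf, hf0, hfc, hV', ϖ, hϖ, hϖ1, φ, hφ, hφV, hφE⟩ := charts_at P hL A hA
    (fun x => ⟨c x, hc x, hcA x⟩) hV hpt hAV (E.image fun x => algebraMap k S (c x) * x) (by
      intro t ht
      obtain ⟨x, -, rfl⟩ := Finset.mem_image.1 ht
      exact hcA x) (by
      intro t ht h0
      obtain ⟨x, hx, rfl⟩ := Finset.mem_image.1 ht
      rcases (inferInstance : P.IsPrime).mem_or_mem h0 with h0 | h0
      · exact (inferInstance : P.IsPrime).ne_top (Ideal.eq_top_of_isUnit_mem _ h0
          ((IsUnit.mk0 (c x) (hc x)).map (algebraMap k S)))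
      · exact hEP x hx h0)
  refine ⟨n, f, hf, hf0, hfc, hV', ϖ, hϖ, hϖ1, φ, hφ, hφV, fun t ht => ?_⟩
  have h1 := hφE _ (Finset.mem_image_of_mem _ ht)
  rw [map_mul, ← IsScalarTower.algebraMap_apply] at h1
  exact h1.of_const (hc t)

/-- the unit ball as a valuation ring -/
noncomputable def nball (L : Type*) [NormedField L] [IsUltrametricDist L] : ValuationSubring L where
  toSubring := O L
  mem_or_inv_mem' x := by
    rcases le_or_gt ‖x‖ 1 with h | h
    · exact Or.inl (mem_O.2 h)
    · refine Or.inr (mem_O.2 ?_)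
      rw [norm_inv]
      exact inv_le_one_of_one_le₀ h.le

theorem mem_nball {L : Type*} [NormedField L] [IsUltrametricDist L] {x : L} :
    x ∈ nball L ↔ ‖x‖ ≤ 1 := mem_O

theorem nball_lt {L : Type*} [NormedField L] [IsUltrametricDist L] {x : L} :
    (nball L).valuation x < 1 ↔ ‖x‖ < 1 := by
  rcases eq_or_ne x 0 with rfl | h0
  · simp
  have h1 : (nball L).valuation x < 1 ↔ ¬ x⁻¹ ∈ nball L := by
    rw [← (nball L).valuation_le_one_iff, map_inv₀, not_le, one_lt_inv₀]
    exact zero_lt_iff.2 (by simpa using h0)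
  rw [h1, mem_nball, norm_inv, not_le, one_lt_inv₀ (norm_pos_iff.2 h0)]

theorem pt_nball {k L : Type*} [NontriviallyNormedField k] [IsUltrametricDist k] [NormedField L]
    [IsUltrametricDist L] [NormedAlgebra k L] : Pt k (nball L) := by
  refine ⟨fun c => by rw [mem_nball, norm_algebraMap'], fun x => ?_⟩
  obtain ⟨c, hc⟩ := NormedField.exists_lt_norm k ‖x‖
  have hc0 : c ≠ 0 := by
    rintro rfl
    rw [norm_zero] at hc
    exact absurd (norm_nonneg x) (not_le.2 hc)
  refine ⟨c⁻¹, inv_ne_zero hc0, ?_⟩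
  rw [mem_nball, norm_mul, norm_algebraMap', norm_inv]
  have h1 : 0 < ‖c‖ := norm_pos_iff.2 hc0
  rw [inv_mul_le_iff₀ h1]
  linarith

end DS
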