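import Pool.Agent.Lib.DS.Defs

/-!
# Module Rg2: one denominator for the equations of the support
-/

namespace DS

open MP1a953e DA

/-- Rg2.  Proof.  Let `A_k` be the `k`-subalgebra of `R` generated by `A`; it is finitely generated, so noetherian,
and for every `y ∈ A_k` there is a constant `e ≠ 0` with `e * y ∈ A` (a sum `∑ c i * a i`, scale the
`c i ∈ k` to `O k`). The ideal `A_k ∩ ker π` is generated by `x 1, …, x s`; `e j * x j ∈ A` and
`t j * (e j * x j) ∈ ∑ A g l` with `t j ∈ A`, `π (t j) ≠ 0`. Let `h = ∏ t j`. For `a ∈ A`, `π a = 0`: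
`a = ∑ y j * x j`, `y j ∈ A_k`, `e * y j ∈ A`; so `e * ∏ e j * h * a ∈ ∑ A g l`. -/
theorem exists_h {k R L : Type*} [NontriviallyNormedField k] [IsUltrametricDist k] [CommRing R]
    [IsDomain R] [Algebra k R] [Field L] [Algebra k L] {π : R →ₐ[k] L}
    {A : Subalgebra (O k) R} (hA : A.FG) {c : ℕ} {g : Fin c → R} (hg : ∀ l, g l ∈ A)
    (hreg : ∀ a ∈ A, π a = 0 → ∃ t ∈ A, π t ≠ 0 ∧ ∃ b : Fin c → R, (∀ l, b l ∈ A) ∧
      t * a = ∑ l, b l * g l) :
    ∃ h ∈ A, π h ≠ 0 ∧ ∀ a ∈ A, π a = 0 → ∃ e : k, e ≠ 0 ∧ ∃ b : Fin c → R,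
      (∀ l, b l ∈ A) ∧ algebraMap k R e * (h * a) = ∑ l, b l * g l := by
  classical
  -- the `k`-algebra generated by `A`
  set Ak : Subalgebra k R := Algebra.adjoin k (A : Set R) with hAk
  have hAle : ∀ a ∈ A, a ∈ Ak := fun a ha => Algebra.subset_adjoin ha
  have hfg : Ak.FG := by
    obtain ⟨S, hS⟩ := hA
    refine ⟨S, ?_⟩
    refine le_antisymm (Algebra.adjoin_mono ?_) ?_
    · rw [← hS]
      exact Algebra.subset_adjoin
    · rw [hAk, Algebra.adjoin_le_iff]
      intro x hx
      rw [SetLike.mem_coe, ← hS] at hx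
      show x ∈ Algebra.adjoin k (S : Set R)
      induction hx using Algebra.adjoin_induction with
      | mem x hx => exact Algebra.subset_adjoin hx
      | algebraMap r => exact Subalgebra.algebraMap_mem _ (r : k)
      | add x y _ _ h1 h2 => exact Subalgebra.add_mem _ h1 h2
      | mul x y _ _ h1 h2 => exact Subalgebra.mul_mem _ h1 h2
  have hft : Algebra.FiniteType k Ak := Ak.fg_iff_finiteType.1 hfg
  have hnoe : IsNoetherianRing Ak := Algebra.FiniteType.isNoetherianRing k Ak
  have hmul : ∀ e1 e2 : O k, algebraMap k R ((e1 * e2 : O k) : k) =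
      algebraMap k R (e1 : k) * algebraMap k R (e2 : k) := fun e1 e2 => map_mul _ _ _
  -- denominators
  have hden : ∀ y ∈ Ak, ∃ e : O k, (e : k) ≠ 0 ∧ algebraMap k R (e : k) * y ∈ A := by
    intro y hy
    rw [hAk] at hy
    induction hy using Algebra.adjoin_induction with
    | mem x hx =>
      refine ⟨1, by simp, ?_⟩
      have h1 : algebraMap k R ((1 : O k) : k) = 1 := by simp
      rw [h1, one_mul]
      exact hx
    | algebraMap c =>
      by_cases hc : ‖c‖ ≤ 1
      · refine ⟨1, by simp, ?_⟩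
        have h1 : algebraMap k R ((1 : O k) : k) = 1 := by simp
        rw [h1, one_mul]
        exact Subalgebra.algebraMap_mem A (⟨c, mem_O.2 hc⟩ : O k)
      · push Not at hc
        have h0 : c ≠ 0 := by
          rintro rfl
          rw [norm_zero] at hc
          linarith
        have h1 : ‖c⁻¹‖ ≤ 1 := by
          rw [norm_inv]
          exact inv_le_one_of_one_le₀ hc.le
        refine ⟨⟨c⁻¹, mem_O.2 h1⟩, inv_ne_zero h0, ?_⟩
        show algebraMap k R c⁻¹ * algebraMap k R c ∈ A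
        rw [← map_mul, inv_mul_cancel₀ h0, map_one]
        exact Subalgebra.one_mem A
    | add x y _ _ h1 h2 =>
      obtain ⟨e1, he1, h1⟩ := h1
      obtain ⟨e2, he2, h2⟩ := h2
      refine ⟨e1 * e2, by push_cast; exact mul_ne_zero he1 he2, ?_⟩
      have h3 : algebraMap k R ((e1 * e2 : O k) : k) * (x + y) =
          algebraMap k R (e2 : k) * (algebraMap k R (e1 : k) * x) +
            algebraMap k R (e1 : k) * (algebraMap k R (e2 : k) * y) := by
        rw [hmul]
        ring
      rw [h3]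
      exact Subalgebra.add_mem _ (Subalgebra.mul_mem _ (Subalgebra.algebraMap_mem A e2) h1)
        (Subalgebra.mul_mem _ (Subalgebra.algebraMap_mem A e1) h2)
    | mul x y _ _ h1 h2 =>
      obtain ⟨e1, he1, h1⟩ := h1
      obtain ⟨e2, he2, h2⟩ := h2
      refine ⟨e1 * e2, by push_cast; exact mul_ne_zero he1 he2, ?_⟩
      have h3 : algebraMap k R ((e1 * e2 : O k) : k) * (x * y) =
          (algebraMap k R (e1 : k) * x) * (algebraMap k R (e2 : k) * y) := by
        rw [hmul]
        ring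
      rw [h3]
      exact Subalgebra.mul_mem _ h1 h2
  -- the ideal
  let I : Ideal Ak := RingHom.ker (π.comp Ak.val).toRingHom
  have hI : ∀ x : Ak, x ∈ I ↔ π x = 0 := fun x => Iff.rfl
  obtain ⟨S, hS⟩ : I.FG := IsNoetherian.noetherian I
  have hgen : ∀ x : Ak, ∃ t ∈ A, π t ≠ 0 ∧ (x ∈ S → ∃ e : O k, (e : k) ≠ 0 ∧
      ∃ b : Fin c → R, (∀ l, b l ∈ A) ∧
        t * (algebraMap k R (e : k) * (x : R)) = ∑ l, b l * g l) := by
    intro x
    by_cases hx : x ∈ S
    · obtain ⟨e, he, h1⟩ := hden x x.2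
      have hxI : x ∈ I := by
        rw [← hS]
        exact Submodule.subset_span hx
      have h2 : π (algebraMap k R (e : k) * (x : R)) = 0 := by
        rw [map_mul, (hI x).1 hxI, mul_zero]
      obtain ⟨t, ht, ht0, b, hb, hbs⟩ := hreg _ h1 h2
      exact ⟨t, ht, ht0, fun _ => ⟨e, he, b, hb, hbs⟩⟩
    · exact ⟨1, Subalgebra.one_mem A, by rw [map_one]; exact one_ne_zero, fun h => absurd h hx⟩
  choose t htA ht0 hte using hgen
  have hprod : ∀ T : Finset Ak, ∏ x ∈ T, t x ∈ A := fun T =>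
    Subalgebra.prod_mem A fun x _ => htA x
  refine ⟨∏ x ∈ S, t x, hprod S, ?_, ?_⟩
  · rw [map_prod]
    exact Finset.prod_ne_zero_iff.2 fun x _ => ht0 x
  -- all elements of the ideal
  have hall : ∀ x : Ak, x ∈ I → ∃ e : O k, (e : k) ≠ 0 ∧ ∃ b : Fin c → R, (∀ l, b l ∈ A) ∧
      algebraMap k R (e : k) * ((∏ x ∈ S, t x) * (x : R)) = ∑ l, b l * g l := by
    intro x hx
    rw [← hS] at hx
    induction hx using Submodule.span_induction with
    | mem x hx =>
      obtain ⟨e, he, b, hb, hbs⟩ := hte x hx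
      refine ⟨e, he, fun l => (∏ y ∈ S.erase x, t y) * b l,
        fun l => Subalgebra.mul_mem _ (hprod _) (hb l), ?_⟩
      have h1 : algebraMap k R (e : k) * ((∏ x ∈ S, t x) * (x : R)) =
          (∏ y ∈ S.erase x, t y) * (t x * (algebraMap k R (e : k) * (x : R))) := by
        rw [← Finset.mul_prod_erase S t hx]
        ring
      rw [h1, hbs, Finset.mul_sum]
      exact Finset.sum_congr rfl fun l _ => by ring
    | zero =>
      refine ⟨1, by simp, fun _ => 0, fun _ => Subalgebra.zero_mem _, ?_⟩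
      simp
    | add x y _ _ h1 h2 =>
      obtain ⟨e1, he1, b1, hb1, h1⟩ := h1
      obtain ⟨e2, he2, b2, hb2, h2⟩ := h2
      refine ⟨e1 * e2, by push_cast; exact mul_ne_zero he1 he2,
        fun l => algebraMap k R (e2 : k) * b1 l + algebraMap k R (e1 : k) * b2 l,
        fun l => Subalgebra.add_mem _ (Subalgebra.mul_mem _ (Subalgebra.algebraMap_mem A e2) (hb1 l))
          (Subalgebra.mul_mem _ (Subalgebra.algebraMap_mem A e1) (hb2 l)), ?_⟩
      have h3 : algebraMap k R ((e1 * e2 : O k) : k) * ((∏ x ∈ S, t x) * ((x + y : Ak) : R)) =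
          algebraMap k R (e2 : k) * (algebraMap k R (e1 : k) * ((∏ x ∈ S, t x) * (x : R))) +
            algebraMap k R (e1 : k) * (algebraMap k R (e2 : k) * ((∏ x ∈ S, t x) * (y : R))) := by
        rw [hmul, Subalgebra.coe_add]
        ring
      rw [h3, h1, h2, Finset.mul_sum, Finset.mul_sum, ← Finset.sum_add_distrib]
      exact Finset.sum_congr rfl fun l _ => by ring
    | smul y x _ h1 =>
      obtain ⟨e1, he1, b1, hb1, h1⟩ := h1
      obtain ⟨e2, he2, h2⟩ := hden y y.2
      refine ⟨e1 * e2, by push_cast; exact mul_ne_zero he1 he2,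
        fun l => (algebraMap k R (e2 : k) * (y : R)) * b1 l,
        fun l => Subalgebra.mul_mem _ h2 (hb1 l), ?_⟩
      have h3 : algebraMap k R ((e1 * e2 : O k) : k) * ((∏ x ∈ S, t x) * ((y • x : Ak) : R)) =
          (algebraMap k R (e2 : k) * (y : R)) *
            (algebraMap k R (e1 : k) * ((∏ x ∈ S, t x) * (x : R))) := by
        rw [smul_eq_mul, hmul, Subalgebra.coe_mul]
        ring
      rw [h3, h1, Finset.mul_sum]
      exact Finset.sum_congr rfl fun l _ => by ring
  intro a ha ha0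
  obtain ⟨e, he, b, hb, hbs⟩ := hall ⟨a, hAle a ha⟩ ((hI _).2 ha0)
  exact ⟨(e : k), he, b, hb, hbs⟩

end DS
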