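import Pool.Agent.Lib.DS.Charts
import Pool.Agent.Lib.DS.Rg2

/-!
# Lifting of charts from the support: generic form
-/

namespace DS

open MP1a953e DA

universe v

/-- generators of the support ideal with values in the model -/
private theorem gen_reg {k R L : Type*} [NormedField k] [IsUltrametricDist k] [CommRing R]
    [Algebra k R] [Field L] [Algebra k L] {π : R →ₐ[k] L} (hπ : Res π)
    {A : Subalgebra (O k) R} (hfrac : ∀ x : R, ∃ n ∈ A, ∃ s ∈ A, π s ≠ 0 ∧ x * s = n)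
    {c : ℕ} {g : Fin c → R} (hg : Ideal.span (Set.range g) = RingHom.ker π) :
    ∃ g' : Fin c → R, (∀ l, g' l ∈ A) ∧ (∀ l, π (g' l) = 0) ∧
      ∀ a ∈ A, π a = 0 → ∃ t ∈ A, π t ≠ 0 ∧ ∃ b : Fin c → R, (∀ l, b l ∈ A) ∧
      t * a = ∑ l, b l * g' l := by
  classical
  choose n hn s hs hs0 hns using hfrac
  have hg0 : ∀ l, π (g l) = 0 := fun l => by
    have h1 : g l ∈ RingHom.ker π := by
      rw [← hg]
      exact Ideal.subset_span ⟨l, rfl⟩
    exact h1
  refine ⟨fun l => n (g l), fun l => hn _, fun l => ?_, fun a ha ha0 => ?_⟩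
  · show π (n (g l)) = 0
    rw [← hns, map_mul, hg0, zero_mul]
  · have h1 : a ∈ Ideal.span (Set.range g) := by
      rw [hg]
      exact ha0
    obtain ⟨r, hr⟩ := (Ideal.mem_span_range_iff_exists_fun).1 h1
    -- `s (g l)` is a unit
    have h2 : ∀ l, ∃ w : R, s (g l) * w = 1 := fun l => (hπ.unit _ (hs0 _)).exists_right_inv
    choose w hw using h2
    have h3 : ∀ l, r l * g l = (r l * w l) * n (g l) := fun l => by
      rw [← hns]
      calc r l * g l = r l * (s (g l) * w l) * g l := by rw [hw, mul_one]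
        _ = _ := by ring
    refine ⟨∏ l, s (r l * w l), Subalgebra.prod_mem _ fun l _ => hs _, ?_,
      fun l => n (r l * w l) * ∏ j ∈ Finset.univ.erase l, s (r j * w j), fun l =>
        A.mul_mem (hn _) (Subalgebra.prod_mem _ fun l _ => hs _), ?_⟩
    · rw [map_prod]
      exact Finset.prod_ne_zero_iff.2 fun l _ => hs0 _
    · rw [← hr, Finset.mul_sum]
      refine Finset.sum_congr rfl fun l _ => ?_
      rw [h3, ← Finset.mul_prod_erase _ _ (Finset.mem_univ l)]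
      show _ = n (r l * w l) * (∏ j ∈ Finset.univ.erase l, s (r j * w j)) * n (g l)
      rw [← hns (r l * w l)]
      ring

/-- the model with the inverse of the denominator -/
private theorem exists_im {k R L : Type*} [NormedField k] [IsUltrametricDist k] [CommRing R]
    [Algebra k R] [Field L] [Algebra k L] {π : R →ₐ[k] L} (hπ : Res π)
    {A : Subalgebra (O k) R} (hA : A.FG) (hfrac : ∀ x : R, ∃ n ∈ A, ∃ s ∈ A, π s ≠ 0 ∧ x * s = n)
    {V : ValuationSubring L} (hpt : Pt k V) (hAV : ∀ a ∈ A, π a ∈ V) {h : R} (hh : h ∈ A)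
    (hh0 : π h ≠ 0) : ∃ B : Subalgebra (O k) L, B.FG ∧ Adm (im π A) B ∧ (∀ b ∈ B, b ∈ V) ∧
      IsFractionRing B L ∧ ∃ s ∈ B, ∃ c : k, c ≠ 0 ∧ π h * s = algebraMap k L c := by
  obtain ⟨c₁, hc₁, hcV⟩ := hpt.arch (π h)⁻¹
  obtain ⟨a, b, ha, hab⟩ := exists_scale c₁
  have ha' : (a : k) ≠ 0 := fun h0 => ha (Subtype.ext h0)
  have hb : b ≠ 0 := fun h0 => by
    rw [h0] at hab
    exact mul_ne_zero ha' hc₁ hab
  set y' : L := algebraMap k L (b : k) * (π h)⁻¹ with hy'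
  have hy'V : y' ∈ V := by
    have h1 : y' = algebraMap k L (a : k) * (algebraMap k L c₁ * (π h)⁻¹) := by
      rw [hy', ← hab, map_mul, mul_assoc]
    rw [h1]
    exact V.mul_mem _ _ ((hpt.const _).2 (mem_O.1 a.2)) hcV
  have hyy : π h * y' = algebraMap (O k) L b := by
    rw [hy']
    have h2 : algebraMap (O k) L b = algebraMap k L (b : k) := rfl
    rw [h2]
    field_simp
  have himA : π h ∈ im π A := ⟨h, hh, rfl⟩
  have h3 : Adm (im π A) (adj1 (im π A) y') := by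
    have h4 := Adm.adjoin himA hb hyy (W := ∅) (by simp)
    rwa [Set.union_empty] at h4
  have hfr : IsFractionRing ↥(adj1 (im π A) y') L := by
    refine isFractionRing_of_le (R := L) (K := L) h3.1 fun y => ?_
    obtain ⟨x, rfl⟩ := hπ.surj y
    obtain ⟨n, hn, s, hs, hs0, hns⟩ := hfrac x
    exact ⟨π n, ⟨n, hn, rfl⟩, π s, ⟨s, hs, rfl⟩, hs0, by rw [← hns, map_mul]⟩
  refine ⟨adj1 (im π A) y', fg_adj1 (hA.map _) _, h3, fun x hx => ?_, hfr, y', mem_adj1 _ _,
    (b : k), fun h0 => hb (Subtype.ext h0), hyy⟩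
  induction hx using Algebra.adjoin_induction with
  | mem x hx =>
    rcases hx with ⟨a, ha, rfl⟩ | hx
    · exact hAV a ha
    · rw [hx]
      exact hy'V
  | algebraMap r => exact (hpt.const _).2 (mem_O.1 r.2)
  | add x y _ _ hx hy => exact V.add_mem _ _ hx hy
  | mul x y _ _ hx hy => exact V.mul_mem _ _ hx hy

/-- Lifting of charts from the support. -/
theorem lift_charts {k R K L : Type v} [NontriviallyNormedField k] [IsUltrametricDist k]
    [CommRing R] [IsDomain R] [Algebra k R] [Field K] [Algebra k K] [Algebra R K]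
    [IsScalarTower k R K] [IsFractionRing R K] [Field L] [Algebra k L] {π : R →ₐ[k] L}
    (hπ : Res π) {A : Subalgebra (O k) R} (hA : A.FG)
    (hfrac : ∀ x : R, ∃ n ∈ A, ∃ s ∈ A, π s ≠ 0 ∧ x * s = n) {c : ℕ}
    (htr : Algebra.trdeg k K = Algebra.trdeg k L + c) {g : Fin c → R}
    (hg : Ideal.span (Set.range g) = RingHom.ker π) {V : ValuationSubring L} {d : ℕ}
    (hV : Charts k V d) (hpt : Pt k V) (hAV : ∀ a ∈ A, π a ∈ V) (T : Finset R)
    (hTA : ∀ t ∈ T, t ∈ A) (hT0 : ∀ t ∈ T, π t ≠ 0) :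
    ∃ D : Subalgebra (O k) R, D.FG ∧ Adm A D ∧ (∀ x ∈ D, π x ∈ V) ∧
      ∃ ϖ : O k, ϖ ≠ 0 ∧ ‖(ϖ : k)‖ < 1 ∧ ∃ φ : SS d ϖ →ₐ[O k] D, φ.toRingHom.Smooth ∧
        (∀ i, V.valuation (π (φ (SS.x i))) < 1) ∧
        ∀ t ∈ T, MonU D (fun i => (φ (SS.x i) : R)) t := by
  classical
  obtain ⟨g', hg', hg'0, hreg⟩ := gen_reg hπ hfrac hg
  obtain ⟨h, hh, hh0, hgh⟩ := exists_h hA hg' hreg
  obtain ⟨A₁, hA₁, hAA₁, hA₁V, hfr, s, hs, c₀, hc₀, hsc⟩ := exists_im hπ hA hfrac hpt hAV hh hh0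
  obtain ⟨B, hB, hAB, hBV, ϖ, hϖ, hϖ1, φ, hφ, hφV, hφS⟩ := hV A₁ hA₁ hA₁V hfr (T.image π) (by
    intro x hx
    obtain ⟨t, ht, rfl⟩ := Finset.mem_image.1 hx
    exact hT0 t ht)
  let j : B →+* V := (B.toSubring.subtype).codRestrict V.toSubring fun x => hBV x x.2
  set q : Ideal B := (IsLocalRing.maximalIdeal V).comap j with hq
  have hqmem : ∀ b : B, b ∉ q → V.valuation (b : L) = 1 := fun b hb => by
    rw [hq, Ideal.mem_comap, ValuationSubring.valuation_lt_one_iff, not_lt] at hb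
    exact le_antisymm ((V.valuation_le_one_iff _).2 (hBV b b.2)) hb
  have hqp : q.IsPrime := Ideal.IsPrime.comap j
  obtain ⟨D, hD, hAD, hDq, φ', hφ', hφφ, hT⟩ := lift_core hπ hA hfrac htr hg' hg'0 hh hgh
    (hAA₁.trans hAB) hB ⟨s, hAB.1 hs, c₀, hc₀, hsc⟩ hϖ hϖ1 φ hφ q T hTA
    (fun t ht => hφS (π t) (Finset.mem_image_of_mem _ ht))
  refine ⟨D, hD, hAD, fun x hx => ?_, ϖ, hϖ, hϖ1, φ', hφ', fun i => ?_, hT⟩
  · obtain ⟨b, hb, hbx⟩ := hDq x hx
    have h1 := hqmem b hb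
    rw [← V.valuation_le_one_iff] at *
    have h2 := (V.valuation_le_one_iff _).2 (hBV _ hbx)
    rw [map_mul, h1, one_mul] at h2
    exact h2
  · rw [hφφ]
    exact hφV i

end DS
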