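import Mathlib

/-!
# Module Rb: differentials of a smooth local domain
-/

namespace DS

open scoped KaehlerDifferential TensorProduct

/-- Rb.  Proof.  `Ω[R⁄k]` is projective and finitely presented (Mathlib instances in
Mathlib.RingTheory.Smooth.Basic), so free over the local ring `R`; its rank is the dimension of
`K ⊗ Ω[R⁄k]` and of `κ ⊗ Ω[R⁄k]` (`Module.finrank_baseChange`), and `K ⊗ Ω[R⁄k] ≅ Ω[K⁄k]`, because `K` is a
localization of `R` (formally etale over `R`, or
`KaehlerDifferential.isLocalizedModule` and `IsLocalizedModule` lemmas). -/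
theorem finrank_tensor_kaehler (k R K : Type*) [Field k] [CommRing R] [IsDomain R]
    [IsLocalRing R] [Algebra k R] [Algebra.EssFiniteType k R] [Algebra.FormallySmooth k R]
    [Field K] [Algebra k K] [Algebra R K] [IsScalarTower k R K] [IsFractionRing R K] :
    Module.finrank (IsLocalRing.ResidueField R) (IsLocalRing.ResidueField R ⊗[R] Ω[R⁄k]) =
      Module.finrank K (Ω[K⁄k]) := by
  have h1 : Algebra.FormallyEtale R K := Algebra.FormallyEtale.of_isLocalization (nonZeroDivisors R)
  have h2 : Module.Projective R (Ω[R⁄k]) := Algebra.FormallySmooth.projective_kaehlerDifferential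
  have h3 : Module.Free R (Ω[R⁄k]) := Module.free_of_flat_of_isLocalRing
  rw [Module.finrank_baseChange,
    ← (KaehlerDifferential.tensorKaehlerEquivOfFormallyEtale k R K).finrank_eq,
    Module.finrank_baseChange]

end DS
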