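import Mathlib

/-!
# Module Rc: the conormal sequence of the residue field
-/

namespace DS

open scoped KaehlerDifferential TensorProduct

/-- Rc.  Proof.  Let `κ` be the residue field; it is formally smooth over the perfect field `k`
(`Algebra.FormallySmooth.of_perfectField`). The sequence
`0 → m/m² → κ ⊗ Ω[R⁄k] → Ω[κ⁄k] → 0` is exact: the first map is injective by
`Algebra.FormallySmooth.iff_split_injection` (`P = R`, `A = κ`; see also
`KaehlerDifferential.exact_kerCotangentToTensor_mapBaseChange` and
`KaehlerDifferential.mapBaseChange_surjective`). The kernel of `R → κ` is the maximal ideal, and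
`RingHom.ker (algebraMap R κ)` has the cotangent space `(RingHom.ker _).Cotangent`, compare it with
`IsLocalRing.CotangentSpace R`. Dimensions over `κ` are additive; `κ ⊗ Ω[R⁄k]` is finite. -/
theorem finrank_conormal (k R : Type*) [Field k] [PerfectField k] [CommRing R] [IsLocalRing R]
    [Algebra k R] [Algebra.EssFiniteType k R] [Algebra.FormallySmooth k R] :
    Module.finrank (IsLocalRing.ResidueField R) (IsLocalRing.ResidueField R ⊗[R] Ω[R⁄k]) =
      Module.finrank (IsLocalRing.ResidueField R) (Ω[IsLocalRing.ResidueField R⁄k]) +
      Module.finrank (IsLocalRing.ResidueField R) (IsLocalRing.CotangentSpace R) := by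
  have hsurj : Function.Surjective (algebraMap R (IsLocalRing.ResidueField R)) :=
    IsLocalRing.residue_surjective
  have : Module.Finite R (IsLocalRing.ResidueField R) :=
    Module.Finite.of_surjective (Algebra.linearMap R (IsLocalRing.ResidueField R)) hsurj
  have : Algebra.EssFiniteType k (IsLocalRing.ResidueField R) :=
    Algebra.EssFiniteType.comp k R (IsLocalRing.ResidueField R)
  have : Algebra.FormallySmooth k (IsLocalRing.ResidueField R) :=
    Algebra.FormallySmooth.of_perfectField
  have hinj : Function.Injective
      (KaehlerDifferential.kerCotangentToTensor k R (IsLocalRing.ResidueField R)) :=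
    (Algebra.FormallySmooth.kerCotangentToTensor_injective_iff hsurj).mpr inferInstance
  have hg := KaehlerDifferential.mapBaseChange_surjective k R (IsLocalRing.ResidueField R) hsurj
  have hran := KaehlerDifferential.range_kerCotangentToTensor k R (IsLocalRing.ResidueField R) hsurj
  have hker : IsLocalRing.maximalIdeal R =
      RingHom.ker (algebraMap R (IsLocalRing.ResidueField R)) := by
    rw [IsLocalRing.ResidueField.algebraMap_eq, IsLocalRing.ker_residue]
  have hrn := LinearMap.finrank_range_add_finrank_ker
    (KaehlerDifferential.mapBaseChange k R (IsLocalRing.ResidueField R))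
  let e1 : IsLocalRing.CotangentSpace R ≃ₗ[R]
      (RingHom.ker (algebraMap R (IsLocalRing.ResidueField R))).Cotangent :=
    Ideal.Cotangent.equivOfEq _ _ hker
  let e2 := LinearEquiv.ofInjective _ hinj
  let e3 : (LinearMap.range (KaehlerDifferential.kerCotangentToTensor k R
      (IsLocalRing.ResidueField R))) ≃ₗ[R] ((LinearMap.ker
      (KaehlerDifferential.mapBaseChange k R (IsLocalRing.ResidueField R))).restrictScalars R) :=
    LinearEquiv.ofEq _ _ hran
  let e4 : ((LinearMap.ker
      (KaehlerDifferential.mapBaseChange k R (IsLocalRing.ResidueField R))).restrictScalars R)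
      ≃ₗ[R] (LinearMap.ker
      (KaehlerDifferential.mapBaseChange k R (IsLocalRing.ResidueField R))) :=
    LinearEquiv.refl _ _
  let e := ((e1.trans e2).trans e3).trans e4
  let e' : IsLocalRing.CotangentSpace R ≃ₗ[IsLocalRing.ResidueField R] (LinearMap.ker
      (KaehlerDifferential.mapBaseChange k R (IsLocalRing.ResidueField R))) :=
    e.extendScalarsOfSurjective hsurj
  rw [← hrn, LinearMap.range_eq_top.mpr hg, finrank_top, e'.finrank_eq]

end DS
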