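import Mathlib

/-!
# Module Rd: generators of the maximal ideal
-/

namespace DS

/-- Rd.  Proof.  Nakayama: lift a basis of the cotangent space to the maximal ideal. (Mathlib:
`IsLocalRing.CotangentSpace`, `IsLocalRing.map_mkQ_eq`-like lemmas, or
`Mathlib.RingTheory.RegularLocalRing.Defs` and `spanFinrank`.) -/
theorem exists_gens_maximalIdeal (R : Type*) [CommRing R] [IsLocalRing R] [IsNoetherianRing R] :
    ∃ g : Fin (Module.finrank (IsLocalRing.ResidueField R) (IsLocalRing.CotangentSpace R)) → R,
      Ideal.span (Set.range g) = IsLocalRing.maximalIdeal R := by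
  obtain ⟨s, hs, hs2⟩ := Submodule.FG.exists_span_finset_card_eq_spanFinrank
    (IsNoetherian.noetherian (IsLocalRing.maximalIdeal R))
  rw [IsLocalRing.spanFinrank_maximalIdeal_eq_finrank_cotangentSpace] at hs
  refine ⟨fun i => (s.equivFin.symm (Fin.cast hs.symm i) : R), Eq.trans ?_ hs2⟩
  have h1 : (Set.range fun i => (s.equivFin.symm (Fin.cast hs.symm i) : R)) = (s : Set R) := by
    ext x
    constructor
    · rintro ⟨i, rfl⟩
      exact (s.equivFin.symm (Fin.cast hs.symm i)).2
    · intro hx
      refine ⟨Fin.cast hs (s.equivFin ⟨x, hx⟩), ?_⟩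
      simp
  rw [h1]

end DS
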