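import Pool.Agent.Lib.DS.Ra
import Pool.Agent.Lib.DS.Rb
import Pool.Agent.Lib.DS.Rc
import Pool.Agent.Lib.DS.Rd

/-!
# Module Re: smooth local domains over a perfect field are regular
-/

namespace DS

open scoped KaehlerDifferential TensorProduct

universe v

/-- Re.  Combine Ra (for `K` and for the residue field), Rb, Rc, Rd. -/
theorem exists_regular (k R K : Type v) [Field k] [PerfectField k] [CommRing R] [IsDomain R]
    [IsLocalRing R] [Algebra k R] [Algebra.EssFiniteType k R] [Algebra.FormallySmooth k R]
    [Field K] [Algebra k K] [Algebra R K] [IsScalarTower k R K] [IsFractionRing R K] :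
    ∃ (c : ℕ) (g : Fin c → R), Ideal.span (Set.range g) = IsLocalRing.maximalIdeal R ∧
      Algebra.trdeg k K = Algebra.trdeg k (IsLocalRing.ResidueField R) + c := by
  have h1 : Algebra.EssFiniteType R K := Algebra.EssFiniteType.of_isLocalization K (nonZeroDivisors R)
  have h2 : Algebra.EssFiniteType k K := Algebra.EssFiniteType.comp k R K
  have h3 : Algebra.EssFiniteType k (IsLocalRing.ResidueField R) :=
    Algebra.EssFiniteType.comp k R (IsLocalRing.ResidueField R)
  have h4 : IsNoetherianRing R := Algebra.EssFiniteType.isNoetherianRing k R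
  obtain ⟨g, hg⟩ := exists_gens_maximalIdeal R
  refine ⟨_, g, hg, ?_⟩
  rw [trdeg_eq_finrank_kaehler k K, trdeg_eq_finrank_kaehler k (IsLocalRing.ResidueField R),
    ← finrank_tensor_kaehler k R K, finrank_conormal k R, Nat.cast_add]

end DS
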