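import Pool.Agent.Lib.DS.Gen
import Pool.Agent.Lib.DS.Re
import Pool.Agent.Lib.DS.Bg

/-!
# Charts at the points of the analytic space of a smooth algebra
-/

namespace DS

open MP1a953e DA

universe v

/-- The chart `A[f i / f 0]` of the blow-up of the ideal `(f 0, …, f n)` of `A`, a subalgebra of the
`S`-algebra `T` (a localization of `S` in which `f 0` is a unit) -/
noncomputable def chart {R S : Type*} (T : Type*) [CommRing R] [CommRing S] [CommRing T]
    [Algebra R S] [Algebra R T] [Algebra S T] (A : Subalgebra R S) {n : ℕ} (f : Fin (n + 1) → S) :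
    Subalgebra R T :=
  Algebra.adjoin R {x | (∃ a ∈ A, algebraMap S T a = x) ∨
    ∃ i, algebraMap S T (f 0) * x = algebraMap S T (f i)}

/-- Charts at the point `(P, V)` of the analytic space of `S`, in the model `A`; `T` is the local ring
of `S` at `P` and `L` its residue field. -/
theorem charts_at {k S T L : Type v} [NontriviallyNormedField k] [IsUltrametricDist k]
    [IsAlgClosed k] [CommRing S] [IsDomain S] [Algebra k S] [Algebra.FiniteType k S] (P : Ideal S)
    [P.IsPrime] [CommRing T] [Algebra k T] [Algebra S T] [IsScalarTower k S T]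
    [IsLocalization.AtPrime T P] [Algebra.FormallySmooth k T] [Field L] [Algebra k L]
    [Algebra T L] [IsScalarTower k T L] (hL : Function.Surjective (algebraMap T L))
    (A : Subalgebra (O k) S) (hA : A.FG)
    (hAS : ∀ x : S, ∃ c : k, c ≠ 0 ∧ algebraMap k S c * x ∈ A)
    {V : ValuationSubring L} {d : ℕ} (hV : Charts k V d) (hpt : Pt k V)
    (hAV : ∀ a ∈ A, algebraMap T L (algebraMap S T a) ∈ V) (E : Finset S)
    (hEA : ∀ t ∈ E, t ∈ A) (hEP : ∀ t ∈ E, t ∉ P) :
    ∃ (n : ℕ) (f : Fin (n + 1) → S), (∀ i, f i ∈ A) ∧ f 0 ∉ P ∧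
      (∃ i, ∃ c : O k, c ≠ 0 ∧ f i = algebraMap (O k) S c) ∧
      (∀ x ∈ chart T A f, algebraMap T L x ∈ V) ∧
      ∃ ϖ : O k, ϖ ≠ 0 ∧ ‖(ϖ : k)‖ < 1 ∧
        ∃ φ : SS d ϖ →ₐ[O k] ↥(chart T A f), φ.toRingHom.Smooth ∧
        (∀ i, V.valuation (algebraMap T L (φ (SS.x i))) < 1) ∧
        ∀ t ∈ E, MonU (chart T A f) (fun i => (φ (SS.x i) : T)) (algebraMap S T t) := by
  classical
  have hdom : IsDomain T :=
    IsLocalization.isDomain_of_le_nonZeroDivisors T P.primeCompl_le_nonZeroDivisors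
  have hlocal : IsLocalRing T := IsLocalization.AtPrime.isLocalRing T P
  have hinj : Function.Injective (algebraMap S T) :=
    IsLocalization.injective T P.primeCompl_le_nonZeroDivisors
  let π : T →ₐ[k] L := IsScalarTower.toAlgHom k T L
  have hπ : ∀ x, π x = algebraMap T L x := fun _ => rfl
  have hπker : RingHom.ker π = IsLocalRing.maximalIdeal T :=
    IsLocalRing.eq_maximalIdeal (RingHom.ker_isMaximal_of_surjective (algebraMap T L) hL)
  have hres : Res π := by
    refine ⟨hL, fun x hx => ?_⟩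
    by_contra h
    apply hx
    have h1 : x ∈ IsLocalRing.maximalIdeal T := (IsLocalRing.mem_maximalIdeal x).2 h
    rw [← hπker] at h1
    exact h1
  have hπP : ∀ s : S, s ∉ P → π (algebraMap S T s) ≠ 0 := fun s hs h0 => by
    have h1 : algebraMap S T s ∈ RingHom.ker π := h0
    rw [hπker] at h1
    exact hs ((IsLocalization.AtPrime.to_map_mem_maximal_iff T P s).1 h1)
  -- the model in `R`
  let ι : S →ₐ[O k] T := (IsScalarTower.toAlgHom k S T).restrictScalars (O k)
  have hι : ∀ s, ι s = algebraMap S T s := fun _ => rfl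
  set A' : Subalgebra (O k) T := A.map ι with hA'
  have hmA' : ∀ {s}, s ∈ A → algebraMap S T s ∈ A' := fun {s} hs => ⟨s, hs, rfl⟩
  have hfrac : ∀ x : T, ∃ n ∈ A', ∃ s ∈ A', π s ≠ 0 ∧ x * s = n := by
    intro x
    obtain ⟨⟨a, s⟩, hx⟩ := IsLocalization.surj (M := P.primeCompl) x
    obtain ⟨c₁, hc₁, hc₁a⟩ := hAS a
    obtain ⟨c₂, hc₂, hc₂s⟩ := hAS (s : S)
    -- a common constant
    obtain ⟨a₁, b₁, ha₁, hab₁⟩ := exists_scale c₁
    obtain ⟨a₂, b₂, ha₂, hab₂⟩ := exists_scale c₂
    have hb₁ : b₁ ≠ 0 := fun h0 => by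
      rw [h0] at hab₁
      exact mul_ne_zero (fun h => ha₁ (Subtype.ext h)) hc₁ hab₁
    have hb₂ : b₂ ≠ 0 := fun h0 => by
      rw [h0] at hab₂
      exact mul_ne_zero (fun h => ha₂ (Subtype.ext h)) hc₂ hab₂
    have h1 : algebraMap (O k) S b₁ * a ∈ A := by
      have h2 : algebraMap (O k) S b₁ * a =
          algebraMap (O k) S a₁ * (algebraMap k S c₁ * a) := by
        have h3 : algebraMap (O k) S b₁ = algebraMap k S (b₁ : k) := rfl
        have h4 : algebraMap (O k) S a₁ = algebraMap k S (a₁ : k) := rfl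
        rw [h3, h4, ← hab₁, map_mul, mul_assoc]
      rw [h2]
      exact A.mul_mem (A.algebraMap_mem _) hc₁a
    have h2 : algebraMap (O k) S b₂ * s ∈ A := by
      have h2 : algebraMap (O k) S b₂ * s =
          algebraMap (O k) S a₂ * (algebraMap k S c₂ * s) := by
        have h3 : algebraMap (O k) S b₂ = algebraMap k S (b₂ : k) := rfl
        have h4 : algebraMap (O k) S a₂ = algebraMap k S (a₂ : k) := rfl
        rw [h3, h4, ← hab₂, map_mul, mul_assoc]
      rw [h2]
      exact A.mul_mem (A.algebraMap_mem _) hc₂s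
    have hbP : ∀ b : O k, b ≠ 0 → algebraMap (O k) S b ∉ P := fun b hb h0 => by
      have h3 : algebraMap (O k) S b = algebraMap k S (b : k) := rfl
      rw [h3] at h0
      have h4 : IsUnit (algebraMap k S (b : k)) :=
        (IsUnit.mk0 (b : k) fun h => hb (Subtype.ext h)).map _
      exact (inferInstance : P.IsPrime).ne_top (Ideal.eq_top_of_isUnit_mem _ h0 h4)
    refine ⟨_, hmA' (A.mul_mem (A.algebraMap_mem b₂) h1), _,
      hmA' (A.mul_mem (A.algebraMap_mem b₁) h2), hπP _ fun h0 => ?_, ?_⟩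
    · rcases (inferInstance : P.IsPrime).mem_or_mem h0 with h0 | h0
      · exact hbP b₁ hb₁ h0
      · rcases (inferInstance : P.IsPrime).mem_or_mem h0 with h0 | h0
        · exact hbP b₂ hb₂ h0
        · exact s.2 h0
    · rw [map_mul, map_mul, map_mul, map_mul, ← hx]
      ring
  have hess : Algebra.EssFiniteType k T :=
    (Algebra.EssFiniteType.comp_iff k S T).2 (Algebra.EssFiniteType.of_isLocalization T P.primeCompl)
  obtain ⟨c, g, hg, htr⟩ := exists_regular k T (FractionRing T)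
  let fL : IsLocalRing.ResidueField T →ₐ[k] L :=
    Ideal.Quotient.liftₐ (IsLocalRing.maximalIdeal T) π (fun a ha => by
      rw [← hπker] at ha
      exact ha)
  let eL : IsLocalRing.ResidueField T ≃ₐ[k] L :=
    AlgEquiv.ofBijective fL ⟨fL.toRingHom.injective, fun y => by
      obtain ⟨x, rfl⟩ := hL y
      exact ⟨IsLocalRing.residue T x, rfl⟩⟩
  rw [eL.trdeg_eq] at htr
  obtain ⟨D, hD, hAD, hDV, ϖ, hϖ, hϖ1, φ, hφ, hφV, hφT⟩ := lift_charts hres (hA.map ι) hfrac htr
    (hg.trans hπker.symm) hV hpt (by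
      rintro _ ⟨a, ha, rfl⟩
      exact hAV a ha) (E.image (algebraMap S T)) (by
      intro x hx
      obtain ⟨t, ht, rfl⟩ := Finset.mem_image.1 hx
      exact hmA' (hEA t ht)) (by
      intro x hx
      obtain ⟨t, ht, rfl⟩ := Finset.mem_image.1 hx
      exact hπP t (hEP t ht))
  obtain ⟨n, f, y, hf, hfy, ⟨i₀, c₀, hc₀, hfc⟩, hDe⟩ := exists_blowup_gen hAD hD
  have hf' : ∀ i, ∃ s ∈ A, algebraMap S T s = f i := fun i => by
    obtain ⟨s, hs, h⟩ := hf i
    exact ⟨s, hs, h⟩
  choose f' hf'A hf' using hf'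
  have h0P : f' 0 ∉ P := by
    intro h0
    have h1 : π (f 0) = 0 := by
      rw [← hf']
      have h2 : algebraMap S T (f' 0) ∈ RingHom.ker π := by
        rw [hπker]
        exact (IsLocalization.AtPrime.to_map_mem_maximal_iff T P _).2 h0
      exact h2
    have h2 := congrArg π (hfy i₀)
    rw [map_mul, h1, zero_mul, hfc] at h2
    have h3 : π (algebraMap (O k) T c₀) = algebraMap k L (c₀ : k) :=
      π.commutes (c₀ : k)
    rw [h3] at h2
    exact hc₀ (Subtype.ext ((map_eq_zero (algebraMap k L)).1 h2.symm))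
  have hun : IsUnit (algebraMap S T (f' 0)) := hres.unit _ (hπP _ h0P)
  have hchart : chart T A f' = D := by
    rw [hDe]
    apply le_antisymm
    · refine Algebra.adjoin_le ?_
      rintro x (⟨a, ha, rfl⟩ | ⟨i, hi⟩)
      · exact (le_sup_left : A' ≤ A' ⊔ _) (hmA' ha)
      · have h1 : x = y i := by
          rw [hf', hf', ← hfy i, ← hf' 0] at hi
          exact hun.mul_left_cancel hi
        rw [h1]
        exact (le_sup_right : _ ≤ A' ⊔ _) (Algebra.subset_adjoin ⟨i, rfl⟩)
    · refine sup_le ?_ (Algebra.adjoin_le ?_)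
      · rintro _ ⟨a, ha, rfl⟩
        exact Algebra.subset_adjoin (Or.inl ⟨a, ha, rfl⟩)
      · rintro _ ⟨i, rfl⟩
        exact Algebra.subset_adjoin (Or.inr ⟨i, by rw [hf', hf', hfy]⟩)
  subst hchart
  refine ⟨n, f', hf'A, h0P, ⟨i₀, c₀, hc₀, ?_⟩, hDV, ϖ, hϖ, hϖ1, φ, hφ, hφV, fun t ht =>
    hφT _ (Finset.mem_image_of_mem _ ht)⟩
  apply hinj
  rw [hf', hfc]
  exact (ι.commutes c₀).symm

end DS
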