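import Pool.Agent.Lib.DS.Defs

/-!
# Module Lo: localization inside a domain
-/

/-!
# Module Lo: localization inside a domain
-/

namespace DS

open MP1a953e DA

private theorem pow_mem_aux {k R : Type*} [NormedField k] [IsUltrametricDist k] [CommRing R] [Algebra k R]
    (D : Subalgebra (O k) R) (t : D) {t' : R} (ht : (t : R) * t' = 1) {x : R}
    (hx : x ∈ adj1 D t') : ∃ n : ℕ, x * (t : R) ^ n ∈ D := by
  unfold adj1 at hx
  induction hx using Algebra.adjoin_induction with
  | mem x hx =>
    rcases hx with hx | hx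
    · exact ⟨0, by simpa using hx⟩
    · refine ⟨1, ?_⟩
      have : x = t' := hx
      rw [this, pow_one, mul_comm, ht]
      exact D.one_mem
  | algebraMap r => exact ⟨0, by simpa using D.algebraMap_mem r⟩
  | add x y _ _ h1 h2 =>
    obtain ⟨n, hn⟩ := h1
    obtain ⟨m, hm⟩ := h2
    refine ⟨n + m, ?_⟩
    have e : (x + y) * (t : R) ^ (n + m) = x * (t : R) ^ n * (t : R) ^ m + y * (t : R) ^ m * (t : R) ^ n := by
      ring
    rw [e]
    exact D.add_mem (D.mul_mem hn (D.pow_mem t.2 m)) (D.mul_mem hm (D.pow_mem t.2 n))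
  | mul x y _ _ h1 h2 =>
    obtain ⟨n, hn⟩ := h1
    obtain ⟨m, hm⟩ := h2
    refine ⟨n + m, ?_⟩
    have e : (x * y) * (t : R) ^ (n + m) = (x * (t : R) ^ n) * (y * (t : R) ^ m) := by
      ring
    rw [e]
    exact D.mul_mem hn hm

/-- Lo.  Proof.  Every element `x` of `adj1 D t'` satisfies `x * t ^ n ∈ D` for some `n` (induction over
`Algebra.adjoin`); `t` is a unit of `adj1 D t'` with inverse `t'`; the map `D → adj1 D t'` is injective.
(Compare `e3_loc` in an earlier version of module DA/E3.) -/
theorem loc_adj1 {k R : Type*} [NormedField k] [IsUltrametricDist k] [CommRing R] [Algebra k R]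
    (D : Subalgebra (O k) R) (t : D) {t' : R} (ht : (t : R) * t' = 1) :
    letI := (Subalgebra.inclusion (le_adj1 D t')).toRingHom.toAlgebra
    IsLocalization.Away t ↥(adj1 D t') := by
  letI : Algebra D ↥(adj1 D t') := (Subalgebra.inclusion (le_adj1 D t')).toRingHom.toAlgebra
  have hmap : ∀ x : D, ((algebraMap D ↥(adj1 D t') x : ↥(adj1 D t')) : R) = (x : R) := fun x => rfl
  refine (isLocalization_iff _ _).2 ⟨?_, ?_, ?_⟩
  · rintro ⟨y, n, rfl⟩
    have hu : IsUnit (algebraMap D ↥(adj1 D t') t) := by
      refine IsUnit.of_mul_eq_one (⟨t', mem_adj1 D t'⟩ : ↥(adj1 D t')) ?_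
      apply Subtype.ext
      exact ht
    simpa using hu.pow n
  · intro z
    obtain ⟨n, hn⟩ := pow_mem_aux D t ht z.2
    refine ⟨(⟨_, hn⟩, ⟨t ^ n, n, rfl⟩), ?_⟩
    apply Subtype.ext
    show (z : R) * ((t ^ n : D) : R) = _
    simp [hmap]
  · intro x y hxy
    refine ⟨1, ?_⟩
    have : (x : R) = (y : R) := congrArg (fun z : ↥(adj1 D t') => (z : R)) hxy
    rw [Subtype.ext this]

/-- Lo2.  If `P → D[1/t]` (abstract localization) is etale then so is `P → adj1 D t'`, for the composition with
the inclusion. Proof.  `IsLocalization.algEquiv`, `RingHom.Etale.of_bijective`. -/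
theorem etale_adj1 {k R P : Type*} [NormedField k] [IsUltrametricDist k] [CommRing R]
    [Algebra k R] [CommRing P] (D : Subalgebra (O k) R) (f : P →+* D) (t : D) {t' : R}
    (ht : (t : R) * t' = 1) (h : ((algebraMap D (Localization.Away t)).comp f).Etale) :
    (((Subalgebra.inclusion (le_adj1 D t')).toRingHom).comp f).Etale := by
  letI : Algebra D ↥(adj1 D t') := (Subalgebra.inclusion (le_adj1 D t')).toRingHom.toAlgebra
  haveI : IsLocalization.Away t ↥(adj1 D t') := loc_adj1 D t ht
  let e : Localization.Away t ≃ₐ[D] ↥(adj1 D t') :=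
    IsLocalization.algEquiv (Submonoid.powers t) (Localization.Away t) ↥(adj1 D t')
  have he : (e : Localization.Away t →+* ↥(adj1 D t')).Etale := RingHom.Etale.of_bijective e.bijective
  have hc : ((e : Localization.Away t →+* ↥(adj1 D t')).comp
      ((algebraMap D (Localization.Away t)).comp f)).Etale := by
    letI a1 : Algebra P (Localization.Away t) := ((algebraMap D (Localization.Away t)).comp f).toAlgebra
    letI a2 : Algebra (Localization.Away t) ↥(adj1 D t') :=
      (e : Localization.Away t →+* ↥(adj1 D t')).toAlgebra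
    letI a3 : Algebra P ↥(adj1 D t') := ((e : Localization.Away t →+* ↥(adj1 D t')).comp
      ((algebraMap D (Localization.Away t)).comp f)).toAlgebra
    haveI : IsScalarTower P (Localization.Away t) ↥(adj1 D t') := IsScalarTower.of_algebraMap_eq fun _ => rfl
    haveI h1 : Algebra.Etale P (Localization.Away t) := h
    haveI h2 : Algebra.Etale (Localization.Away t) ↥(adj1 D t') := he
    exact Algebra.Etale.comp P (Localization.Away t) ↥(adj1 D t')
  convert hc using 1
  ext x
  simp only [RingHom.comp_apply]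
  exact (congrArg Subtype.val (e.commutes (f x))).symm

end DS
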