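import Pool.Agent.Lib.DS.Defs

/-!
# Module N1: the semistable model ring is a domain
-/

namespace DS

open MP1a953e DA

section
variable {k F : Type*} [NormedField k] [IsUltrametricDist k] [Field F] [Algebra k F]

/-- the coordinates `ϖ / ∏ y j, y 0, …, y (d-1)` -/
noncomputable def tt {d : ℕ} (y : Fin d → F) (ϖ : k) : Fin (d + 1) → F :=
  Fin.cons (algebraMap k F ϖ / ∏ j, y j) y

/-- N1a. -/
theorem prod_tt {d : ℕ} {y : Fin d → F} (hy : ∀ j, y j ≠ 0) (ϖ : k) :
    ∏ i, tt y ϖ i = algebraMap k F ϖ := by
  rw [Fin.prod_univ_succ]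
  simp only [tt, Fin.cons_zero, Fin.cons_succ]
  exact div_mul_cancel₀ _ (Finset.prod_ne_zero_iff.2 fun j _ => hy j)

/-- Laurent monomials in algebraically independent elements are linearly independent -/
theorem linearIndependent_laurent {k F : Type*} [Field k] [Field F] [Algebra k F] {d : ℕ}
    {y : Fin d → F} (hy : AlgebraicIndependent k y) :
    LinearIndependent k (fun z : Fin d → ℤ => ∏ j, y j ^ z j) := by
  classical
  rw [linearIndependent_iff']
  intro Z g hg z hz
  set N : ℕ := ∑ z ∈ Z, ∑ j, (z j).natAbs with hN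
  have hzN : ∀ z ∈ Z, ∀ j, 0 ≤ z j + N := by
    intro z hz j
    have h1 : (z j).natAbs ≤ ∑ j, (z j).natAbs :=
      Finset.single_le_sum (f := fun j => (z j).natAbs) (fun _ _ => Nat.zero_le _)
        (Finset.mem_univ j)
    have h2 : ∑ j, (z j).natAbs ≤ N :=
      Finset.single_le_sum (f := fun z : Fin d → ℤ => ∑ j, (z j).natAbs)
        (fun _ _ => Nat.zero_le _) hz
    omega
  have hne : ∀ j, y j ≠ 0 := fun j => hy.ne_zero j
  set E : (Fin d → ℤ) → (Fin d →₀ ℕ) :=
    fun z => Finsupp.equivFunOnFinite.symm (fun j => (z j + N).toNat) with hE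
  set p : MvPolynomial (Fin d) k := ∑ z ∈ Z, MvPolynomial.monomial (E z) (g z) with hp
  have hmon : ∀ z ∈ Z, MvPolynomial.aeval y (MvPolynomial.monomial (E z) (g z)) =
      (∏ j, y j) ^ N * (g z • ∏ j, y j ^ z j) := by
    intro z hz
    rw [MvPolynomial.aeval_monomial, Finsupp.prod_fintype _ _ (fun j => pow_zero _)]
    have h1 : ∀ j, y j ^ (E z j) = y j ^ N * y j ^ z j := by
      intro j
      have h2 : E z j = (z j + N).toNat := rfl
      rw [h2, ← zpow_natCast, Int.toNat_of_nonneg (hzN z hz j), zpow_add₀ (hne j), zpow_natCast,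
        mul_comm]
    rw [Finset.prod_congr rfl fun j _ => h1 j, Finset.prod_mul_distrib, Finset.prod_pow,
      Algebra.smul_def]
    ring
  have hp0 : p = 0 := by
    apply (algebraicIndependent_iff.1 hy) p
    rw [hp, map_sum, Finset.sum_congr rfl hmon, ← Finset.mul_sum, hg, mul_zero]
  have h3 : p.coeff (E z) = g z := by
    rw [hp, MvPolynomial.coeff_sum, Finset.sum_eq_single z]
    · rw [MvPolynomial.coeff_monomial, if_pos rfl]
    · intro z' hz' hne'
      rw [MvPolynomial.coeff_monomial, if_neg]
      intro h4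
      apply hne'
      funext j
      have h5 : (z' j + N).toNat = (z j + N).toNat := DFunLike.congr_fun h4 j
      have h6 := hzN z hz j
      have h7 := hzN z' hz' j
      omega
    · intro h4
      exact absurd hz h4
  rw [← h3, hp0, MvPolynomial.coeff_zero]

/-- reduction modulo `∏ X i - ϖ` -/
private theorem n1_red {R : Type*} [CommRing R] (r : ℕ) (ϖ : R)
    (F : MvPolynomial (Fin (r + 1)) R) :
    ∃ F' : MvPolynomial (Fin (r + 1)) R,
      F - F' ∈ Ideal.span
        {(∏ i, MvPolynomial.X i - MvPolynomial.C ϖ : MvPolynomial (Fin (r + 1)) R)} ∧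
      ∀ n : Fin (r + 1) →₀ ℕ, (∀ i, 1 ≤ n i) → F'.coeff n = 0 := by
  classical
  set I := Ideal.span
    {(∏ i, MvPolynomial.X i - MvPolynomial.C ϖ : MvPolynomial (Fin (r + 1)) R)} with hI
  induction F using MvPolynomial.induction_on' with
  | monomial n a =>
    obtain ⟨N, hN⟩ : ∃ N, n 0 = N := ⟨_, rfl⟩
    induction N generalizing n a with
    | zero =>
      refine ⟨MvPolynomial.monomial n a, by rw [sub_self]; exact I.zero_mem, ?_⟩
      intro n' hn'
      rw [MvPolynomial.coeff_monomial, if_neg]
      rintro rfl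
      have := hn' 0
      omega
    | succ N ih =>
      by_cases hall : ∀ i, 1 ≤ n i
      · set one : Fin (r + 1) →₀ ℕ := Finsupp.equivFunOnFinite.symm (fun _ => 1) with hone
        set n' : Fin (r + 1) →₀ ℕ := n - one with hn'
        have h1 : n = n' + one := by
          ext i
          have := hall i
          simp only [hn', hone, Finsupp.coe_add, Finsupp.coe_tsub, Pi.add_apply, Pi.sub_apply,
            Finsupp.equivFunOnFinite_symm_apply_apply]
          omega
        have h2 : n' 0 = N := by
          simp only [hn', hone, Finsupp.coe_tsub, Pi.sub_apply,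
            Finsupp.equivFunOnFinite_symm_apply_apply]
          omega
        obtain ⟨F', hF', hred⟩ := ih n' (a * ϖ) h2
        refine ⟨F', ?_, hred⟩
        have h3 : (MvPolynomial.monomial one (1 : R)) = ∏ i, MvPolynomial.X i := by
          rw [MvPolynomial.monomial_eq, map_one, one_mul]
          rw [Finsupp.prod_fintype]
          · refine Finset.prod_congr rfl fun i _ => ?_
            simp [hone]
          · intro i
            rw [pow_zero]
        have h4 : MvPolynomial.monomial n a =
            MvPolynomial.monomial n' a * ∏ i, MvPolynomial.X i := by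
          rw [← h3, MvPolynomial.monomial_mul, mul_one, ← h1]
        have h5 : MvPolynomial.monomial n' (a * ϖ) =
            MvPolynomial.monomial n' a * MvPolynomial.C ϖ := by
          rw [mul_comm (MvPolynomial.monomial n' a), MvPolynomial.C_mul_monomial, mul_comm a ϖ]
        have h6 : MvPolynomial.monomial n a - F' =
            MvPolynomial.monomial n' a * (∏ i, MvPolynomial.X i - MvPolynomial.C ϖ) +
              (MvPolynomial.monomial n' (a * ϖ) - F') := by
          rw [h4, h5]
          ring
        rw [h6]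
        refine I.add_mem (I.mul_mem_left _ (Ideal.subset_span rfl)) hF'
      · refine ⟨MvPolynomial.monomial n a, by rw [sub_self]; exact I.zero_mem, ?_⟩
        intro n' hn'
        rw [MvPolynomial.coeff_monomial, if_neg]
        rintro rfl
        exact hall hn'
  | add p q hp hq =>
    obtain ⟨p', hp', hpr⟩ := hp
    obtain ⟨q', hq', hqr⟩ := hq
    refine ⟨p' + q', ?_, ?_⟩
    · have h1 : p + q - (p' + q') = (p - p') + (q - q') := by ring
      rw [h1]
      exact I.add_mem hp' hq'
    · intro n hn
      rw [MvPolynomial.coeff_add, hpr n hn, hqr n hn, add_zero]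

/-- N1b (kernel).  Proof.  As `ker_tor` in module DA/S2 (copy and adapt that file): modulo the generator every
polynomial is congruent to one all of whose monomials `X ^ n` have `n i = 0` for some `i`; such a monomial
has the value `ϖ ^ (n 0) * ∏ y j ^ (n (j+1) - n 0)` and the exponent `(n (j+1) - n 0)_j ∈ ℤ ^ d` determines `n`;
Laurent monomials in algebraically independent elements are linearly independent over `k`. -/
theorem ker_tt {d : ℕ} {y : Fin d → F} (hy : AlgebraicIndependent k y) {ϖ : O k} (hϖ : ϖ ≠ 0) :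
    RingHom.ker (MvPolynomial.aeval (tt y (ϖ : k)) :
        MvPolynomial (Fin (d + 1)) (O k) →ₐ[O k] F) =
      Ideal.span
        {(∏ i, MvPolynomial.X i - MvPolynomial.C ϖ : MvPolynomial (Fin (d + 1)) (O k))} := by
  classical
  have hne : ∀ j, y j ≠ 0 := fun j => hy.ne_zero j
  have hϖ' : (ϖ : k) ≠ 0 := fun h => hϖ (by exact_mod_cast h)
  have hgen : (∏ i, MvPolynomial.X i - MvPolynomial.C ϖ : MvPolynomial (Fin (d + 1)) (O k)) ∈
      RingHom.ker (MvPolynomial.aeval (tt y (ϖ : k)) :
        MvPolynomial (Fin (d + 1)) (O k) →ₐ[O k] F) := by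
    rw [RingHom.mem_ker, map_sub, map_prod, MvPolynomial.aeval_C]
    simp only [MvPolynomial.aeval_X]
    rw [prod_tt hne]
    exact sub_self _
  have hle : Ideal.span
      {(∏ i, MvPolynomial.X i - MvPolynomial.C ϖ : MvPolynomial (Fin (d + 1)) (O k))} ≤
      RingHom.ker (MvPolynomial.aeval (tt y (ϖ : k)) :
        MvPolynomial (Fin (d + 1)) (O k) →ₐ[O k] F) := by
    rw [Ideal.span_le, Set.singleton_subset_iff]
    exact hgen
  refine le_antisymm ?_ hle
  intro G hG
  obtain ⟨G', hGG', hred⟩ := n1_red d ϖ G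
  have hG' : MvPolynomial.aeval (tt y (ϖ : k)) G' = 0 := by
    have h1 : MvPolynomial.aeval (tt y (ϖ : k)) (G - G') = 0 := hle hGG'
    have h2 : MvPolynomial.aeval (tt y (ϖ : k)) G = 0 := hG
    rw [map_sub, h2, zero_sub, neg_eq_zero] at h1
    exact h1
  set zz : (Fin (d + 1) →₀ ℕ) → (Fin d → ℤ) := fun n i => (n i.succ : ℤ) - n 0 with hzz
  have hmon : ∀ n : Fin (d + 1) →₀ ℕ, ∏ i, tt y (ϖ : k) i ^ n i =
      algebraMap k F ((ϖ : k) ^ n 0) * ∏ i, y i ^ zz n i := by
    intro n
    rw [Fin.prod_univ_succ]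
    simp only [tt, Fin.cons_zero, Fin.cons_succ]
    rw [div_pow, map_pow, ← Finset.prod_pow, div_mul_eq_mul_div, mul_div_assoc,
      ← Finset.prod_div_distrib]
    congr 1
    refine Finset.prod_congr rfl fun i _ => ?_
    rw [hzz]
    simp only
    rw [zpow_sub₀ (hne i), zpow_natCast, zpow_natCast]
  have hinj : ∀ n n' : Fin (d + 1) →₀ ℕ, (∃ i, n i = 0) → (∃ i, n' i = 0) → zz n = zz n' →
      n = n' := by
    intro n n' hn hn' h
    have h1 : ∀ i, (n i : ℤ) - n' i = n 0 - n' 0 := by
      intro i
      refine Fin.cases ?_ ?_ i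
      · rfl
      · intro i
        have h2 := congrFun h i
        simp only [hzz] at h2
        linarith
    have h3 : n 0 = n' 0 := by
      obtain ⟨i, hi⟩ := hn
      obtain ⟨i', hi'⟩ := hn'
      have h4 := h1 i
      have h5 := h1 i'
      omega
    ext i
    have h4 := h1 i
    omega
  have hsupp : ∀ n ∈ G'.support, ∃ i, n i = 0 := by
    intro n hn
    by_contra hcon
    push Not at hcon
    exact (MvPolynomial.mem_support_iff.1 hn)
      (hred n fun i => Nat.one_le_iff_ne_zero.2 (hcon i))
  have hli : LinearIndependent k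
      (fun n : (G'.support : Set (Fin (d + 1) →₀ ℕ)) => ∏ i, y i ^ zz n i) := by
    refine (linearIndependent_laurent hy).comp
      (fun n : (G'.support : Set (Fin (d + 1) →₀ ℕ)) => zz n) ?_
    intro n n' h
    exact Subtype.ext (hinj n n' (hsupp _ n.2) (hsupp _ n'.2) h)
  have hsum : ∑ n ∈ G'.support, (((G'.coeff n : O k) : k) * (ϖ : k) ^ n 0) •
      ∏ i, y i ^ zz n i = 0 := by
    rw [← hG', MvPolynomial.aeval_def, MvPolynomial.eval₂_eq']
    refine Finset.sum_congr rfl fun n _ => ?_
    rw [hmon, Algebra.smul_def, map_mul, mul_assoc]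
    rfl
  have hzero : G' = 0 := by
    ext n
    rw [MvPolynomial.coeff_zero]
    by_contra hne0
    have hn : n ∈ G'.support := by
      rw [MvPolynomial.mem_support_iff]
      intro h0
      exact hne0 (by rw [h0])
    have h1 : LinearIndepOn k (fun n => ∏ i, y i ^ zz n i)
        (G'.support : Set (Fin (d + 1) →₀ ℕ)) := hli
    rw [linearIndepOn_finset_iff] at h1
    have h2 := h1 (fun n => ((G'.coeff n : O k) : k) * (ϖ : k) ^ n 0) hsum n hn
    rcases mul_eq_zero.1 h2 with h3 | h3
    · exact hne0 (by exact_mod_cast h3)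
    · exact pow_ne_zero _ hϖ' h3
  rw [hzero, sub_zero] at hGG'
  exact hGG'

/-- N1c.  Every homomorphism from the semistable model ring to `F` such that the images of
`x 1, …, x d` are algebraically independent is injective: composed with `SS.mk` it is the evaluation at
`tt` of these images (`SS.prod_x`), so its kernel is `ker_tt`, the kernel of `SS.mk` (`SS.ker_mk`). -/
theorem injective_ss {d : ℕ} {ϖ : O k} (hϖ : ϖ ≠ 0) (f : SS d ϖ →ₐ[O k] F)
    (hy : AlgebraicIndependent k fun j : Fin d => f (SS.x j.succ)) : Function.Injective f := by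
  have hne : ∀ j : Fin d, f (SS.x j.succ) ≠ 0 := fun j => hy.ne_zero j
  have h0 : f (SS.x 0) = algebraMap k F (ϖ : k) / ∏ j : Fin d, f (SS.x j.succ) := by
    rw [eq_div_iff (Finset.prod_ne_zero_iff.2 fun j _ => hne j)]
    have h1 := congrArg f (SS.prod_x d ϖ)
    rw [map_prod, Fin.prod_univ_succ, f.commutes] at h1
    exact h1
  have hcomp : f.comp (SS.mk d ϖ) =
      MvPolynomial.aeval (tt (fun j : Fin d => f (SS.x j.succ)) (ϖ : k)) := by
    refine MvPolynomial.algHom_ext fun i => ?_
    rw [AlgHom.comp_apply, SS.mk_X, MvPolynomial.aeval_X]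
    refine Fin.cases ?_ (fun j => ?_) i
    · exact h0
    · rfl
  rw [injective_iff_map_eq_zero]
  intro x hx
  obtain ⟨p, rfl⟩ := SS.mk_surjective d ϖ x
  have h2 : p ∈ RingHom.ker (MvPolynomial.aeval (tt (fun j : Fin d => f (SS.x j.succ)) (ϖ : k)) :
      MvPolynomial (Fin (d + 1)) (O k) →ₐ[O k] F) := by
    rw [RingHom.mem_ker, ← hcomp]
    exact hx
  rw [ker_tt hy hϖ, ← SS.ker_mk, RingHom.mem_ker] at h2
  exact h2

end

/-- a homomorphism with given algebraically independent values at `x 1, …, x d`, as a ring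
homomorphism -/
theorem exists_ss_ringHom {k F : Type*} [NormedField k] [IsUltrametricDist k] [Field F]
    [Algebra k F] {d : ℕ} {ϖ : O k} (hϖ : ϖ ≠ 0) {y : Fin d → F}
    (hy : AlgebraicIndependent k y) : ∃ f : SS d ϖ →+* F,
      (∀ a : O k, f (algebraMap (O k) (SS d ϖ) a) = algebraMap k F (a : k)) ∧
      (∀ j, f (SS.x j.succ) = y j) ∧ Function.Injective f := by
  have hne : ∀ j, y j ≠ 0 := fun j => hy.ne_zero j
  let f : SS d ϖ →ₐ[O k] F := SS.lift (tt y (ϖ : k)) (prod_tt hne (ϖ : k))
  have hf : ∀ j : Fin d, f (SS.x j.succ) = y j := fun j => (SS.lift_x _ _ j.succ).trans rfl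
  have hai : AlgebraicIndependent k fun j : Fin d => f (SS.x j.succ) := by
    have h1 : (fun j : Fin d => f (SS.x j.succ)) = y := funext hf
    rw [h1]
    exact hy
  exact ⟨f.toRingHom, fun a => f.commutes a, hf, injective_ss hϖ f hai⟩

/-- N1d.  There is such a homomorphism to the fraction field of `MvPolynomial (Fin d) k` (`SS.lift`,
`prod_tt`). -/
theorem exists_ss_hom {k : Type*} [NormedField k] [IsUltrametricDist k] (d : ℕ) {ϖ : O k}
    (hϖ : ϖ ≠ 0) : ∃ f : SS d ϖ →ₐ[O k] FractionRing (MvPolynomial (Fin d) k),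
      (∀ j : Fin d, f (SS.x j.succ) = algebraMap (MvPolynomial (Fin d) k) _ (MvPolynomial.X j)) ∧
      (AlgebraicIndependent k fun j : Fin d => f (SS.x j.succ)) ∧ Function.Injective f := by
  have hinj : Function.Injective
      (algebraMap (MvPolynomial (Fin d) k) (FractionRing (MvPolynomial (Fin d) k))) :=
    IsFractionRing.injective _ _
  have hai : AlgebraicIndependent k fun j : Fin d => algebraMap (MvPolynomial (Fin d) k)
      (FractionRing (MvPolynomial (Fin d) k)) (MvPolynomial.X j) :=
    AlgebraicIndependent.map' (f := IsScalarTower.toAlgHom k (MvPolynomial (Fin d) k)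
      (FractionRing (MvPolynomial (Fin d) k))) (MvPolynomial.algebraicIndependent_X (Fin d) k) hinj
  obtain ⟨f, hf1, hf2, hf3⟩ := exists_ss_ringHom hϖ hai
  let g : SS d ϖ →ₐ[O k] FractionRing (MvPolynomial (Fin d) k) :=
    { f with
      commutes' := fun a => by
        have h1 := hf1 a
        rw [IsScalarTower.algebraMap_apply (O k) (MvPolynomial (Fin d) k)
          (FractionRing (MvPolynomial (Fin d) k)) a]
        rw [IsScalarTower.algebraMap_apply k (MvPolynomial (Fin d) k)
          (FractionRing (MvPolynomial (Fin d) k)) (a : k)] at h1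
        exact h1 }
  refine ⟨g, hf2, ?_, hf3⟩
  have h2 : (fun j : Fin d => g (SS.x j.succ)) = fun j : Fin d =>
      algebraMap (MvPolynomial (Fin d) k)
        (FractionRing (MvPolynomial (Fin d) k)) (MvPolynomial.X j) := funext hf2
  rw [h2]
  exact hai

theorem isDomain_ss {k : Type*} [NormedField k] [IsUltrametricDist k] (d : ℕ) {ϖ : O k}
    (hϖ : ϖ ≠ 0) : IsDomain (SS d ϖ) := by
  obtain ⟨f, -, -, hf⟩ := exists_ss_hom d hϖ
  exact Function.Injective.isDomain f.toRingHom hf

end DS
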