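import Pool.Agent.Lib.DS.N1

/-!
# Module N2: a Gauss lemma
-/

namespace DS

open MP1a953e DA

private theorem N2_icl {R L : Type*} [CommRing R] [IsDomain R] [IsIntegrallyClosed R] [Field L]
    (φ : R →+* L) (hφ : Function.Injective φ) {p q : R} {x : L}
    (hx : x = φ p / φ q) (hint : φ.IsIntegralElem x) : ∃ y, φ y = x := by
  let := φ.toAlgebra
  have hinj : Function.Injective (Algebra.ofId R L) := hφ
  let f : FractionRing R →ₐ[R] L := IsFractionRing.liftAlgHom (K := FractionRing R) hinj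
  have hf : Function.Injective f := f.toRingHom.injective
  have h1 : f (algebraMap R (FractionRing R) p / algebraMap R (FractionRing R) q) = x := by
    rw [map_div₀, f.commutes, f.commutes, hx]
    rfl
  have h2 : IsIntegral R
      (algebraMap R (FractionRing R) p / algebraMap R (FractionRing R) q) := by
    rw [← isIntegral_algHom_iff f hf, h1]
    exact hint
  obtain ⟨y, hy⟩ := (isIntegrallyClosed_iff (FractionRing R)).1 inferInstance h2
  refine ⟨y, ?_⟩
  rw [← h1, ← hy, f.commutes]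
  rfl

private theorem N2_lift {R B L : Type*} [CommRing R] [CommRing B] [Field L] (φ : R →+* L)
    (hφ : Function.Injective φ) (ι : B →+* L) (h : ∀ b, ∃ r, φ r = ι b) :
    ∃ ψ : B →+* R, φ.comp ψ = ι := by
  choose g hg using h
  refine ⟨{ toFun := g, map_one' := hφ ?_, map_mul' := fun a b => hφ ?_,
            map_zero' := hφ ?_, map_add' := fun a b => hφ ?_ }, RingHom.ext hg⟩
  · rw [hg, map_one, map_one]
  · rw [hg, map_mul, map_mul, hg, hg]
  · rw [hg, map_zero, map_zero]
  · rw [hg, map_add, map_add, hg, hg]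

private theorem N2_int {R B L : Type*} [CommRing R] [CommRing B] [Field L] {φ : R →+* L}
    {ι : B →+* L} {ψ : B →+* R} (h : φ.comp ψ = ι) {x : L} (hx : ι.IsIntegralElem x) :
    φ.IsIntegralElem x := by
  obtain ⟨p, hp, h0⟩ := hx
  refine ⟨p.map ψ, hp.map ψ, ?_⟩
  rw [Polynomial.eval₂_map, h]
  exact h0

/-- the common core: an element of the fraction field which is integral over the ring generated by the `y j`
and their inverses is a polynomial divided by a power of the product -/
private theorem N2_core {B F : Type*} [CommRing B] [IsDomain B] [IsIntegrallyClosed B] [Field F]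
    [Algebra B F] {d : ℕ} {y : Fin d → F} (hy : AlgebraicIndependent B y) {x : F}
    (p q : MvPolynomial (Fin d) B)
    (hpq : x = MvPolynomial.aeval y p / MvPolynomial.aeval y q)
    (hint : IsIntegral
      ↥(Algebra.adjoin B (Set.range y ∪ Set.range fun j => (y j)⁻¹)) x) :
    ∃ (N : ℕ) (a : MvPolynomial (Fin d) B), x * (∏ j, y j) ^ N = MvPolynomial.aeval y a := by
  classical
  have hne : ∀ i, y i ≠ 0 := fun i => hy.ne_zero i
  let g : MvPolynomial (Fin d) B →+* F := (MvPolynomial.aeval y : MvPolynomial (Fin d) B →ₐ[B] F)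
  have hginj : Function.Injective g := hy
  let D : MvPolynomial (Fin d) B := ∏ i, MvPolynomial.X i
  have hgX : ∀ i, g (MvPolynomial.X i) = y i := fun i => MvPolynomial.aeval_X y i
  have hgD : g D = ∏ i, y i := by
    show g (∏ i, MvPolynomial.X i) = _
    rw [map_prod]
    exact Finset.prod_congr rfl fun i _ => hgX i
  have hD0 : (∏ i, y i) ≠ 0 := Finset.prod_ne_zero_iff.2 fun i _ => hne i
  have hD : D ≠ 0 := by
    intro h
    rw [h, map_zero] at hgD
    exact hD0 hgD.symm
  have hM : Submonoid.powers D ≤ nonZeroDivisors (MvPolynomial (Fin d) B) :=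
    powers_le_nonZeroDivisors_of_noZeroDivisors hD
  have hicR : IsIntegrallyClosed (MvPolynomial (Fin d) B) := isIntegrallyClosed_mvPolynomial B d
  let S := Localization.Away D
  have : IsDomain S := IsLocalization.isDomain_localization hM
  have : IsIntegrallyClosed S := isIntegrallyClosed_of_isLocalization S (Submonoid.powers D) hM
  have hu : IsUnit (g D) := by
    rw [hgD]
    exact isUnit_iff_ne_zero.2 hD0
  let φ : S →+* F := IsLocalization.Away.lift D hu
  have hφ : ∀ y, φ (algebraMap _ S y) = g y := fun y => IsLocalization.Away.lift_eq D hu y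
  have hφinj : Function.Injective φ := by
    rw [injective_iff_map_eq_zero]
    intro y hy
    obtain ⟨⟨a, s⟩, h1⟩ := IsLocalization.surj (Submonoid.powers D) y
    have h2 := congrArg φ h1
    rw [map_mul, hy, zero_mul, hφ] at h2
    have h3 : a = 0 := hginj (by rw [← h2, map_zero])
    rw [h3, map_zero] at h1
    exact (mul_eq_zero.1 h1).resolve_right
      (IsUnit.ne_zero (IsLocalization.map_units S s))
  have hrange : ∀ b : ↥(Algebra.adjoin B (Set.range y ∪ Set.range fun i => (y i)⁻¹)),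
      ∃ s, φ s = algebraMap _ F b := by
    rintro ⟨b, hb⟩
    show ∃ s, φ s = b
    induction hb using Algebra.adjoin_induction with
    | mem b hb =>
      rcases hb with ⟨i, rfl⟩ | ⟨i, rfl⟩
      · exact ⟨algebraMap _ S (MvPolynomial.X i), by rw [hφ, hgX]⟩
      · have h4 : IsUnit (algebraMap _ S (MvPolynomial.X i : MvPolynomial (Fin d) B)) := by
          refine isUnit_of_dvd_unit (map_dvd (algebraMap _ S)
            (Finset.dvd_prod_of_mem _ (Finset.mem_univ i))) ?_
          exact IsLocalization.Away.algebraMap_isUnit (S := S) D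
        obtain ⟨v, hv⟩ := h4.exists_right_inv
        refine ⟨v, ?_⟩
        have h5 := congrArg φ hv
        rw [map_mul, hφ, hgX, map_one] at h5
        exact eq_inv_of_mul_eq_one_right h5
    | algebraMap a =>
      refine ⟨algebraMap (MvPolynomial (Fin d) B) S (MvPolynomial.C a), ?_⟩
      rw [hφ]
      exact MvPolynomial.aeval_C y a
    | add a b _ _ ha hb =>
      obtain ⟨s, hs⟩ := ha
      obtain ⟨t, ht⟩ := hb
      exact ⟨s + t, by rw [map_add, hs, ht]⟩
    | mul a b _ _ ha hb =>
      obtain ⟨s, hs⟩ := ha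
      obtain ⟨t, ht⟩ := hb
      exact ⟨s * t, by rw [map_mul, hs, ht]⟩
  obtain ⟨ψ, hψ⟩ := N2_lift φ hφinj (algebraMap _ F) hrange
  have hint' : φ.IsIntegralElem x := N2_int hψ hint
  obtain ⟨y', hy'⟩ := N2_icl φ hφinj (p := algebraMap _ S p) (q := algebraMap _ S q)
    (by rw [hφ, hφ]; exact hpq) hint'
  obtain ⟨⟨a, s⟩, h1⟩ := IsLocalization.surj (Submonoid.powers D) y'
  obtain ⟨N, hN⟩ := s.2
  have h2 := congrArg φ h1
  rw [map_mul, hy', hφ, hφ] at h2
  have hN' : (s : MvPolynomial (Fin d) B) = D ^ N := hN.symm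
  rw [hN', map_pow, hgD] at h2
  exact ⟨N, a, h2⟩

/-- Laurent monomials in algebraically independent elements are linearly independent -/
private theorem N2_lin {k F : Type*} [Field k] [Field F] [Algebra k F] {d : ℕ} {y : Fin d → F}
    (hy : AlgebraicIndependent k y) :
    LinearIndependent k (fun z : Fin d → ℤ => ∏ j, y j ^ z j) := by
  classical
  have hne : ∀ i, y i ≠ 0 := fun i => hy.ne_zero i
  have hP : ∀ N : ℕ, (∏ j, y j) ^ N ≠ 0 := fun N =>
    pow_ne_zero _ (Finset.prod_ne_zero_iff.2 fun i _ => hne i)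
  rw [linearIndependent_iff']
  intro Z g hg z hz
  -- a common bound for the exponents
  obtain ⟨N, hN⟩ : ∃ N : ℕ, ∀ z ∈ Z, ∀ j, 0 ≤ z j + N := by
    refine ⟨∑ z ∈ Z, ∑ j, (z j).natAbs, fun z hz j => ?_⟩
    have h1 : (z j).natAbs ≤ ∑ j, (z j).natAbs :=
      Finset.single_le_sum (f := fun j => (z j).natAbs) (fun _ _ => Nat.zero_le _)
        (Finset.mem_univ j)
    have h2 : ∑ j, (z j).natAbs ≤ ∑ z ∈ Z, ∑ j, (z j).natAbs :=
      Finset.single_le_sum (f := fun z : Fin d → ℤ => ∑ j, (z j).natAbs)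
        (fun _ _ => Nat.zero_le _) hz
    omega
  -- the shifted exponents
  let n : (Fin d → ℤ) → (Fin d →₀ ℕ) := fun z =>
    Finsupp.equivFunOnFinite.symm fun j => (z j + N).toNat
  have hn : ∀ z j, n z j = (z j + N).toNat := fun z j => rfl
  have hninj : ∀ z ∈ Z, ∀ z' ∈ Z, n z = n z' → z = z' := by
    intro z hz z' hz' h
    funext j
    have h1 : n z j = n z' j := by rw [h]
    rw [hn, hn] at h1
    have h2 := hN z hz j
    have h3 := hN z' hz' j
    omega
  have hmon : ∀ z ∈ Z, MvPolynomial.aeval y (MvPolynomial.monomial (n z) (g z)) =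
      (g z • ∏ j, y j ^ z j) * (∏ j, y j) ^ N := by
    intro z hz
    rw [MvPolynomial.aeval_monomial, Algebra.smul_def, mul_assoc]
    congr 1
    rw [Finsupp.prod_fintype _ _ (fun i => pow_zero _), ← Finset.prod_pow,
      ← Finset.prod_mul_distrib]
    refine Finset.prod_congr rfl fun j _ => ?_
    rw [hn, ← zpow_natCast, Int.toNat_of_nonneg (hN z hz j), zpow_add₀ (hne j), zpow_natCast]
  have h0 : MvPolynomial.aeval y (∑ z ∈ Z, MvPolynomial.monomial (n z) (g z)) = 0 := by
    rw [map_sum, Finset.sum_congr rfl hmon, ← Finset.sum_mul, hg, zero_mul]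
  have h1 : ∑ z ∈ Z, MvPolynomial.monomial (n z) (g z) = 0 := hy (by rw [h0, map_zero])
  have h2 := congrArg (MvPolynomial.coeff (n z)) h1
  rw [MvPolynomial.coeff_sum, Finset.sum_eq_single z, MvPolynomial.coeff_monomial, if_pos rfl,
    MvPolynomial.coeff_zero] at h2
  · exact h2
  · intro z' hz' hne'
    rw [MvPolynomial.coeff_monomial, if_neg]
    exact fun h => hne' (hninj z' hz' z hz h)
  · exact fun h => absurd hz h

/-- the product of a polynomial value with a negative power of the product of the variables -/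
private theorem N2_exp {B F : Type*} [CommRing B] [Field F] [Algebra B F] {d : ℕ} {y : Fin d → F}
    (hne : ∀ i, y i ≠ 0) (a : MvPolynomial (Fin d) B) (N : ℕ) {x : F}
    (h : x * (∏ j, y j) ^ N = MvPolynomial.aeval y a) :
    x = ∑ s ∈ a.support, algebraMap B F (a.coeff s) * ∏ j, y j ^ ((s j : ℤ) - N) := by
  have hD0 : (∏ i, y i) ≠ 0 := Finset.prod_ne_zero_iff.2 fun i _ => hne i
  have h3 : x = MvPolynomial.aeval y a * ((∏ i, y i) ^ N)⁻¹ := by
    rw [← h, mul_assoc, mul_inv_cancel₀ (pow_ne_zero _ hD0), mul_one]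
  have h4 : MvPolynomial.aeval y a = ∑ s ∈ a.support, algebraMap B F (a.coeff s) *
      ∏ i, y i ^ s i := by
    rw [MvPolynomial.aeval_def, MvPolynomial.eval₂_eq']
  rw [h3, h4, Finset.sum_mul]
  refine Finset.sum_congr rfl fun s _ => ?_
  rw [mul_assoc, ← Finset.prod_pow, ← Finset.prod_inv_distrib, ← Finset.prod_mul_distrib]
  congr 1
  refine Finset.prod_congr rfl fun i _ => ?_
  rw [zpow_sub₀ (hne i), zpow_natCast, zpow_natCast, div_eq_mul_inv]

/-- the valuation ring is integrally closed -/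
private theorem N2_O (k : Type*) [NontriviallyNormedField k] [IsUltrametricDist k] :
    IsIntegrallyClosed ↥(O k) := by
  have hI := Valuation.integer.integers (NormedField.valuation (K := k))
  have hF : IsFractionRing ↥(O k) k := hI.isFractionRing
  rw [isIntegrallyClosed_iff k]
  intro x hx
  exact ⟨⟨x, hI.mem_of_integral hx⟩, rfl⟩

/-- N2.  Proof.  Let `R₁ = O k [u j, (u j)⁻¹]`. Let `x = ∑ a z u ^ z` (a finite sum over `Z`, `a z ∈ k`) be integral over
`R₁`: `x ^ n + b 1 x ^ (n-1) + … + b n = 0`. Let `m = (∏ u j) ^ N`, `N` so large that `m ^ i b i ∈ O k[u]` for all `i` and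
`x m ∈ k[u]`. Then `y = x m` is integral over `O k[u] ≅ MvPolynomial (Fin d) (O k)`, which is integrally closed
(`isIntegrallyClosed_mvPolynomial`, module DA/S4; `O k` is a valuation ring, so integrally closed), and `y` is in
its fraction field, so `y ∈ O k[u]`. As the monomials in `u` are linearly independent over `k`, the
coefficients `a z` of `y` have norm `≤ 1`. -/
theorem norm_coeff_le {k F : Type*} [NontriviallyNormedField k] [IsUltrametricDist k] [Field F]
    [Algebra k F] {d : ℕ} {u : Fin d → F} (hu : AlgebraicIndependent k u)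
    (Z : Finset (Fin d → ℤ)) (a : (Fin d → ℤ) → k)
    (hint : IsIntegral
      ↥(Algebra.adjoin (O k) (Set.range u ∪ Set.range fun j => (u j)⁻¹) : Subalgebra (O k) F)
      (∑ z ∈ Z, algebraMap k F (a z) * ∏ j, u j ^ z j)) {z : Fin d → ℤ} (hz : z ∈ Z) :
    ‖a z‖ ≤ 1 := by
  classical
  have hic : IsIntegrallyClosed ↥(O k) := N2_O k
  have hne : ∀ i, u i ≠ 0 := fun i => hu.ne_zero i
  have hu' : AlgebraicIndependent ↥(O k) u :=
    hu.restrictScalars (fun x y hxy => Subtype.ext hxy)
  -- a common denominator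
  obtain ⟨c, hc0, hc1, hc⟩ : ∃ c : k, c ≠ 0 ∧ ‖c‖ ≤ 1 ∧ ∀ z ∈ Z, ‖c * a z‖ ≤ 1 := by
    have hB : ∃ B : ℝ, 1 ≤ B ∧ ∀ z ∈ Z, ‖a z‖ ≤ B := by
      refine ⟨1 + ∑ z ∈ Z, ‖a z‖, ?_, fun z hz => ?_⟩
      · have : 0 ≤ ∑ z ∈ Z, ‖a z‖ := Finset.sum_nonneg fun _ _ => norm_nonneg _
        linarith
      · have := Finset.single_le_sum (f := fun z => ‖a z‖) (fun _ _ => norm_nonneg _) hz
        linarith
    obtain ⟨B, hB1, hB⟩ := hB
    obtain ⟨c, hc1, hc2⟩ := NormedField.exists_norm_lt k (inv_pos.2 (zero_lt_one.trans_le hB1))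
    have h1 : ‖c‖ * B ≤ 1 := by
      have h2 : ‖c‖ * B ≤ B⁻¹ * B :=
        mul_le_mul_of_nonneg_right hc2.le (zero_le_one.trans hB1)
      rwa [inv_mul_cancel₀ (zero_lt_one.trans_le hB1).ne'] at h2
    refine ⟨c, norm_pos_iff.1 hc1, ?_, fun z hz => ?_⟩
    · calc ‖c‖ = ‖c‖ * 1 := (mul_one _).symm
        _ ≤ ‖c‖ * B := mul_le_mul_of_nonneg_left hB1 hc1.le
        _ ≤ 1 := h1
    · rw [norm_mul]
      exact (mul_le_mul_of_nonneg_left (hB z hz) hc1.le).trans h1
  -- a common bound for the exponents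
  obtain ⟨N, hN⟩ : ∃ N : ℕ, ∀ z ∈ Z, ∀ j, 0 ≤ z j + N := by
    refine ⟨∑ z ∈ Z, ∑ j, (z j).natAbs, fun z hz j => ?_⟩
    have h1 : (z j).natAbs ≤ ∑ j, (z j).natAbs :=
      Finset.single_le_sum (f := fun j => (z j).natAbs) (fun _ _ => Nat.zero_le _)
        (Finset.mem_univ j)
    have h2 : ∑ j, (z j).natAbs ≤ ∑ z ∈ Z, ∑ j, (z j).natAbs :=
      Finset.single_le_sum (f := fun z : Fin d → ℤ => ∑ j, (z j).natAbs)
        (fun _ _ => Nat.zero_le _) hz
    omega
  let n : (Fin d → ℤ) → (Fin d →₀ ℕ) := fun z =>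
    Finsupp.equivFunOnFinite.symm fun j => (z j + N).toNat
  have hn : ∀ z j, n z j = (z j + N).toNat := fun z j => rfl
  let b : (Fin d → ℤ) → ↥(O k) := fun z =>
    if h : ‖c * a z‖ ≤ 1 then ⟨c * a z, mem_O.2 h⟩ else 0
  have hb : ∀ z ∈ Z, ((b z : ↥(O k)) : k) = c * a z := by
    intro z hz
    show (((if h : ‖c * a z‖ ≤ 1 then ⟨c * a z, mem_O.2 h⟩ else 0 : ↥(O k))) : k) = c * a z
    rw [dif_pos (hc z hz)]
  have hmap : ∀ t : ↥(O k), algebraMap ↥(O k) F t = algebraMap k F (t : k) := fun t => rfl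
  set D : MvPolynomial (Fin d) ↥(O k) := ∏ i, MvPolynomial.X i with hD
  have hgD : MvPolynomial.aeval u D = ∏ i, u i := by
    rw [hD, map_prod]
    exact Finset.prod_congr rfl fun i _ => MvPolynomial.aeval_X u i
  have hD0 : (∏ i, u i) ≠ 0 := Finset.prod_ne_zero_iff.2 fun i _ => hne i
  have hp : (∑ z ∈ Z, algebraMap k F (a z) * ∏ j, u j ^ z j) =
      MvPolynomial.aeval u (∑ z ∈ Z, MvPolynomial.monomial (n z) (b z)) /
      MvPolynomial.aeval u (MvPolynomial.C (⟨c, mem_O.2 hc1⟩ : ↥(O k)) * D ^ N) := by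
    have hc0' : algebraMap k F c ≠ 0 := (_root_.map_ne_zero _).2 hc0
    rw [map_mul, map_pow, hgD, MvPolynomial.aeval_C, hmap]
    rw [eq_div_iff (mul_ne_zero hc0' (pow_ne_zero _ hD0)), map_sum, Finset.sum_mul]
    refine Finset.sum_congr rfl fun z hz => ?_
    rw [MvPolynomial.aeval_monomial, hmap, hb z hz, map_mul,
      Finsupp.prod_fintype _ _ (fun i => pow_zero _)]
    have h1 : ∏ i, u i ^ n z i = (∏ i, u i ^ z i) * (∏ i, u i) ^ N := by
      rw [← Finset.prod_pow, ← Finset.prod_mul_distrib]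
      refine Finset.prod_congr rfl fun j _ => ?_
      rw [hn, ← zpow_natCast, Int.toNat_of_nonneg (hN z hz j), zpow_add₀ (hne j), zpow_natCast]
    rw [h1]
    ring
  obtain ⟨M, A, hA⟩ := N2_core hu' _ _ hp hint
  have h1 := N2_exp hne A M hA
  have hlin := N2_lin hu
  rw [linearIndependent_iff_injective_finsuppLinearCombination] at hlin
  have h2 : Finsupp.linearCombination k (fun z : Fin d → ℤ => ∏ j, u j ^ z j)
      (∑ z ∈ Z, Finsupp.single z (a z)) =
      Finsupp.linearCombination k (fun z : Fin d → ℤ => ∏ j, u j ^ z j)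
      (∑ s ∈ A.support, Finsupp.single (fun j => (s j : ℤ) - M) ((A.coeff s : ↥(O k)) : k)) := by
    rw [map_sum, map_sum]
    simp only [Finsupp.linearCombination_single, Algebra.smul_def]
    exact h1
  have h3 := DFunLike.congr_fun (hlin h2) z
  rw [Finsupp.finsetSum_apply, Finsupp.finsetSum_apply, Finset.sum_eq_single z,
    Finsupp.single_eq_same] at h3
  · rw [h3]
    refine mem_O.1 (sum_mem fun s _ => ?_)
    rw [Finsupp.single_apply]
    split_ifs
    · exact (A.coeff s).2
    · exact (O k).zero_mem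
  · intro z' _ hz'
    exact Finsupp.single_eq_of_ne' hz'
  · exact fun h => absurd hz h

/-- N2b.  Proof.  `laurent_of_integral` in module DA/S3 (same proof: `k[y]` is a unique factorization domain, so
integrally closed; `(∏ y j) ^ N * x` is integral over `k[y]` for large `N`). -/
theorem laurent_of_integral {k F : Type*} [Field k] [Field F] [Algebra k F] {d : ℕ}
    {y : Fin d → F} (hy : AlgebraicIndependent k y) {x : F}
    (hx : x ∈ IntermediateField.adjoin k (Set.range y))
    (hint : IsIntegral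
      ↥(Algebra.adjoin k (Set.range y ∪ Set.range fun j => (y j)⁻¹)) x) :
    ∃ (Z : Finset (Fin d → ℤ)) (a : (Fin d → ℤ) → k),
      x = ∑ z ∈ Z, algebraMap k F (a z) * ∏ j, y j ^ z j := by
  classical
  obtain ⟨p, q, hpq⟩ := (IntermediateField.mem_adjoin_range_iff k y x).1 hx
  obtain ⟨N, a, hN⟩ := N2_core hy p q hpq hint
  have h1 := N2_exp (fun i => hy.ne_zero i) a N hN
  have h2 : x ∈ Submodule.span k (Set.range fun z : Fin d → ℤ => ∏ j, y j ^ z j) := by
    rw [h1]
    refine Submodule.sum_mem _ fun s _ => ?_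
    rw [← Algebra.smul_def]
    exact Submodule.smul_mem _ _ (Submodule.subset_span ⟨fun i => (s i : ℤ) - N, rfl⟩)
  obtain ⟨c, hc⟩ := Finsupp.mem_span_range_iff_exists_finsupp.1 h2
  refine ⟨c.support, c, ?_⟩
  rw [← hc, Finsupp.sum]
  refine Finset.sum_congr rfl fun z _ => ?_
  rw [Algebra.smul_def]

end DS
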