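import Pool.Agent.Lib.DS.N1

/-!
# Module N4: algebraic independence and injectivity
-/

namespace DS

open MP1a953e DA

section
variable {k F : Type*} [NormedField k] [IsUltrametricDist k] [Field F] [Algebra k F]

/-- the images of `x 1, …, x d` and of the variables -/
noncomputable def fam {d : ℕ} {σ : Type*} {ϖ : O k}
    (f : MvPolynomial σ (SS d ϖ) →ₐ[O k] F) : Fin d ⊕ σ → F :=
  Sum.elim (fun j => f (MvPolynomial.C (SS.x j.succ))) (fun s => f (MvPolynomial.X s))

private theorem n4_alg (k : Type*) [NormedField k] [IsUltrametricDist k] :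
    Algebra.IsAlgebraic (O k) k := by
  constructor
  intro c
  by_cases hc : ‖c‖ ≤ 1
  · exact isAlgebraic_algebraMap (⟨c, mem_O.2 hc⟩ : O k)
  · have hc0 : c ≠ 0 := by
      rintro rfl
      exact hc (by simp)
    have hci : ‖c⁻¹‖ ≤ 1 := by
      rw [norm_inv]
      exact inv_le_one_of_one_le₀ (not_le.1 hc).le
    have h1 : IsAlgebraic (O k) (c⁻¹)⁻¹ :=
      (isAlgebraic_algebraMap (⟨c⁻¹, mem_O.2 hci⟩ : O k)).inv
    rwa [inv_inv] at h1

/-- N4a.  Proof.  Let `G` be a polynomial over `k` with `G(fam f) = 0`, `G ≠ 0`. After multiplication with a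
nonzero constant the coefficients are in `O k`. Let `H` be the image of `G` in `MvPolynomial σ (SS d ϖ)`
(`inl j ↦ C (x (j+1))`, `inr s ↦ X s`); `f H = 0`, so `H = 0`. The coefficients of `H` are the images in
`SS d ϖ` of polynomials in `X 1, …, X d`; the homomorphism `MvPolynomial (Fin d) (O k) → SS d ϖ` is injective
(compose with the homomorphism to the fraction field of `MvPolynomial (Fin d) k`, `exists_ss_hom`), so
`G = 0` (use `MvPolynomial.sumAlgEquiv` or `MvPolynomial.sumToIter`). -/
theorem algebraicIndependent_fam {d : ℕ} {σ : Type*} {ϖ : O k} (hϖ : ϖ ≠ 0)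
    (f : MvPolynomial σ (SS d ϖ) →ₐ[O k] F) (hf : Function.Injective f) :
    AlgebraicIndependent k (fam f) := by
  have halg := n4_alg k
  have h1 : AlgebraicIndependent (O k) (fun j : Fin d => (SS.x j.succ : SS d ϖ)) := by
    obtain ⟨g, -, hg, -⟩ := exists_ss_hom d hϖ
    have h2 : AlgebraicIndependent (O k) (fun j : Fin d => g (SS.x j.succ)) :=
      hg.restrictScalars (Subtype.val_injective)
    exact AlgebraicIndependent.of_comp g h2
  have h2 : AlgebraicIndependent (O k)
      (Sum.elim (MvPolynomial.X : σ → MvPolynomial σ (SS d ϖ))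
        (algebraMap (SS d ϖ) (MvPolynomial σ (SS d ϖ)) ∘
          (fun j : Fin d => (SS.x j.succ : SS d ϖ)))) :=
    h1.sumElim_comp (MvPolynomial.algebraicIndependent_X σ (SS d ϖ))
  have h3 : AlgebraicIndependent (O k) (fam f) := by
    have h4 := (h2.map' hf).comp (Sum.swap : Fin d ⊕ σ → σ ⊕ Fin d)
      (Equiv.sumComm (Fin d) σ).injective
    refine (algebraicIndependent_equiv' (Equiv.refl _) ?_).1 h4
    funext i
    rcases i with j | s <;> rfl
  exact h3.extendScalars k

/-- N4b.  Proof.  Let `y j = fam f (inl j)`, `w s = fam f (inr s)`. The `y j` are algebraically independent, so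
`f` is injective on `SS d ϖ` (`injective_ss`) with values in `M = k(y)` (`x 0 = ϖ / ∏ y j`). The `w s` are
algebraically independent over `M` (`AlgebraicIndependent.sumElim_iff` or similar and passage to the
field generated), and `f` is the composition of the injective map
`MvPolynomial σ (SS d ϖ) → MvPolynomial σ M` and `aeval w`. -/
theorem injective_of_fam {d : ℕ} {σ : Type*} {ϖ : O k} (hϖ : ϖ ≠ 0)
    (f : MvPolynomial σ (SS d ϖ) →ₐ[O k] F) (h : AlgebraicIndependent k (fam f)) :
    Function.Injective f := by
  have hy : AlgebraicIndependent k fun j : Fin d => f (MvPolynomial.C (SS.x j.succ)) :=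
    h.comp Sum.inl Sum.inl_injective
  let g : SS d ϖ →ₐ[O k] F := f.comp (Algebra.algHom (O k) (SS d ϖ) (MvPolynomial σ (SS d ϖ)))
  have hgC : ∀ a, g a = f (MvPolynomial.C a) := fun _ => rfl
  have hg : Function.Injective g := injective_ss hϖ g hy
  set y : Fin d → F := fun j => f (MvPolynomial.C (SS.x j.succ)) with hydef
  set w : σ → F := fun s => f (MvPolynomial.X s) with hwdef
  have h1 : AlgebraicIndependent k (Sum.elim w y) := by
    have h4 := h.comp (Sum.swap : σ ⊕ Fin d → Fin d ⊕ σ) (Equiv.sumComm σ (Fin d)).injective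
    refine (algebraicIndependent_equiv' (Equiv.refl _) ?_).1 h4
    funext i
    rcases i with j | s <;> rfl
  have h2 := (AlgebraicIndependent.sumElim_iff.1 h1).2
  let M : IntermediateField k F := IntermediateField.adjoin k (Set.range y)
  have h3 : AlgebraicIndependent M w := IntermediateField.algebraicIndependent_adjoin_iff.2 h2
  have hyM : ∀ j, y j ∈ M := fun j => IntermediateField.subset_adjoin k _ ⟨j, rfl⟩
  have hx : ∀ i : Fin (d + 1), g (SS.x i) ∈ M := by
    intro i
    refine Fin.cases ?_ (fun j => ?_) i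
    · have e1 := congrArg g (SS.prod_x d ϖ)
      rw [map_prod, Fin.prod_univ_succ, g.commutes] at e1
      have e2 : ∏ j : Fin d, g (SS.x j.succ) ∈ M := prod_mem fun j _ => hyM j
      have e3 : (∏ j : Fin d, g (SS.x j.succ)) ≠ 0 := by
        rw [Finset.prod_ne_zero_iff]
        intro j _
        exact hy.ne_zero j
      have e4 : g (SS.x 0) = algebraMap k F ϖ / ∏ j : Fin d, g (SS.x j.succ) := by
        rw [eq_div_iff e3]
        exact e1
      rw [e4]
      exact M.div_mem (M.algebraMap_mem _) e2
    · exact hyM j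
  have hM : ∀ a : SS d ϖ, g a ∈ M := by
    intro a
    obtain ⟨p, rfl⟩ := SS.mk_surjective d ϖ a
    induction p using MvPolynomial.induction_on with
    | C c =>
      have e : SS.mk d ϖ (MvPolynomial.C c) = algebraMap (O k) (SS d ϖ) c :=
        (SS.mk d ϖ).commutes c
      rw [e, g.commutes]
      exact M.algebraMap_mem (c : k)
    | add p q hp hq =>
      rw [map_add, map_add]
      exact M.add_mem hp hq
    | mul_X p i hp =>
      rw [map_mul, map_mul, SS.mk_X]
      exact M.mul_mem hp (hx i)
  letI a1 : Algebra (SS d ϖ) M := (g.toRingHom.codRestrict M.toSubfield hM).toAlgebra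
  letI a2 : Algebra (SS d ϖ) F := g.toRingHom.toAlgebra
  haveI : IsScalarTower (SS d ϖ) M F := IsScalarTower.of_algebraMap_eq fun _ => rfl
  have h4 : AlgebraicIndependent (SS d ϖ) w := h3.restrictScalars (by
    intro a b hab
    exact hg (congrArg (Subtype.val : M → F) hab))
  have h5 : ∀ p, f p = MvPolynomial.aeval w p := by
    intro p
    induction p using MvPolynomial.induction_on with
    | C a =>
      rw [MvPolynomial.aeval_C]
      rfl
    | add p q hp hq => rw [map_add, map_add, hp, hq]
    | mul_X p i hp => rw [map_mul, map_mul, hp, MvPolynomial.aeval_X]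
  intro p q hpq
  rw [h5, h5] at hpq
  exact h4 hpq

end

end DS
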