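import Pool.Agent.Lib.DS.Charts

/-!
# Module Nm: the norm of a valuation ring of the analytic space
-/

namespace DS

open MP1a953e DA

/-- the value group is dense -/
private theorem nm_dense (k : Type*) [NontriviallyNormedField k] [IsAlgClosed k] {a b : ℝ}
    (ha : 0 < a) (hab : a < b) : ∃ c : k, c ≠ 0 ∧ a < ‖c‖ ∧ ‖c‖ < b := by
  obtain ⟨t, ht⟩ := NormedField.exists_one_lt_norm k
  have hba : 1 < b / a := (one_lt_div ha).2 hab
  obtain ⟨N, hN⟩ := pow_unbounded_of_one_lt ‖t‖ hba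
  have hN0 : N ≠ 0 := by
    rintro rfl
    rw [pow_zero] at hN
    exact absurd ht (not_lt.2 hN.le)
  obtain ⟨s, hs⟩ := IsAlgClosed.exists_pow_nat_eq t (Nat.pos_of_ne_zero hN0)
  have hsN : ‖s‖ ^ N = ‖t‖ := by rw [← norm_pow, hs]
  have hs1 : 1 < ‖s‖ := by
    by_contra h
    have h1 := pow_le_one₀ (n := N) (norm_nonneg s) (not_lt.1 h)
    rw [hsN] at h1
    exact absurd ht (not_lt.2 h1)
  have hs2 : ‖s‖ < b / a := by
    by_contra h
    have h1 : (b / a) ^ N ≤ ‖s‖ ^ N := pow_le_pow_left₀ (by positivity) (not_lt.1 h) N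
    rw [hsN] at h1
    exact absurd hN (not_lt.2 h1)
  obtain ⟨n, hn1, hn2⟩ := exists_mem_Ico_zpow ha hs1
  have hs0 : s ≠ 0 := norm_pos_iff.1 (zero_lt_one.trans hs1)
  refine ⟨s ^ (n + 1), zpow_ne_zero _ hs0, ?_, ?_⟩
  · rw [norm_zpow]
    exact hn2
  · rw [norm_zpow, zpow_add_one₀ (norm_ne_zero_iff.2 hs0)]
    calc ‖s‖ ^ n * ‖s‖ ≤ a * ‖s‖ := mul_le_mul_of_nonneg_right hn1 (norm_nonneg s)
      _ < a * (b / a) := mul_lt_mul_of_pos_left hs2 ha
      _ = b := by field_simp

/-- the norms of all constants `c ≠ 0` with `x / c ∈ V` -/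
private def nmS (k : Type*) {L : Type*} [NontriviallyNormedField k] [Field L] [Algebra k L]
    (V : ValuationSubring L) (x : L) : Set ℝ :=
  {r | ∃ c : k, c ≠ 0 ∧ algebraMap k L c⁻¹ * x ∈ V ∧ r = ‖c‖}

private theorem nmS_bdd (k : Type*) {L : Type*} [NontriviallyNormedField k] [Field L] [Algebra k L]
    (V : ValuationSubring L) (x : L) : BddBelow (nmS k V x) := by
  refine ⟨0, ?_⟩
  rintro _ ⟨c, -, -, rfl⟩
  exact norm_nonneg c

private theorem nmS_nonempty {k L : Type*} [NontriviallyNormedField k] [Field L] [Algebra k L]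
    {V : ValuationSubring L} (hpt : Pt k V) (x : L) : (nmS k V x).Nonempty := by
  obtain ⟨c, hc, h⟩ := hpt.arch x
  exact ⟨‖c⁻¹‖, c⁻¹, inv_ne_zero hc, by rwa [inv_inv], rfl⟩

private theorem nmS_le {k L : Type*} [NontriviallyNormedField k] [Field L] [Algebra k L]
    {V : ValuationSubring L} {x : L} {c : k} (hc : c ≠ 0)
    (h : algebraMap k L c⁻¹ * x ∈ V) : sInf (nmS k V x) ≤ ‖c‖ :=
  csInf_le (nmS_bdd k V x) ⟨c, hc, h, rfl⟩

private theorem nmS_lt {k L : Type*} [NontriviallyNormedField k] [Field L] [Algebra k L]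
    {V : ValuationSubring L} (hpt : Pt k V) {x : L} {r : ℝ} (h : sInf (nmS k V x) < r) :
    ∃ c : k, c ≠ 0 ∧ algebraMap k L c⁻¹ * x ∈ V ∧ ‖c‖ < r := by
  obtain ⟨_, ⟨c, hc, h1, rfl⟩, h2⟩ := exists_lt_of_csInf_lt (nmS_nonempty hpt x) h
  exact ⟨c, hc, h1, h2⟩

/-- larger constants are also denominators -/
private theorem nmS_up {k L : Type*} [NontriviallyNormedField k] [Field L] [Algebra k L]
    {V : ValuationSubring L} (hpt : Pt k V) {x : L} {c d : k} (hc : c ≠ 0) (hd : d ≠ 0)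
    (hcd : ‖c‖ ≤ ‖d‖) (h : algebraMap k L c⁻¹ * x ∈ V) : algebraMap k L d⁻¹ * x ∈ V := by
  have h1 : algebraMap k L (c / d) ∈ V := by
    rw [hpt.const, norm_div]
    exact div_le_one_of_le₀ hcd (norm_nonneg d)
  have h2 : algebraMap k L d⁻¹ * x = algebraMap k L (c / d) * (algebraMap k L c⁻¹ * x) := by
    rw [← mul_assoc, ← map_mul]
    congr 2
    field_simp
  rw [h2]
  exact V.mul_mem _ _ h1 h

/-- submultiplicativity -/
private theorem nm_mul_le {k L : Type*} [NontriviallyNormedField k] [Field L] [Algebra k L]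
    {V : ValuationSubring L} (hpt : Pt k V) (x y : L) :
    sInf (nmS k V (x * y)) ≤ sInf (nmS k V x) * sInf (nmS k V y) := by
  have hx0 : 0 ≤ sInf (nmS k V x) := Real.sInf_nonneg (by
    rintro _ ⟨c, -, -, rfl⟩
    exact norm_nonneg c)
  have hy0 : 0 ≤ sInf (nmS k V y) := Real.sInf_nonneg (by
    rintro _ ⟨c, -, -, rfl⟩
    exact norm_nonneg c)
  refine le_of_forall_pos_lt_add fun ε hε => ?_
  obtain ⟨δ, hδ, hδε⟩ : ∃ δ : ℝ, 0 < δ ∧
      (sInf (nmS k V x) + δ) * (sInf (nmS k V y) + δ) <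
        sInf (nmS k V x) * sInf (nmS k V y) + ε := by
    have hcont : Filter.Tendsto (fun δ : ℝ =>
        (sInf (nmS k V x) + δ) * (sInf (nmS k V y) + δ)) (nhdsWithin 0 (Set.Ioi 0))
        (nhds ((sInf (nmS k V x) + 0) * (sInf (nmS k V y) + 0))) := by
      refine Filter.Tendsto.mono_left ?_ nhdsWithin_le_nhds
      exact (Continuous.tendsto (by fun_prop) 0)
    rw [add_zero, add_zero] at hcont
    have h1 := hcont.eventually (gt_mem_nhds (lt_add_of_pos_right _ hε))
    have h2 := h1.and (self_mem_nhdsWithin)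
    obtain ⟨δ, h3, h4⟩ := h2.exists
    exact ⟨δ, h4, h3⟩
  obtain ⟨c, hc, hcV, hcn⟩ := nmS_lt hpt (x := x) (lt_add_of_pos_right _ hδ)
  obtain ⟨d, hd, hdV, hdn⟩ := nmS_lt hpt (x := y) (lt_add_of_pos_right _ hδ)
  have h1 : algebraMap k L (c * d)⁻¹ * (x * y) =
      (algebraMap k L c⁻¹ * x) * (algebraMap k L d⁻¹ * y) := by
    rw [mul_inv, map_mul]
    ring
  have h2 := nmS_le (k := k) (V := V) (x := x * y) (mul_ne_zero hc hd)
    (by rw [h1]; exact V.mul_mem _ _ hcV hdV)
  refine (h2.trans_lt ?_).trans hδε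
  rw [norm_mul]
  exact mul_lt_mul'' hcn hdn (norm_nonneg c) (norm_nonneg d)

private theorem nm_nonneg {k L : Type*} [NontriviallyNormedField k] [Field L] [Algebra k L]
    (V : ValuationSubring L) (x : L) : 0 ≤ sInf (nmS k V x) := Real.sInf_nonneg (by
    rintro _ ⟨c, -, -, rfl⟩
    exact norm_nonneg c)

private theorem nm_pos {k L : Type*} [NontriviallyNormedField k] [Field L] [Algebra k L]
    {V : ValuationSubring L} (hpt : Pt k V) {x : L} (hx : x ≠ 0) : 0 < sInf (nmS k V x) := by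
  obtain ⟨c, hc, h⟩ := hpt.arch x⁻¹
  have h1 : ‖c‖ ≤ sInf (nmS k V x) := by
    refine le_csInf (nmS_nonempty hpt x) ?_
    rintro _ ⟨d, hd, hdV, rfl⟩
    have h2 : algebraMap k L (c / d) = (algebraMap k L c * x⁻¹) * (algebraMap k L d⁻¹ * x) := by
      rw [div_eq_mul_inv, map_mul]
      field_simp
    have h3 : algebraMap k L (c / d) ∈ V := by
      rw [h2]
      exact V.mul_mem _ _ h hdV
    rw [hpt.const, norm_div, div_le_one (norm_pos_iff.2 hd)] at h3
    exact h3
  exact (norm_pos_iff.2 hc).trans_le h1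

/-- the inverse -/
private theorem nm_inv_le {k L : Type*} [NontriviallyNormedField k] [IsAlgClosed k] [Field L]
    [Algebra k L] {V : ValuationSubring L} (hpt : Pt k V) {x : L} (hx : x ≠ 0) :
    sInf (nmS k V x⁻¹) ≤ (sInf (nmS k V x))⁻¹ := by
  have hpos := nm_pos hpt hx
  refine le_of_forall_gt fun r hr => ?_
  have hr0 : 0 < r := (inv_pos.2 hpos).trans hr
  have h1 : r⁻¹ < sInf (nmS k V x) := by
    rw [inv_lt_comm₀ hr0 hpos]
    exact hr
  obtain ⟨c, hc, hc1, hc2⟩ := nm_dense k (inv_pos.2 hr0) h1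
  have h2 : algebraMap k L c⁻¹ * x ∉ V := fun h => absurd (nmS_le hc h) (not_le.2 hc2)
  have h3 : algebraMap k L c⁻¹⁻¹ * x⁻¹ ∈ V := by
    have h4 := (V.mem_or_inv_mem (algebraMap k L c⁻¹ * x)).resolve_left h2
    rw [mul_inv, ← map_inv₀] at h4
    exact h4
  have h5 := nmS_le (inv_ne_zero hc) h3
  refine h5.trans_lt ?_
  rw [norm_inv, inv_lt_comm₀ (norm_pos_iff.2 hc) hr0]
  exact hc1

/-- Nm1.  Proof.  For `x ≠ 0` let `ν x` be the infimum of all `‖c‖`, `c ≠ 0` a constant with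
`x / c ∈ V`. There are such `c` (`arch`), and if `x / c ∈ V` and `c' / x ∈ V` then `c' / c ∈ V`, so
`‖c'‖ ≤ ‖c‖` (`const`). For every `c ≠ 0`, `x / c ∈ V` or `c / x ∈ V`. As `k` is algebraically closed the
set of all `‖c‖` is dense in the positive real numbers, so `ν x` is also the supremum of all `‖c‖` with
`c / x ∈ V`; so `ν x > 0` and `ν (x⁻¹) = (ν x)⁻¹`. `ν (x * y) ≤ ν x * ν y` (products), so
`ν x = ν (x * y * y⁻¹) ≤ ν (x * y) * (ν y)⁻¹`. Sums: if `‖c‖ ≤ ‖c'‖`, `x / c, y / c' ∈ V` then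
`(x + y) / c' ∈ V`. -/
theorem exists_nu {k L : Type*} [NontriviallyNormedField k] [IsUltrametricDist k] [IsAlgClosed k]
    [Field L] [Algebra k L] {V : ValuationSubring L} (hpt : Pt k V) :
    ∃ ν : L → ℝ, ν 0 = 0 ∧ (∀ x, x ≠ 0 → 0 < ν x) ∧ (∀ x y, ν (x * y) = ν x * ν y) ∧
      (∀ x y, ν (x + y) ≤ max (ν x) (ν y)) ∧ (∀ c : k, ν (algebraMap k L c) = ‖c‖) ∧
      (∀ x ∈ V, ν x ≤ 1) ∧ ∀ x, ν x < 1 → x ∈ V := by
  refine ⟨fun x => sInf (nmS k V x), ?_, fun x hx => nm_pos hpt hx, fun x y => ?_, fun x y => ?_,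
    fun c => ?_, fun x hx => ?_, fun x hx => ?_⟩
  · refine le_antisymm ?_ (nm_nonneg V 0)
    refine le_of_forall_pos_le_add fun ε hε => ?_
    obtain ⟨c, hc, -, hc2⟩ := nm_dense k (half_pos hε) (half_lt_self hε)
    rw [zero_add]
    exact (nmS_le hc (by rw [mul_zero]; exact V.zero_mem)).trans hc2.le
  · refine le_antisymm (nm_mul_le hpt x y) ?_
    rcases eq_or_ne y 0 with rfl | hy
    · rw [mul_zero]
      have h0 : sInf (nmS k V (0 : L)) = 0 := by
        refine le_antisymm ?_ (nm_nonneg V 0)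
        refine le_of_forall_pos_le_add fun ε hε => ?_
        obtain ⟨c, hc, -, hc2⟩ := nm_dense k (half_pos hε) (half_lt_self hε)
        rw [zero_add]
        exact (nmS_le hc (by rw [mul_zero]; exact V.zero_mem)).trans hc2.le
      change sInf (nmS k V x) * sInf (nmS k V (0 : L)) ≤ sInf (nmS k V (0 : L))
      rw [h0, mul_zero]
    · have hy1 := nm_pos hpt hy
      have h1 := nm_mul_le hpt (x * y) y⁻¹
      rw [mul_inv_cancel_right₀ hy] at h1
      have h2 : sInf (nmS k V x) ≤ sInf (nmS k V (x * y)) * (sInf (nmS k V y))⁻¹ :=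
        h1.trans (mul_le_mul_of_nonneg_left (nm_inv_le hpt hy) (nm_nonneg V _))
      calc sInf (nmS k V x) * sInf (nmS k V y)
          ≤ (sInf (nmS k V (x * y)) * (sInf (nmS k V y))⁻¹) * sInf (nmS k V y) :=
            mul_le_mul_of_nonneg_right h2 hy1.le
        _ = sInf (nmS k V (x * y)) := by rw [mul_assoc, inv_mul_cancel₀ hy1.ne', mul_one]
  · refine le_of_forall_gt fun r hr => ?_
    obtain ⟨hr1, hr2⟩ := max_lt_iff.1 hr
    obtain ⟨c, hc, hcV, hcn⟩ := nmS_lt hpt hr1
    obtain ⟨d, hd, hdV, hdn⟩ := nmS_lt hpt hr2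
    rcases le_total ‖c‖ ‖d‖ with h | h
    · have h1 := nmS_up hpt hc hd h hcV
      refine (nmS_le hd ?_).trans_lt hdn
      rw [mul_add]
      exact V.add_mem _ _ h1 hdV
    · have h1 := nmS_up hpt hd hc h hdV
      refine (nmS_le hc ?_).trans_lt hcn
      rw [mul_add]
      exact V.add_mem _ _ hcV h1
  · rcases eq_or_ne c 0 with rfl | hc
    · rw [map_zero, norm_zero]
      refine le_antisymm ?_ (nm_nonneg V 0)
      refine le_of_forall_pos_le_add fun ε hε => ?_
      obtain ⟨c, hc, -, hc2⟩ := nm_dense k (half_pos hε) (half_lt_self hε)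
      rw [zero_add]
      exact (nmS_le hc (by rw [mul_zero]; exact V.zero_mem)).trans hc2.le
    · refine le_antisymm (nmS_le hc ?_) (le_csInf (nmS_nonempty hpt _) ?_)
      · rw [← map_mul, inv_mul_cancel₀ hc, map_one]
        exact V.one_mem
      · rintro _ ⟨d, hd, hdV, rfl⟩
        rw [← map_mul, hpt.const, norm_mul, norm_inv, inv_mul_le_iff₀ (norm_pos_iff.2 hd),
          mul_one] at hdV
        exact hdV
  · have h1 := nmS_le (k := k) (V := V) (x := x) (one_ne_zero)
      (by rw [inv_one, map_one, one_mul]; exact hx)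
    rwa [norm_one] at h1
  · obtain ⟨c, hc, hcV, hcn⟩ := nmS_lt hpt hx
    have h1 := nmS_up hpt hc one_ne_zero (by rw [norm_one]; exact hcn.le) hcV
    rwa [inv_one, map_one, one_mul] at h1

/-- Nm2.  To prove a statement about `(L, V)` it is sufficient to prove it for normed extensions `L` of
`k` such that `V` is contained in the unit ball and contains the open unit ball.  Proof.  Make `L` a
normed field with the norm of `exists_nu` (the field and `k`-algebra structures are the given ones,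
definitionally). -/
theorem norm_induction.{u, v} {k : Type u} [NontriviallyNormedField k] [IsUltrametricDist k]
    [IsAlgClosed k] {motive : ∀ (L : Type v) [Field L] [Algebra k L], ValuationSubring L → Prop}
    (h : ∀ (L : Type v) [NormedField L] [IsUltrametricDist L] [NormedAlgebra k L]
      (V : ValuationSubring L), Pt k V → (∀ x ∈ V, ‖x‖ ≤ 1) → (∀ x : L, ‖x‖ < 1 → x ∈ V) →
      motive L V)
    (L : Type v) [Field L] [Algebra k L] {V : ValuationSubring L} (hpt : Pt k V) : motive L V := by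
  obtain ⟨ν, h0, hpos, hmul, hadd, hconst, hV1, hV2⟩ := exists_nu hpt
  have hnonneg : ∀ x, 0 ≤ ν x := by
    intro x
    rcases eq_or_ne x 0 with rfl | hx
    · exact h0.ge
    · exact (hpos x hx).le
  let v : AbsoluteValue L ℝ :=
    { toFun := ν
      map_mul' := hmul
      nonneg' := hnonneg
      eq_zero' := fun x => ⟨fun h => by
        by_contra hx
        exact (hpos x hx).ne' h, fun h => by rw [h, h0]⟩
      add_le' := fun x y => (hadd x y).trans (max_le_add_of_nonneg (hnonneg x) (hnonneg y)) }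
  let nf : NormedField L := v.toNormedField
  have hnorm : ∀ x : L, (@norm L nf.toNorm x) = ν x := fun x => rfl
  have hu : @IsUltrametricDist L nf.toMetricSpace.toDist := by
    let _ := nf
    refine IsUltrametricDist.isUltrametricDist_of_forall_norm_add_le_max_norm fun x y => ?_
    exact hadd x y
  let na : @NormedAlgebra k L _ (@NormedField.toNormedCommRing L nf).toSeminormedCommRing.toSeminormedRing :=
    { (inferInstance : Algebra k L) with
      norm_smul_le := fun c x => by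
        have h1 : (@norm L nf.toNorm (c • x)) = ν (algebraMap k L c * x) := by
          rw [hnorm, Algebra.smul_def]
        rw [h1, hmul, hconst, hnorm] }
  exact @h L nf hu na V hpt hV1 (fun x hx => hV2 x hx)

end DS
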