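import Mathlib

/-!
# Module Ra: dimension of the differentials of a field over a perfect field
-/

namespace DS

open scoped KaehlerDifferential TensorProduct

open scoped IntermediateField.algebraAdjoinAdjoin in
/-- Ra.  Proof.  `exists_isTranscendenceBasis_and_isSeparable_of_perfectField` (see also
`Algebra.FormallySmooth.of_perfectField` in Mathlib.RingTheory.Smooth.Field and the lemmas before it)
gives a transcendence basis `s` such that `L` is separable algebraic over `k(s)`. So `L` is formally
etale over the polynomial ring `k[s]` (`MvPolynomial s k`, or `Algebra.adjoin k s` which is isomorphic to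
it): `k(s)` is a localization, `Algebra.FormallyEtale.of_isSeparable`. So `L ⊗ Ω[k[s]⁄k] ≅ Ω[L⁄k]`
(`KaehlerDifferential.tensorKaehlerEquivOfFormallyEtale` or similar), and `Ω[k[s]⁄k]` is free with
basis indexed by `s` (`KaehlerDifferential.mvPolynomialBasis`). The set `s` is finite, because `L` is
essentially of finite type (or because `Ω[L⁄k]` is finite over `L`). -/
theorem trdeg_eq_finrank_kaehler (k L : Type*) [Field k] [PerfectField k] [Field L] [Algebra k L]
    [Algebra.EssFiniteType k L] :
    Algebra.trdeg k L = (Module.finrank L (Ω[L⁄k]) : Cardinal) := by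
  obtain ⟨s, hs, H⟩ := exists_isTranscendenceBasis_and_isSeparable_of_perfectField k L
  have hsep : Algebra.IsSeparable
      (↥(IntermediateField.adjoin k (Set.range ((↑) : s → L)))) L := by
    convert! H <;> simp
  have h1 : Algebra.FormallyEtale (Algebra.adjoin k (Set.range ((↑) : s → L)))
      (IntermediateField.adjoin k (Set.range ((↑) : s → L))) :=
    .of_isLocalization (nonZeroDivisors _)
  have h2 : Algebra.FormallyEtale (IntermediateField.adjoin k (Set.range ((↑) : s → L))) L :=
    Algebra.FormallyEtale.of_isSeparable _ L
  have h3 : Algebra.FormallyEtale (Algebra.adjoin k (Set.range ((↑) : s → L))) L :=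
    .comp _ (IntermediateField.adjoin k (Set.range ((↑) : s → L))) _
  let e : MvPolynomial s k ≃ₐ[k] Algebra.adjoin k (Set.range ((↑) : s → L)) := hs.1.aevalEquiv
  letI : Algebra (MvPolynomial s k) (Algebra.adjoin k (Set.range ((↑) : s → L))) :=
    e.toRingHom.toAlgebra
  letI : Algebra (MvPolynomial s k) L :=
    ((algebraMap (Algebra.adjoin k (Set.range ((↑) : s → L))) L).comp e.toRingHom).toAlgebra
  haveI : IsScalarTower (MvPolynomial s k) (Algebra.adjoin k (Set.range ((↑) : s → L))) L :=
    IsScalarTower.of_algebraMap_eq fun _ => rfl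
  haveI : IsScalarTower k (MvPolynomial s k) L := by
    refine IsScalarTower.of_algebraMap_eq fun x => ?_
    change _ = algebraMap (Algebra.adjoin k (Set.range ((↑) : s → L))) L
      (e (algebraMap k (MvPolynomial s k) x))
    rw [AlgEquiv.commutes]
    rfl
  have h4 : Algebra.FormallyEtale (MvPolynomial s k)
      (Algebra.adjoin k (Set.range ((↑) : s → L))) :=
    Algebra.FormallyEtale.of_equiv (AlgEquiv.ofRingEquiv (f := e.toRingEquiv) fun _ => rfl :
      MvPolynomial s k ≃ₐ[MvPolynomial s k] Algebra.adjoin k (Set.range ((↑) : s → L)))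
  have h5 : Algebra.FormallyEtale (MvPolynomial s k) L :=
    .comp _ (Algebra.adjoin k (Set.range ((↑) : s → L))) _
  let b := (KaehlerDifferential.mvPolynomialBasis k s).baseChange L
  let b' := b.map (KaehlerDifferential.tensorKaehlerEquivOfFormallyEtale k (MvPolynomial s k) L)
  rw [Module.finrank_eq_card_basis b', ← hs.cardinalMk_eq_trdeg]
  simp

end DS
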