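import Pool.Agent.Lib.DS.Defs

/-!
# Module Rg1: the local ring at the support
-/

namespace DS

open MP1a953e DA

/-- Rg1.  Proof.  `R` is the set of all `x ∈ K` with `x * s = a` for some `a, s ∈ A` with `π₀ s ≠ 0` (so `s ≠ 0`); it
is a `k`-subalgebra: constants of `k` are quotients of constants of `O k`, and `π₀` of a nonzero constant
is a nonzero constant. `π x = π₀ a / π₀ s` is well defined: if `x * s = a` and `x * s' = a'` then
`a * s' = a' * s`. Ring homomorphism: common denominators; `k`-linear. `Res`: surjective by `hL`; if `π x ≠ 0`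
then `π₀ a ≠ 0` and `x⁻¹ * a = s`. -/
theorem exists_res {k K L : Type*} [NontriviallyNormedField k] [IsUltrametricDist k] [Field K]
    [Algebra k K] [Field L] [Algebra k L] (A : Subalgebra (O k) K) (π₀ : A →ₐ[O k] L)
    (hL : ∀ y : L, ∃ a b : A, π₀ b ≠ 0 ∧ y * π₀ b = π₀ a) :
    ∃ (R : Subalgebra k K) (π : R →ₐ[k] L), Res π ∧
      (∀ a : A, ∃ h : (a : K) ∈ R, π ⟨a, h⟩ = π₀ a) ∧
      ∀ x : R, ∃ a s : A, π₀ s ≠ 0 ∧ (x : K) * s = a := by
  have hconst : ∀ c : k, ∃ c1 c2 : O k, (c2 : k) ≠ 0 ∧ c * (c2 : k) = (c1 : k) := by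
    intro c
    by_cases hc : ‖c‖ ≤ 1
    · exact ⟨⟨c, mem_O.2 hc⟩, 1, by simp, by simp⟩
    · push Not at hc
      have h0 : c ≠ 0 := by
        rintro rfl
        rw [norm_zero] at hc
        linarith
      have h1 : ‖c⁻¹‖ ≤ 1 := by
        rw [norm_inv]
        exact inv_le_one_of_one_le₀ hc.le
      exact ⟨1, ⟨c⁻¹, mem_O.2 h1⟩, inv_ne_zero h0, mul_inv_cancel₀ h0⟩
  have hconst' : ∀ c : k, ∃ a s : A, π₀ s ≠ 0 ∧ algebraMap k K c * s = a ∧
      π₀ a = algebraMap k L c * π₀ s := by
    intro c
    obtain ⟨c1, c2, h2, h3⟩ := hconst c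
    refine ⟨algebraMap (O k) A c1, algebraMap (O k) A c2, ?_, ?_, ?_⟩
    · rw [AlgHom.commutes]
      show algebraMap k L (c2 : k) ≠ 0
      exact (map_ne_zero _).2 h2
    · show algebraMap k K c * algebraMap k K (c2 : k) = algebraMap k K (c1 : k)
      rw [← map_mul, h3]
    · rw [AlgHom.commutes, AlgHom.commutes]
      show algebraMap k L (c1 : k) = algebraMap k L c * algebraMap k L (c2 : k)
      rw [← map_mul, h3]
  let R : Subalgebra k K :=
    { carrier := {x | ∃ a s : A, π₀ s ≠ 0 ∧ x * s = a}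
      mul_mem' := by
        rintro x y ⟨a, s, hs, hx⟩ ⟨b, t, ht, hy⟩
        refine ⟨a * b, s * t, by rw [map_mul]; exact mul_ne_zero hs ht, ?_⟩
        push_cast
        rw [← hx, ← hy]
        ring
      add_mem' := by
        rintro x y ⟨a, s, hs, hx⟩ ⟨b, t, ht, hy⟩
        refine ⟨a * t + b * s, s * t, by rw [map_mul]; exact mul_ne_zero hs ht, ?_⟩
        push_cast
        rw [← hx, ← hy]
        ring
      algebraMap_mem' := by
        intro c
        obtain ⟨a, s, h1, h2, _⟩ := hconst' c
        exact ⟨a, s, h1, h2⟩ }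
  have hR : ∀ x : R, ∃ a s : A, π₀ s ≠ 0 ∧ (x : K) * s = a := fun x => x.2
  choose num den hden hnum using hR
  have key : ∀ (x : R) (a s : A), π₀ s ≠ 0 → (x : K) * s = a →
      π₀ (num x) / π₀ (den x) = π₀ a / π₀ s := by
    intro x a s hs hx
    have h1 : num x * s = a * den x := by
      apply Subtype.ext
      push_cast
      rw [← hnum x, ← hx]
      ring
    have h2 := congrArg π₀ h1
    rw [map_mul, map_mul] at h2
    rw [div_eq_div_iff (hden x) hs]
    exact h2
  let π : R →ₐ[k] L :=
    { toFun := fun x => π₀ (num x) / π₀ (den x)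
      map_one' := by
        rw [key 1 1 1 (by rw [map_one]; exact one_ne_zero) (by simp)]
        simp
      map_mul' := by
        intro x y
        rw [key (x * y) (num x * num y) (den x * den y)
          (by rw [map_mul]; exact mul_ne_zero (hden x) (hden y))
          (by
            push_cast
            rw [← hnum x, ← hnum y]
            ring), map_mul, map_mul, div_mul_div_comm]
      map_zero' := by
        rw [key 0 0 1 (by rw [map_one]; exact one_ne_zero) (by simp)]
        simp
      map_add' := by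
        intro x y
        rw [key (x + y) (num x * den y + num y * den x) (den x * den y)
          (by rw [map_mul]; exact mul_ne_zero (hden x) (hden y))
          (by
            push_cast
            rw [← hnum x, ← hnum y]
            ring), map_add, map_mul, map_mul, map_mul, div_add_div _ _ (hden x) (hden y)]
        rw [mul_comm (π₀ (num y)) (π₀ (den x))]
      commutes' := by
        intro c
        obtain ⟨a, s, h1, h2, h3⟩ := hconst' c
        rw [key (algebraMap k R c) a s h1 h2, h3, mul_div_cancel_right₀ _ h1] }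
  have hπ : ∀ (x : R) (a s : A), π₀ s ≠ 0 → (x : K) * s = a → π x = π₀ a / π₀ s := key
  refine ⟨R, π, ⟨?_, ?_⟩, ?_, fun x => x.2⟩
  · intro y
    obtain ⟨a, b, hb, hy⟩ := hL y
    have hb0 : (b : K) ≠ 0 := by
      intro h
      have h1 : b = 0 := Subtype.ext h
      rw [h1, map_zero] at hb
      exact hb rfl
    have h1 : (a : K) / b * b = a := div_mul_cancel₀ _ hb0
    refine ⟨⟨(a : K) / b, a, b, hb, h1⟩, ?_⟩
    rw [hπ ⟨(a : K) / b, a, b, hb, h1⟩ a b hb h1, ← hy, mul_div_cancel_right₀ _ hb]
  · intro x hx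
    have h1 : π₀ (num x) ≠ 0 := by
      intro h
      apply hx
      rw [hπ x (num x) (den x) (hden x) (hnum x), h, zero_div]
    have h2 : (num x : K) ≠ 0 := by
      intro h
      have h3 : num x = 0 := Subtype.ext h
      rw [h3, map_zero] at h1
      exact h1 rfl
    have h3 : (x : K) ≠ 0 := by
      intro h
      apply h2
      rw [← hnum x, h, zero_mul]
    have h4 : (x : K)⁻¹ * num x = den x := by
      rw [← hnum x, ← mul_assoc, inv_mul_cancel₀ h3, one_mul]
    have h5 : (x : K)⁻¹ ∈ R := ⟨den x, num x, h1, h4⟩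
    exact IsUnit.of_mul_eq_one (⟨(x : K)⁻¹, h5⟩ : R) (Subtype.ext (mul_inv_cancel₀ h3))
  · intro a
    have h1 : (a : K) * ((1 : A) : K) = a := by simp
    have h2 : π₀ (1 : A) ≠ 0 := by rw [map_one]; exact one_ne_zero
    refine ⟨⟨a, 1, h2, h1⟩, ?_⟩
    rw [hπ ⟨(a : K), a, 1, h2, h1⟩ a 1 h2 h1, map_one, div_one]

end DS
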