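import Pool.Agent.Lib.DA.M0

/-!
# Module Ub: rational rank and residual transcendence degree
-/

namespace DS

open MP1a953e DA IsLocalRing

section
variable {k L : Type*} [NontriviallyNormedField k] [IsUltrametricDist k]
  [IsAlgClosed k] [NormedField L] [IsUltrametricDist L] [NormedAlgebra k L]

omit [IsAlgClosed k] in
private theorem ub_le {n r m : ℕ} (htr : Algebra.trdeg k L = n) {e : Fin r → L} {u : Fin m → L}
    (h : EU k e u) : r + m ≤ n := by
  have h1 := h.algebraicIndependent.lift_cardinalMk_le_trdeg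
  rw [htr] at h1
  simp only [Cardinal.mk_fin, Cardinal.lift_natCast] at h1
  exact_mod_cast h1

omit [IsUltrametricDist k] [IsAlgClosed k] [IsUltrametricDist L] [NormedAlgebra k L] in
private theorem ub_tors {r : ℕ} {e : Fin r → L} (hne : ∀ i, e i ≠ 0)
    (hind : ∀ (z : Fin r → ℤ) (c : k), ‖c‖ = ‖∏ i, e i ^ z i‖ → z = 0)
    (hmax : ¬ ∃ e : Fin (r + 1) → L, (∀ i, e i ≠ 0) ∧
      ∀ (z : Fin (r + 1) → ℤ) (c : k), ‖c‖ = ‖∏ i, e i ^ z i‖ → z = 0)
    (x : L) (hx : x ≠ 0) : ∃ n : ℕ, 0 < n ∧ ∃ (z : Fin r → ℤ) (c : k),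
        ‖x‖ ^ n = ‖c‖ * ‖∏ i, e i ^ z i‖ := by
  have hcons : ∀ i, (Fin.cons x e : Fin (r + 1) → L) i ≠ 0 := fun i => by
    refine Fin.cases ?_ (fun i => ?_) i
    · simpa using hx
    · simpa using hne i
  have hex : ∃ (z : Fin (r + 1) → ℤ) (c : k),
      ‖c‖ = ‖∏ i, (Fin.cons x e : Fin (r + 1) → L) i ^ z i‖ ∧ z ≠ 0 := by
    by_contra hcon
    refine hmax ⟨Fin.cons x e, hcons, fun z c hc => ?_⟩
    by_contra hz
    exact hcon ⟨z, c, hc, hz⟩
  obtain ⟨z, c, hc, hz⟩ := hex
  have hc' : ‖c‖ = ‖x‖ ^ z 0 * ‖∏ i : Fin r, e i ^ z i.succ‖ := by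
    rw [hc, Fin.prod_univ_succ, norm_mul]
    simp
  have hp : ‖∏ i : Fin r, e i ^ z i.succ‖ ≠ 0 :=
    norm_ne_zero_iff.2 (Finset.prod_ne_zero_iff.2 fun i _ => zpow_ne_zero _ (hne i))
  have hx0 : ‖x‖ ≠ 0 := norm_ne_zero_iff.2 hx
  have hz0 : z 0 ≠ 0 := by
    intro h0
    rw [h0, zpow_zero, one_mul] at hc'
    have h1 := hind (fun i => z i.succ) c hc'
    apply hz
    funext i
    refine Fin.cases h0 (fun i => ?_) i
    exact congrFun h1 i
  have hc0 : ‖c‖ ≠ 0 := by
    rw [hc']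
    exact mul_ne_zero (zpow_ne_zero _ hx0) hp
  have hinv : ‖∏ i : Fin r, e i ^ (-z i.succ)‖ = ‖∏ i : Fin r, e i ^ z i.succ‖⁻¹ := by
    rw [← norm_inv, ← Finset.prod_inv_distrib]
    congr 1
    exact Finset.prod_congr rfl fun i _ => zpow_neg _ _
  rcases lt_or_gt_of_ne hz0 with hneg | hpos
  · refine ⟨(-z 0).toNat, by omega, fun i => z i.succ, c⁻¹, ?_⟩
    have h1 : ‖x‖ ^ (-z 0).toNat = ‖x‖ ^ (-z 0) := by
      rw [← zpow_natCast, Int.toNat_of_nonneg (by omega)]
    rw [h1, zpow_neg, norm_inv, hc', mul_inv, mul_assoc, inv_mul_cancel₀ hp, mul_one]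
  · refine ⟨(z 0).toNat, by omega, fun i => -z i.succ, c, ?_⟩
    have h1 : ‖x‖ ^ (z 0).toNat = ‖x‖ ^ (z 0) := by
      rw [← zpow_natCast, Int.toNat_of_nonneg (by omega)]
    rw [h1, hinv, hc', mul_assoc, mul_inv_cancel₀ hp, mul_one]

omit [IsAlgClosed k] in
private theorem ub_res {n r m : ℕ} (htr : Algebra.trdeg k L = n) {e : Fin r → L}
    (hne : ∀ i, e i ≠ 0)
    (hind : ∀ (z : Fin r → ℤ) (c : k), ‖c‖ = ‖∏ i, e i ^ z i‖ → z = 0)
    {v : Fin m → ResidueField (O L)}
    (hv : AlgebraicIndependent (ResidueField (O k)) v) : r + m ≤ n := by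
  choose u hu using fun i => residue_surjective (R := O L) (v i)
  have hai : AlgebraicIndependent (ResidueField (O k)) (fun i => residue (O L) (u i)) := by
    have h3 : (fun i => residue (O L) (u i)) = v := by
      funext i
      exact hu i
    rw [h3]
    exact hv
  have hEU : EU k e (fun i => (u i : L)) :=
    ⟨hne, hind, fun i => mem_O.1 (u i).2, gauss_of_residues u hai⟩
  exact ub_le htr hEU

end

/-- Ub.  Proof.  If `e : Fin r → L` is a family of nonzero elements with independent values (condition 2) then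
`EU k e u` for the empty family `u`, so `r ≤ n` (`EU.algebraicIndependent`, module DA/EUa). Take `e` with
`r` maximal. Condition 3: for `x ≠ 0` the family with `x` added is not independent, so there are
`(a, z) ≠ 0` and `c` with `‖c‖ = ‖x ^ a * ∏ e i ^ z i‖`, and `a ≠ 0` by the independence of `e`; solve for
`‖x‖ ^ |a|`. Residual transcendence degree: if `u : Fin m → O L` has algebraically independent residues
then `EU k e u` (`gauss_of_residues`, module MP_1a953e_ag/Tr2, see the proof of `exists_eu` in DA/M0), so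
`r + m ≤ n`; so the residue field has finite transcendence degree `m` with `r + m ≤ n`. -/
theorem exists_invariants {k L : Type*} [NontriviallyNormedField k] [IsUltrametricDist k]
    [IsAlgClosed k] [NormedField L] [IsUltrametricDist L] [NormedAlgebra k L] {n : ℕ}
    (htr : Algebra.trdeg k L = n) :
    ∃ (r m : ℕ) (e : Fin r → L), (∀ i, e i ≠ 0) ∧
      (∀ (z : Fin r → ℤ) (c : k), ‖c‖ = ‖∏ i, e i ^ z i‖ → z = 0) ∧
      (∀ x : L, x ≠ 0 → ∃ n : ℕ, 0 < n ∧ ∃ (z : Fin r → ℤ) (c : k),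
        ‖x‖ ^ n = ‖c‖ * ‖∏ i, e i ^ z i‖) ∧
      Algebra.trdeg (ResidueField (O k)) (ResidueField (O L)) = m ∧ r + m ≤ n := by
  classical
  set P : ℕ → Prop := fun r => ∃ e : Fin r → L, (∀ i, e i ≠ 0) ∧
    ∀ (z : Fin r → ℤ) (c : k), ‖c‖ = ‖∏ i, e i ^ z i‖ → z = 0 with hP
  have hPn : ∀ r, P r → r ≤ n := by
    rintro r ⟨e, hne, hind⟩
    have h1 := ub_res (m := 0) htr hne hind (v := Fin.elim0) (by
      rw [algebraicIndependent_empty_type_iff]
      exact (algebraMap (ResidueField (O k)) (ResidueField (O L))).injective)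
    simpa using h1
  have hP0 : P 0 := ⟨Fin.elim0, fun i => i.elim0, fun z c _ => Subsingleton.elim _ _⟩
  obtain ⟨e, hne, hind⟩ : P (Nat.findGreatest P n) := Nat.findGreatest_spec (Nat.zero_le n) hP0
  have hmax : ¬ P (Nat.findGreatest P n + 1) := by
    intro h
    exact absurd (Nat.le_findGreatest (hPn _ h) h) (by omega)
  obtain ⟨s, hs⟩ := exists_isTranscendenceBasis (ResidueField (O k)) (ResidueField (O L))
  have hfin : Finite s := by
    by_contra hinf
    rw [not_finite_iff_infinite] at hinf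
    have hv := hs.1.comp (fun i : Fin (n + 1) => Infinite.natEmbedding s (i : ℕ))
      ((Infinite.natEmbedding s).injective.comp Fin.val_injective)
    have h1 := ub_res htr hne hind hv
    omega
  refine ⟨Nat.findGreatest P n, Nat.card s, e, hne, hind, fun x hx => ub_tors hne hind hmax x hx,
    ?_, ?_⟩
  · rw [← hs.cardinalMk_eq_trdeg, Nat.cast_card]
  · have hv := hs.1.comp (Finite.equivFin s).symm (Finite.equivFin s).symm.injective
    exact ub_res htr hne hind hv

end DS
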