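import Pool.Agent.Lib.DS.Un66
import Pool.Agent.Lib.DS.Nm
import Pool.Agent.Lib.DS.Ub
import Pool.Agent.Lib.CS.VC
import Pool.Agent.Lib.DS.Ch2
import Pool.Agent.Lib.TI.TM

/-!
# Charts at all points of surfaces
-/

namespace DS

open MP1a953e DA IsLocalRing

/-- (helper56) charts at totally immediate points of surfaces -/
theorem charts_two {p : ℕ} [Fact p.Prime] {k L : Type} [NontriviallyNormedField k]
    [CompleteSpace k] [IsUltrametricDist k] [IsAlgClosed k] (hp : ‖(p : k)‖ < 1) [NormedField L]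
    [IsUltrametricDist L] [NormedAlgebra k L] (hfg : (⊤ : IntermediateField k L).FG)
    (himm : ∀ x : L, x ≠ 0 → ∃ c : k, ‖x - algebraMap k L c‖ < ‖x‖)
    (htr : Algebra.trdeg k L = 2) {V : ValuationSubring L} (hV : ∀ x : L, x ∈ V ↔ ‖x‖ ≤ 1) :
    Charts k V 0 :=
  charts_zero_of_smooth himm (fun A hA hA1 hAf => TI.ti_main hp himm hfg htr A hA hA1 hAf) hV

/-- a rank one valuation of rational rank zero and with algebraic residue field extension is totally
immediate (`k` algebraically closed) -/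
theorem imm_of_zero {k L : Type} [NontriviallyNormedField k]
    [IsUltrametricDist k] [IsAlgClosed k] [NormedField L]
    [IsUltrametricDist L] [NormedAlgebra k L]
    (htors : ∀ x : L, x ≠ 0 → ∃ n : ℕ, 0 < n ∧ ∃ c : k, ‖x‖ ^ n = ‖c‖)
    (hres : Algebra.trdeg (ResidueField (O k)) (ResidueField (O L)) = 0) (x : L) (hx : x ≠ 0) :
    ∃ c : k, ‖x - algebraMap k L c‖ < ‖x‖ := by
  obtain ⟨n, hn, c, hc⟩ := htors x hx
  obtain ⟨d, hd⟩ := IsAlgClosed.exists_pow_nat_eq c hn
  have hxd : ‖x‖ = ‖d‖ := by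
    rw [← hd, norm_pow] at hc
    exact (pow_left_inj₀ (norm_nonneg _) (norm_nonneg _) hn.ne').1 hc
  have hx0 : 0 < ‖x‖ := norm_pos_iff.2 hx
  have hd0 : d ≠ 0 := by
    rintro rfl
    rw [norm_zero] at hxd
    exact hx0.ne' hxd
  have hdL : algebraMap k L d ≠ 0 := (map_ne_zero _).2 hd0
  set y : L := x / algebraMap k L d with hy
  have hy1 : ‖y‖ ≤ 1 := by
    rw [hy, norm_div, norm_algebraMap', hxd, div_self (norm_ne_zero_iff.2 hd0)]
  have h1 := CS.res_closed k
  have h2 : Algebra.IsAlgebraic (ResidueField (O k)) (ResidueField (O L)) :=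
    trdeg_eq_zero_iff.1 hres
  have h3 : Function.Surjective (algebraMap (ResidueField (O k)) (ResidueField (O L))) :=
    (IsAlgClosed.algebraMap_bijective_of_isIntegral).2
  obtain ⟨b, hb⟩ := h3 (residue (O L) ⟨y, mem_O.2 hy1⟩)
  obtain ⟨b, rfl⟩ := residue_surjective b
  refine ⟨d * (b : k), ?_⟩
  have h4 : residue (O L) (⟨y, mem_O.2 hy1⟩ - algebraMap (O k) (O L) b) = 0 := by
    rw [map_sub, ← hb, sub_eq_zero]
    rfl
  rw [residue_eq_zero_iff, mem_maximalIdeal, mem_nonunits_iff, isUnit_O_iff] at h4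
  have h5 : ‖y - algebraMap k L (b : k)‖ < 1 := lt_of_le_of_ne
    (mem_O.1 (⟨y, mem_O.2 hy1⟩ - algebraMap (O k) (O L) b : O L).2) h4
  have h6 : x - algebraMap k L (d * (b : k)) =
      algebraMap k L d * (y - algebraMap k L (b : k)) := by
    rw [hy, map_mul, mul_sub, mul_div_cancel₀ _ hdL]
  rw [h6, norm_mul, norm_algebraMap', hxd]
  exact mul_lt_of_lt_one_right (norm_pos_iff.2 hd0) h5

/-- Charts at all valuation rings of normed function fields of transcendence degree at most two. -/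
theorem charts_surface_normed {p : ℕ} [Fact p.Prime] {k L : Type} [NontriviallyNormedField k]
    [CompleteSpace k] [IsUltrametricDist k] [IsAlgClosed k] (hp : ‖(p : k)‖ < 1) [NormedField L]
    [IsUltrametricDist L] [NormedAlgebra k L] (hfg : (⊤ : IntermediateField k L).FG) {n : ℕ}
    (htr : Algebra.trdeg k L = n) (hn : n ≤ 2) {V : ValuationSubring L} (hpt : Pt k V)
    (hV1 : ∀ x ∈ V, ‖x‖ ≤ 1) (hV2 : ∀ x : L, ‖x‖ < 1 → x ∈ V) : ∃ d, Charts k V d := by
  obtain ⟨r, m, e, hne, hind, htors, hres, hle⟩ := exists_invariants htr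
  have hc : ∀ c : k, ‖c‖ ≤ 1 → algebraMap k L c ∈ V := fun c => (hpt.const c).2
  have hle' : V ≤ Pool.Agent.Lib.MP_3029eb_ag.Abh.ball L := fun x hx =>
    (Pool.Agent.Lib.MP_3029eb_ag.Abh.mem_ball x).2 (hV1 x hx)
  have hO : CS.OvR k V := ⟨hle', hc⟩
  by_cases hδ : n ≤ r + m + 1
  · obtain ⟨δ, hδe⟩ := Nat.exists_eq_add_of_le hle
    have hm2 : m ≤ 2 := by omega
    have hδ1 : δ ≤ 1 := by omega
    obtain ⟨r₂, hr₂⟩ := CS.vcomp_of_le_two hO hm2 (df_of_hyp hne htors hres).rs
    rw [hδe] at htr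
    exact ⟨_, CS.charts_comp hp hfg e hne hind htors hres hδ1 htr hr₂ hc⟩
  · have hr : r = 0 := by omega
    have hm : m = 0 := by omega
    have hn2 : n = 2 := by omega
    subst hr hm hn2
    rw [Nat.cast_zero] at hres
    have himm := imm_of_zero (k := k) (L := L) (fun x hx => by
      obtain ⟨n, hn, z, c, h⟩ := htors x hx
      refine ⟨n, hn, c, ?_⟩
      rw [h, Finset.univ_eq_empty, Finset.prod_empty, norm_one, mul_one]) hres
    refine ⟨0, charts_two hp hfg himm htr fun x => ⟨hV1 x, fun hx => ?_⟩⟩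
    -- `V` is the unit ball
    rcases eq_or_ne x 0 with h0 | h0
    · rw [h0]
      exact V.zero_mem
    · obtain ⟨c, hc'⟩ := himm x h0
      have h1 : x = (x - algebraMap k L c) + algebraMap k L c := by rw [sub_add_cancel]
      have h2 : ‖algebraMap k L c‖ ≤ 1 := by
        have h3 : algebraMap k L c = x - (x - algebraMap k L c) := by rw [sub_sub_cancel]
        rw [h3]
        rw [sub_eq_add_neg]
        refine (IsUltrametricDist.norm_add_le_max _ _).trans (max_le hx ?_)
        rw [norm_neg]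
        exact hc'.le.trans hx
      rw [h1]
      refine V.add_mem _ _ (hV2 _ (hc'.trans_le hx)) (hc c ?_)
      rwa [norm_algebraMap'] at h2

/-- Charts at all valuation rings of function fields of transcendence degree at most two. -/
theorem charts_surface {p : ℕ} [Fact p.Prime] {k : Type} [NontriviallyNormedField k]
    [CompleteSpace k] [IsUltrametricDist k] [IsAlgClosed k] (hp : ‖(p : k)‖ < 1) (L : Type)
    [Field L] [Algebra k L] (hfg : (⊤ : IntermediateField k L).FG) {n : ℕ}
    (htr : Algebra.trdeg k L = n) (hn : n ≤ 2) {V : ValuationSubring L} (hpt : Pt k V) :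
    ∃ d, Charts k V d := by
  have h := norm_induction (k := k) (motive := fun L _ _ V =>
    (⊤ : IntermediateField k L).FG → Algebra.trdeg k L = n → ∃ d, Charts k V d)
    (fun L _ _ _ V hpt hV1 hV2 hfg htr => charts_surface_normed hp hfg htr hn hpt hV1 hV2)
  exact h L hpt hfg htr

/-- the residue field of a point has at most the transcendence degree of the variety -/
theorem trdeg_residue_le {k S T L : Type} [Field k] [CommRing S] [IsDomain S]
    [Algebra k S] (P : Ideal S) [P.IsPrime] [CommRing T] [Algebra k T] [Algebra S T]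
    [IsScalarTower k S T] [IsLocalization.AtPrime T P] [Field L] [Algebra k L]
    [Algebra T L] [IsScalarTower k T L] (hL : Function.Surjective (algebraMap T L)) :
    Algebra.trdeg k L ≤ Algebra.trdeg k S := by
  -- the image of `S` in `L`
  let g : S →ₐ[k] L := (IsScalarTower.toAlgHom k T L).comp (IsScalarTower.toAlgHom k S T)
  have hg : ∀ s, g s = algebraMap T L (algebraMap S T s) := fun _ => rfl
  have h1 : Algebra.trdeg k g.range ≤ Algebra.trdeg k S :=
    trdeg_le_of_surjective g.rangeRestrict g.rangeRestrict_surjective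
  have hfr : ∀ y : L, ∃ a b : g.range, (b : L) ≠ 0 ∧ y * b = a := by
    intro y
    obtain ⟨x, rfl⟩ := hL y
    obtain ⟨⟨a, s⟩, hx⟩ := IsLocalization.surj (M := P.primeCompl) x
    refine ⟨⟨g a, a, rfl⟩, ⟨g s, s, rfl⟩, ?_, ?_⟩
    · show g s ≠ 0
      rw [hg]
      have h2 : IsUnit (algebraMap S T s) := IsLocalization.map_units T s
      exact (h2.map (algebraMap T L)).ne_zero
    · show algebraMap T L x * g s = g a
      rw [hg, hg, ← map_mul, hx]
  have halg : Algebra.IsAlgebraic g.range L := by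
    refine ⟨fun y => ?_⟩
    obtain ⟨a, b, hb, hab⟩ := hfr y
    refine ⟨Polynomial.C b * Polynomial.X - Polynomial.C a, fun h0 => ?_, ?_⟩
    · have h2 := congrArg (fun p => p.coeff 1) h0
      simp only [Polynomial.coeff_sub, Polynomial.coeff_C_mul, Polynomial.coeff_X_one, mul_one,
        Polynomial.coeff_C_succ, sub_zero, Polynomial.coeff_zero] at h2
      exact hb (congrArg Subtype.val h2)
    · simp only [map_sub, map_mul, Polynomial.aeval_C, Polynomial.aeval_X]
      rw [mul_comm, sub_eq_zero]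
      exact hab
  have h3 : Algebra.trdeg k g.range + Algebra.trdeg g.range L = Algebra.trdeg k L :=
    trdeg_add_eq k g.range
  have h4 : Algebra.trdeg g.range L = 0 := trdeg_eq_zero
  rw [← h3, h4, add_zero]
  exact h1

/-- Charts at all points with support of dimension at most two. -/
theorem charts_points_two {p : ℕ} [Fact p.Prime] {k S T L : Type} [NontriviallyNormedField k]
    [CompleteSpace k] [IsUltrametricDist k] [IsAlgClosed k] (hp : ‖(p : k)‖ < 1) [CommRing S]
    [IsDomain S] [Algebra k S] (P : Ideal S) [P.IsPrime]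
    [CommRing T] [Algebra k T] [Algebra S T]
    [IsScalarTower k S T] [IsLocalization.AtPrime T P] [Algebra.FormallySmooth k T]
    [Field L] [Algebra k L] [Algebra T L] [IsScalarTower k T L]
    (hL : Function.Surjective (algebraMap T L)) (hdim : Algebra.trdeg k L ≤ 2)
    {V : ValuationSubring L} (hpt : Pt k V) (A : Subalgebra (O k) S) (hA : A.FG)
    (hAS : ∀ x : S, ∃ c : k, c ≠ 0 ∧ c • x ∈ A)
    (hAV : ∀ a ∈ A, algebraMap T L (algebraMap S T a) ∈ V) (E : Finset S)
    (hE : ∀ x ∈ E, x ∉ P) :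
    ∃ (d n : ℕ) (f : Fin (n + 1) → S), (∀ i, f i ∈ A) ∧ f 0 ∉ P ∧
      (∃ i, ∃ c : O k, c ≠ 0 ∧ f i = algebraMap (O k) S c) ∧
      (∀ x ∈ chart T A f, algebraMap T L x ∈ V) ∧
      ∃ ϖ : O k, ϖ ≠ 0 ∧ ‖(ϖ : k)‖ < 1 ∧
        ∃ φ : SS d ϖ →ₐ[O k] ↥(chart T A f), φ.toRingHom.Smooth ∧
        (∀ i, V.valuation (algebraMap T L (φ (SS.x i))) < 1) ∧
        ∀ t ∈ E, MonU (chart T A f) (fun i => (φ (SS.x i) : T)) (algebraMap S T t) := by
  have hft := finiteType_of_model hA fun x => by
    obtain ⟨c, hc, h⟩ := hAS x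
    exact ⟨c, hc, by rwa [← Algebra.smul_def]⟩
  have h1 : Algebra.trdeg k L ≤ ((2 : ℕ) : Cardinal) := by
    rw [Nat.cast_ofNat]
    exact hdim
  obtain ⟨n, htr⟩ := Cardinal.lt_aleph0.1 (h1.trans_lt Cardinal.natCast_lt_aleph0)
  have hn : n ≤ 2 := by
    rw [htr] at h1
    exact Nat.cast_le.1 h1
  obtain ⟨d, hd⟩ := charts_surface hp L (fg_residue P hL) htr hn hpt
  exact ⟨d, charts_at' P hL A hA hAS hd hpt hAV E hE⟩

end DS
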