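import Pool.Agent.Lib.DS.Defs

/-!
# Module Un: unramified near a closed subscheme
-/

namespace DS

open MP1a953e DA

open TensorProduct in
/-- Un1.  Proof.  Let `Ω = Ω[D⁄P]` (Kähler differentials), `J = I D`. The derivation `D → Ω / J Ω` maps `J` to `0`
(`d (a x) = a dx` for `a` in the image of `I`, `x ∈ D`), so it factors through a `P`-derivation
`D / J → Ω / J Ω`, which is `0` because `D / J` is unramified over `P`. So `Ω = J Ω` (`Ω` is generated by
the `dx`). `Ω` is finitely generated, so there is `r ∈ D`, `r - 1 ∈ J`, `r Ω = 0`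
(`Submodule.exists_sub_one_mem_and_smul_eq_zero_of_fg_of_le_smul`). The differentials of `D[1/r]` over
`P` are the localization of `Ω`, so `0`. -/
theorem exists_unramified {P D : Type*} [CommRing P] [CommRing D] [Algebra P D]
    [Algebra.FiniteType P D] (I : Ideal P)
    [Algebra.FormallyUnramified P (D ⧸ I.map (algebraMap P D))] :
    ∃ r : D, r - 1 ∈ I.map (algebraMap P D) ∧
      Algebra.FormallyUnramified P (Localization.Away r) := by
  have hsurj : Function.Surjective (algebraMap D (D ⧸ I.map (algebraMap P D))) :=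
    Ideal.Quotient.mk_surjective
  have h1 : ∀ x ∈ I.map (algebraMap P D),
      (1 : D ⧸ I.map (algebraMap P D)) ⊗ₜ[D] KaehlerDifferential.D P D x = 0 := by
    intro x hx
    refine Submodule.span_induction (p := fun x _ =>
      (1 : D ⧸ I.map (algebraMap P D)) ⊗ₜ[D] KaehlerDifferential.D P D x = 0) ?_ ?_ ?_ ?_ hx
    · rintro _ ⟨i, _, rfl⟩
      rw [Derivation.map_algebraMap, tmul_zero]
    · rw [map_zero, tmul_zero]
    · intro x y _ _ hx hy
      rw [map_add, tmul_add, hx, hy, add_zero]
    · intro a x hx h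
      have hx' : x ∈ I.map (algebraMap P D) := hx
      rw [smul_eq_mul, Derivation.leibniz, tmul_add, tmul_smul, h, smul_zero, zero_add,
        ← smul_tmul]
      have h0 : x • (1 : D ⧸ I.map (algebraMap P D)) = 0 := by
        rw [Algebra.smul_def, mul_one]
        exact Ideal.Quotient.eq_zero_iff_mem.2 hx'
      rw [h0, zero_tmul]
  have h2 : Subsingleton ((D ⧸ I.map (algebraMap P D)) ⊗[D] Ω[D⁄P]) := by
    refine ⟨fun y z => ?_⟩
    suffices h : ∀ y : (D ⧸ I.map (algebraMap P D)) ⊗[D] Ω[D⁄P], y = 0 by rw [h y, h z]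
    intro y
    have h3 : KaehlerDifferential.mapBaseChange P D (D ⧸ I.map (algebraMap P D)) y = 0 :=
      Subsingleton.elim _ _
    obtain ⟨x, rfl⟩ := (KaehlerDifferential.exact_kerCotangentToTensor_mapBaseChange P D
      (D ⧸ I.map (algebraMap P D)) hsurj y).1 h3
    obtain ⟨x, rfl⟩ := Ideal.toCotangent_surjective _ x
    rw [KaehlerDifferential.kerCotangentToTensor_toCotangent]
    exact h1 _ (Ideal.Quotient.eq_zero_iff_mem.1 x.2)
  have h3 : Subsingleton (Ω[D⁄P] ⧸ (I.map (algebraMap P D) • (⊤ : Submodule D Ω[D⁄P]))) :=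
    (quotTensorEquivQuotSMul Ω[D⁄P] (I.map (algebraMap P D))).symm.injective.subsingleton
  rw [Submodule.Quotient.subsingleton_iff] at h3
  obtain ⟨r, hr, hr'⟩ := Submodule.exists_sub_one_mem_and_smul_eq_zero_of_fg_of_le_smul
    (I.map (algebraMap P D)) (⊤ : Submodule D Ω[D⁄P]) Module.Finite.fg_top h3.ge
  refine ⟨r, hr, ?_⟩
  rw [← Algebra.basicOpen_subset_unramifiedLocus_iff, Algebra.unramifiedLocus_eq_compl_support]
  intro p hp
  rw [Set.mem_compl_iff, Module.notMem_support_iff']
  intro m
  exact ⟨r, hp, hr' m trivial⟩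

end DS
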