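import Pool.Agent.Lib.DS.Fin
import Pool.Agent.Lib.CS.ToDS

/-!
# Union with the composite valuations
-/

namespace DS

open MP1a953e DA IsLocalRing

/-- a valuation ring over `O k` in the unit ball is a point -/
theorem pt_of_le {k L : Type} [NontriviallyNormedField k] [IsUltrametricDist k] [NormedField L]
    [IsUltrametricDist L] [NormedAlgebra k L] {V : ValuationSubring L}
    (hV : V ≤ Pool.Agent.Lib.MP_3029eb_ag.Abh.ball L)
    (hc : ∀ c : k, ‖c‖ ≤ 1 → algebraMap k L c ∈ V) : Pt k V := by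
  have hO : CS.OvR k V := ⟨hV, hc⟩
  refine ⟨fun c => ⟨fun h => ?_, hc c⟩, fun x => ?_⟩
  · have h1 := hO.norm_le h
    rwa [norm_algebraMap'] at h1
  · obtain ⟨c, hc⟩ := NormedField.exists_lt_norm k ‖x‖
    have hc0 : c ≠ 0 := by
      rintro rfl
      rw [norm_zero] at hc
      exact absurd (norm_nonneg x) (not_le.2 hc)
    refine ⟨c⁻¹, inv_ne_zero hc0, hO.mem_of_norm ?_⟩
    rw [norm_mul, norm_algebraMap', norm_inv]
    have h1 : 0 < ‖c‖ := norm_pos_iff.2 hc0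
    rw [inv_mul_lt_iff₀ h1]
    linarith

/-- Charts at the points `(P, V)`, `V` composed of a rank one valuation of defect at most one and a
composite valuation of its residue field. -/
theorem charts_points {p : ℕ} [Fact p.Prime] {k S T L : Type} [NontriviallyNormedField k]
    [IsUltrametricDist k] [IsAlgClosed k] (hp : ‖(p : k)‖ < 1) [CommRing S] [IsDomain S]
    [Algebra k S] (P : Ideal S) [P.IsPrime] [CommRing T] [Algebra k T] [Algebra S T]
    [IsScalarTower k S T] [IsLocalization.AtPrime T P] [Algebra.FormallySmooth k T]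
    [NormedField L] [IsUltrametricDist L] [NormedAlgebra k L] [Algebra T L] [IsScalarTower k T L]
    (hL : Function.Surjective (algebraMap T L)) {r m : ℕ} (e : Fin r → L) (hne : ∀ i, e i ≠ 0)
    (hind : ∀ (z : Fin r → ℤ) (c : k), ‖c‖ = ‖∏ i, e i ^ z i‖ → z = 0)
    (htors : ∀ x : L, x ≠ 0 → ∃ n : ℕ, 0 < n ∧ ∃ (z : Fin r → ℤ) (c : k),
      ‖x‖ ^ n = ‖c‖ * ‖∏ i, e i ^ z i‖)
    (hres : Algebra.trdeg (ResidueField (O k)) (ResidueField (O L)) = ((m : ℕ) : Cardinal))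
    {δ : ℕ} (hδ : δ ≤ 1) (htr : Algebra.trdeg k L = ((r + m + δ : ℕ) : Cardinal))
    {V : ValuationSubring L} {r₂ : ℕ} (hV : CS.VComp k V r₂)
    (hc : ∀ c : k, ‖c‖ ≤ 1 → algebraMap k L c ∈ V) (A : Subalgebra (O k) S) (hA : A.FG)
    (hAS : ∀ x : S, ∃ c : k, c ≠ 0 ∧ c • x ∈ A)
    (hAV : ∀ a ∈ A, algebraMap T L (algebraMap S T a) ∈ V) (E : Finset S)
    (hE : ∀ x ∈ E, x ∉ P) :
    ∃ (n : ℕ) (f : Fin (n + 1) → S), (∀ i, f i ∈ A) ∧ f 0 ∉ P ∧
      (∃ i, ∃ c : O k, c ≠ 0 ∧ f i = algebraMap (O k) S c) ∧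
      (∀ x ∈ chart T A f, algebraMap T L x ∈ V) ∧
      ∃ ϖ : O k, ϖ ≠ 0 ∧ ‖(ϖ : k)‖ < 1 ∧
        ∃ φ : SS (r + r₂) ϖ →ₐ[O k] ↥(chart T A f), φ.toRingHom.Smooth ∧
        (∀ i, V.valuation (algebraMap T L (φ (SS.x i))) < 1) ∧
        ∀ t ∈ E, MonU (chart T A f) (fun i => (φ (SS.x i) : T)) (algebraMap S T t) := by
  have hft := finiteType_of_model hA fun x => by
    obtain ⟨c, hc, h⟩ := hAS x
    exact ⟨c, hc, by rwa [← Algebra.smul_def]⟩
  exact charts_at' P hL A hA hAS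
    (CS.charts_comp hp (fg_residue P hL) e hne hind htors hres hδ htr hV hc)
    (pt_of_le hV.le hc) hAV E hE

end DS
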